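import Pool.Agent.R80.WF.Defs

set_option autoImplicit false

namespace Pool.Agent.R80.WF

open Polynomial

theorem eis : S_EIS := by
  intro P N hN hm hd hmod hev
  set E : ℤ[X] := P.comp (X + 1) with hE
  have hX1 : (X + 1 : ℤ[X]) = X + C 1 := by simp
  have hEm : E.Monic := by
    rw [hE, hX1]
    exact hm.comp (monic_X_add_C 1) (by rw [natDegree_X_add_C]; norm_num)
  have hEd : E.natDegree = N := by
    rw [hE, natDegree_comp, hX1, natDegree_X_add_C, hd, mul_one]
  have hE2 : E.map (Int.castRingHom (ZMod 2)) = X ^ N := by
    rw [hE, Polynomial.map_comp, hmod]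
    simp only [Polynomial.map_add, map_X, Polynomial.map_one, pow_comp, add_comp, X_comp,
      one_comp]
    congr 1
    have h2 : (1 : (ZMod 2)[X]) + 1 = 0 := by
      have : (C (1 + 1 : ZMod 2) : (ZMod 2)[X]) = 0 := by
        have h3 : (1 + 1 : ZMod 2) = 0 := by decide
        rw [h3, C_0]
      simpa using this
    rw [add_assoc, h2, add_zero]
  have hE0 : E.coeff 0 = P.eval 1 := by
    rw [coeff_zero_eq_eval_zero, hE, eval_comp]
    simp
  have hEis : E.IsEisensteinAt (Ideal.span {(2 : ℤ)}) := by
    refine ⟨?_, ?_, ?_⟩
    · rw [hEm.leadingCoeff, Ideal.mem_span_singleton]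
      norm_num
    · intro n hn
      rw [Ideal.mem_span_singleton]
      have h1 := congrArg (fun q => q.coeff n) hE2
      simp only [coeff_map, coeff_X_pow] at h1
      rw [if_neg (by omega)] at h1
      exact (ZMod.intCast_zmod_eq_zero_iff_dvd _ 2).1 (by simpa using h1)
    · rw [Ideal.span_singleton_pow, Ideal.mem_span_singleton, hE0]
      omega
  have hprime : (Ideal.span {(2 : ℤ)}).IsPrime := by
    rw [Ideal.span_singleton_prime (by norm_num)]
    exact Int.prime_two
  have hEirr : Irreducible E := hEis.irreducible hprime hEm.isPrimitive (by omega)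
  have hPirr : Irreducible P := by
    have h1 : P = E.comp (X - 1) := by
      rw [hE, comp_assoc]
      simp
    refine ⟨?_, ?_⟩
    · intro hu
      have := natDegree_eq_zero_of_isUnit hu
      omega
    · intro A B hAB
      have h2 : E = A.comp (X + 1) * B.comp (X + 1) := by
        rw [hE, hAB, mul_comp]
      rcases hEirr.isUnit_or_isUnit h2 with h | h
      · left
        have h3 : A = (A.comp (X + 1)).comp (X - 1) := by
          rw [comp_assoc]
          simp
        rw [h3]
        exact h.map (compRingHom (X - 1))
      · right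
        have h3 : B = (B.comp (X + 1)).comp (X - 1) := by
          rw [comp_assoc]
          simp
        rw [h3]
        exact h.map (compRingHom (X - 1))
  exact (Polynomial.IsPrimitive.Int.irreducible_iff_irreducible_map_cast hm.isPrimitive).1 hPirr

end Pool.Agent.R80.WF
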