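import Pool.Agent.R80.WF.Coef
import Pool.Agent.R80.WF.Eis

set_option autoImplicit false

namespace Pool.Agent.R80.WF

open Polynomial

/-- the conclusion for the triple `(p, g, f)` -/
def Good (p g f : ℕ) : Prop :=
  ∃ P : ℤ[X], P.Monic ∧ P.natDegree = 2 * g ∧ Irreducible (P.map (Int.castRingHom ℚ)) ∧
    (∀ x : ℂ, aeval x P = 0 → ‖x‖ = Real.sqrt p) ∧
    (∀ i < 2 * g - f, (p : ℤ) ∣ P.coeff i) ∧ ¬ (p : ℤ) ∣ P.coeff (2 * g - f) ∧
    (∀ x : ℂ, aeval x P = 0 → ∀ n : ℕ, 1 ≤ n →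
      IntermediateField.adjoin ℚ {x ^ n} = IntermediateField.adjoin ℚ {x})

theorem add3 {A B C' D E : ℤ} (h1 : A % 2 = D % 2) (h2 : B % 2 = 0) (h3 : C' % 2 = E % 2) :
    (A + B + C') % 2 = (D + E) % 2 := by omega

/-- the sum of the first half of the coefficients is even -/
theorem half_even {g : ℕ} {a : ℕ → ℤ} (hg : 3 ≤ g) (hodd : g % 2 = 1) (ha0 : a 0 = 1)
    (ha : ∀ i, 1 ≤ i → i ≤ g → a i % 2 = par g i) :
    (∑ i ∈ Finset.range g, a i) % 2 = 0 := by
  obtain ⟨m, rfl⟩ : ∃ m, g = 2 * m + 1 := ⟨g / 2, by omega⟩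
  have h1 : ∀ n, n ≤ 2 * m + 1 → ∀ i, i < n → a i % 2 = par (2 * m + 1) i := by
    intro n hn i hi
    rcases Nat.eq_zero_or_pos i with h0 | h0
    · subst h0
      rw [ha0]
      simp [par]
    · exact ha i h0 (by omega)
  have h2 : ∀ k, k ≤ m → (∑ i ∈ Finset.range (2 * k + 1), a i) % 2 =
      (∑ j ∈ Finset.range (k + 1), ((2 * m + 1).choose j : ℤ)) % 2 := by
    intro k
    induction k with
    | zero =>
      intro _
      simp [ha0]
    | succ k ih =>
      intro hk
      have e1 : 2 * (k + 1) + 1 = (2 * k + 1) + 1 + 1 := by ring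
      rw [e1, Finset.sum_range_succ, Finset.sum_range_succ, Finset.sum_range_succ _ (k + 1)]
      have e2 := ih (by omega)
      have e3 := h1 (2 * m + 1) le_rfl (2 * k + 1) (by omega)
      have e4 := h1 (2 * m + 1) le_rfl (2 * k + 1 + 1) (by omega)
      rw [par, if_neg (by omega)] at e3
      rw [par, if_pos (by omega)] at e4
      have e5 : (2 * k + 1 + 1) / 2 = k + 1 := by omega
      rw [e5] at e4
      exact add3 e2 e3 e4
  have h3 := h2 m le_rfl
  have h4 : (∑ j ∈ Finset.range (m + 1), ((2 * m + 1).choose j : ℤ)) = ((4 ^ m : ℕ) : ℤ) := by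
    rw [← Nat.sum_range_choose_halfway m]
    push_cast
    rfl
  rw [h3, h4]
  have : 1 ≤ m := by omega
  obtain ⟨k, rfl⟩ : ∃ k, m = k + 1 := ⟨m - 1, by omega⟩
  rw [pow_succ]
  push_cast
  omega

theorem pow_odd_mod {p : ℤ} (hp : p % 2 = 1) (n : ℕ) (hn : n % 2 = 1) : (p ^ n - p) % 4 = 0 := by
  obtain ⟨m, rfl⟩ : ∃ m, n = 2 * m + 1 := ⟨n / 2, by omega⟩
  have h1 : p ^ 2 % 4 = 1 := by
    obtain ⟨q, rfl⟩ : ∃ q, p = 2 * q + 1 := ⟨p / 2, by omega⟩
    have : (2 * q + 1) ^ 2 = 4 * (q ^ 2 + q) + 1 := by ring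
    rw [this]
    omega
  have h2 : (p ^ 2) ^ m % 4 = 1 := by
    have h1' : p ^ 2 ≡ 1 [ZMOD 4] := h1
    have h3 := h1'.pow m
    rw [one_pow] at h3
    exact h3
  rw [pow_succ, pow_mul]
  obtain ⟨q, hq⟩ : ∃ q, (p ^ 2) ^ m = 4 * q + 1 := ⟨(p ^ 2) ^ m / 4, by omega⟩
  rw [hq]
  have : (4 * q + 1) * p - p = 4 * (q * p) := by ring
  rw [this]
  omega

theorem pow_even_mod {p : ℤ} (hp : p % 2 = 1) (n : ℕ) (hn : n % 2 = 0) : (p ^ n - 1) % 4 = 0 := by
  obtain ⟨m, rfl⟩ : ∃ m, n = 2 * m := ⟨n / 2, by omega⟩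
  have h1 : p ^ 2 % 4 = 1 := by
    obtain ⟨q, rfl⟩ : ∃ q, p = 2 * q + 1 := ⟨p / 2, by omega⟩
    have : (2 * q + 1) ^ 2 = 4 * (q ^ 2 + q) + 1 := by ring
    rw [this]
    omega
  have h2 : (p ^ 2) ^ m % 4 = 1 := by
    have h1' : p ^ 2 ≡ 1 [ZMOD 4] := h1
    have h3 := h1'.pow m
    rw [one_pow] at h3
    exact h3
  rw [pow_mul]
  omega

theorem dvd4_of_even {x y : ℤ} (hx : x % 2 = 0) (hy : y % 2 = 0) : (4 : ℤ) ∣ x * y := by
  obtain ⟨a, rfl⟩ : ∃ a, x = 2 * a := ⟨x / 2, by omega⟩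
  obtain ⟨b, rfl⟩ : ∃ b, y = 2 * b := ⟨y / 2, by omega⟩
  exact ⟨a * b, by ring⟩

/-- `P'(1) = g P(1)` modulo 4 -/
theorem ev_one {p g : ℕ} {a : ℕ → ℤ} (hp : p % 2 = 1) (hg : 3 ≤ g) (ha0 : a 0 = 1)
    (ha : ∀ i, 1 ≤ i → i ≤ g → a i % 2 = par g i) :
    (4 : ℤ) ∣ ev 1 (PP p g a) - g * ev 0 (PP p g a) := by
  have hpz : ((p : ℤ)) % 2 = 1 := by omega
  have hparodd : ∀ i, i < g → i % 2 = 1 → a i % 2 = 0 := by
    intro i hi hi2
    rw [ha i (by omega) (by omega), par, if_neg (by omega)]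
  have e1 : ev 1 (PP p g a) - g * ev 0 (PP p g a) =
      ∑ i ∈ Finset.range g, a i * (((g : ℤ) - i) * (1 - (p : ℤ) ^ (g - i))) := by
    rw [ev_PP, ev_PP]
    simp only [Nat.choose_one_right, Nat.choose_zero_right]
    have : ∑ i ∈ Finset.range g, a i * ((2 * g - i : ℕ) + (p : ℤ) ^ (g - i) * (i : ℕ)) -
        g * ∑ i ∈ Finset.range g, a i * ((1 : ℕ) + (p : ℤ) ^ (g - i) * (1 : ℕ)) =
        ∑ i ∈ Finset.range g, a i * (((g : ℤ) - i) * (1 - (p : ℤ) ^ (g - i))) := by
      rw [Finset.mul_sum, ← Finset.sum_sub_distrib]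
      refine Finset.sum_congr rfl fun i hi => ?_
      have hi' := Finset.mem_range.1 hi
      have : ((2 * g - i : ℕ) : ℤ) = 2 * g - i := by
        rw [Nat.cast_sub (by omega)]
        push_cast
        ring
      rw [this]
      push_cast
      ring
    rw [← this]
    push_cast
    ring
  rw [e1]
  rcases Nat.even_or_odd g with hge | hgo
  · -- `g` even
    have hg2 : g % 2 = 0 := Nat.even_iff.1 hge
    refine Finset.dvd_sum fun i hi => ?_
    have hi' := Finset.mem_range.1 hi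
    by_cases hi2 : i % 2 = 0
    · have h1 := pow_even_mod hpz (g - i) (by omega)
      have h2 : (4 : ℤ) ∣ 1 - (p : ℤ) ^ (g - i) := by omega
      exact Dvd.dvd.mul_left (Dvd.dvd.mul_left h2 _) _
    · have h0 := hparodd i hi' (by omega)
      have h1 := pow_odd_mod hpz (g - i) (by omega)
      have h2 : (1 - (p : ℤ) ^ (g - i)) % 2 = 0 := by omega
      have h3 := dvd4_of_even h0 h2
      have : a i * (((g : ℤ) - i) * (1 - (p : ℤ) ^ (g - i))) =
          ((g : ℤ) - i) * (a i * (1 - (p : ℤ) ^ (g - i))) := by ring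
      rw [this]
      exact Dvd.dvd.mul_left h3 _
  · have hg2 : g % 2 = 1 := Nat.odd_iff.1 hgo
    have hhalf := half_even hg hg2 ha0 ha
    have h4 : (4 : ℤ) ∣ (∑ i ∈ Finset.range g, a i) * (1 - (p : ℤ)) :=
      dvd4_of_even hhalf (by omega)
    rw [Finset.sum_mul] at h4
    have h5 : (4 : ℤ) ∣ ∑ i ∈ Finset.range g, (a i * (((g : ℤ) - i) * (1 - (p : ℤ) ^ (g - i)))
        - a i * (1 - (p : ℤ))) := by
      refine Finset.dvd_sum fun i hi => ?_
      have hi' := Finset.mem_range.1 hi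
      by_cases hi2 : i % 2 = 0
      · have h1 := pow_odd_mod hpz (g - i) (by omega)
        obtain ⟨c, hc⟩ : ∃ c, (p : ℤ) ^ (g - i) = p + 4 * c := ⟨((p : ℤ) ^ (g - i) - p) / 4, by omega⟩
        have h2 : (4 : ℤ) ∣ ((g : ℤ) - i - 1) * (1 - (p : ℤ)) := dvd4_of_even (by omega) (by omega)
        obtain ⟨d, hd⟩ := h2
        rw [hc]
        refine ⟨a i * (d - ((g : ℤ) - i) * c), ?_⟩
        linear_combination (a i) * hd
      · have h0 := hparodd i hi' (by omega)
        have h1 := pow_even_mod hpz (g - i) (by omega)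
        have h2 : (4 : ℤ) ∣ 1 - (p : ℤ) ^ (g - i) := by omega
        have h3 : (4 : ℤ) ∣ a i * (1 - (p : ℤ)) := dvd4_of_even h0 (by omega)
        exact dvd_sub (Dvd.dvd.mul_left (Dvd.dvd.mul_left h2 _) _) h3
    rw [Finset.sum_sub_distrib] at h5
    have := dvd_add h5 h4
    simpa using this

/-- `g` odd: `P(1) = a_g` modulo 4 -/
theorem ev_zero_odd {p g : ℕ} {a : ℕ → ℤ} (hp : p % 2 = 1) (hg : 3 ≤ g) (hg2 : g % 2 = 1)
    (ha0 : a 0 = 1) (ha : ∀ i, 1 ≤ i → i ≤ g → a i % 2 = par g i) :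
    (4 : ℤ) ∣ ev 0 (PP p g a) - a g := by
  have hpz : ((p : ℤ)) % 2 = 1 := by omega
  have hparodd : ∀ i, i < g → i % 2 = 1 → a i % 2 = 0 := by
    intro i hi hi2
    rw [ha i (by omega) (by omega), par, if_neg (by omega)]
  have hhalf := half_even hg hg2 ha0 ha
  have h4 : (4 : ℤ) ∣ (∑ i ∈ Finset.range g, a i) * (1 + (p : ℤ)) :=
    dvd4_of_even hhalf (by omega)
  rw [Finset.sum_mul] at h4
  have h5 : (4 : ℤ) ∣ ∑ i ∈ Finset.range g, (a i * (1 + (p : ℤ) ^ (g - i)) - a i * (1 + (p : ℤ))) := by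
    refine Finset.dvd_sum fun i hi => ?_
    have hi' := Finset.mem_range.1 hi
    by_cases hi2 : i % 2 = 0
    · have h1 := pow_odd_mod hpz (g - i) (by omega)
      obtain ⟨c, hc⟩ : ∃ c, (p : ℤ) ^ (g - i) = p + 4 * c := ⟨((p : ℤ) ^ (g - i) - p) / 4, by omega⟩
      rw [hc]
      exact ⟨a i * c, by ring⟩
    · have h0 := hparodd i hi' (by omega)
      have h1 := pow_even_mod hpz (g - i) (by omega)
      have h3 := dvd4_of_even h0 (show ((p : ℤ) ^ (g - i) - p) % 2 = 0 by omega)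
      have : a i * (1 + (p : ℤ) ^ (g - i)) - a i * (1 + (p : ℤ)) = a i * ((p : ℤ) ^ (g - i) - p) := by
        ring
      rw [this]
      exact h3
  rw [Finset.sum_sub_distrib] at h5
  have h6 := dvd_add h5 h4
  have e : ev 0 (PP p g a) - a g = ∑ i ∈ Finset.range g, a i * (1 + (p : ℤ) ^ (g - i)) := by
    rw [ev_PP]
    simp
  rw [e]
  simpa using h6

theorem choose_three_even (k : ℕ) : (4 : ℤ) ∣ ((2 * k).choose 3 : ℕ) := by
  have h1 : 4 ∣ (2 * k).choose 3 := by
    induction k with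
    | zero => simp
    | succ k ih =>
      have e : 2 * (k + 1) = (2 * k + 1) + 1 := by ring
      rw [e, Nat.choose_succ_succ, Nat.choose_succ_succ (2 * k) 2, Nat.choose_succ_succ (2 * k) 1]
      have h2 : (2 * k).choose 2 * 2 = 2 * k * (2 * k - 1) := by
        rw [Nat.choose_two_right]
        exact Nat.div_mul_cancel (Nat.even_mul_pred_self (2 * k)).two_dvd
      have h3 : (2 * k).choose 2 = k * (2 * k - 1) := by
        have : 2 * k * (2 * k - 1) = k * (2 * k - 1) * 2 := by ring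
        omega
      rw [Nat.choose_one_right, h3]
      simp only [Nat.succ_eq_add_one, Nat.reduceAdd]
      have h4 : 2 * k + k * (2 * k - 1) + (k * (2 * k - 1) + (2 * k).choose 3) =
          4 * (k * k) + (2 * k).choose 3 := by
        rcases Nat.eq_zero_or_pos k with h0 | h0
        · subst h0
          simp
        · obtain ⟨m, rfl⟩ : ∃ m, k = m + 1 := ⟨k - 1, by omega⟩
          have : 2 * (m + 1) - 1 = 2 * m + 1 := by omega
          rw [this]
          ring
      rw [h4]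
      exact dvd_add (dvd_mul_right _ _) ih
  exact_mod_cast h1


theorem coeff_comp_neg_X' (q : ℚ[X]) (k : ℕ) : (q.comp (-X)).coeff k = (-1) ^ k * q.coeff k := by
  have h : (-X : ℚ[X]) = C (-1) * X := by simp
  rw [h, comp_C_mul_X_coeff]
  ring

/-- the polynomial is not even -/
theorem not_even {p g : ℕ} {a : ℕ → ℤ} (hp : p % 2 = 1) (hg : 3 ≤ g) (ha0 : a 0 = 1)
    (ha : ∀ i, 1 ≤ i → i ≤ g → a i % 2 = par g i) (h0 : ev 0 (PP p g a) % 4 = 2)
    (h3 : g % 2 = 1 ∨ ev 3 (PP p g a) % 4 = 2)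
    (hirr : Irreducible ((PP p g a).map (Int.castRingHom ℚ))) {x : ℂ}
    (hx : aeval x (PP p g a) = 0) : aeval (-x) (PP p g a) ≠ 0 := by
  intro hx'
  set P := PP p g a with hP
  have hm : P.Monic := monic_PP (by omega) ha0
  have hd : P.natDegree = 2 * g := natDegree_PP (by omega) ha0
  have hdQ : (P.map (Int.castRingHom ℚ)).natDegree = 2 * g := by rw [hm.natDegree_map, hd]
  have hmQ : (P.map (Int.castRingHom ℚ)).Monic := hm.map _
  have hmin : P.map (Int.castRingHom ℚ) = minpoly ℚ x := by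
    refine minpoly.eq_of_irreducible_of_monic hirr ?_ hmQ
    rw [← hx]
    exact aeval_map_algebraMap ℚ x P
  have hdvd : P.map (Int.castRingHom ℚ) ∣ (P.map (Int.castRingHom ℚ)).comp (-X) := by
    rw [hmin]
    refine minpoly.dvd ℚ x ?_
    rw [← hmin, aeval_comp]
    simp only [map_neg, aeval_X]
    rw [← hx']
    exact aeval_map_algebraMap ℚ (-x) P
  have hcd : ((P.map (Int.castRingHom ℚ)).comp (-X)).natDegree = 2 * g := by
    rw [natDegree_comp, natDegree_neg, natDegree_X, hdQ, mul_one]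
  have hcm : ((P.map (Int.castRingHom ℚ)).comp (-X)).Monic := by
    rw [Monic, leadingCoeff, hcd, coeff_comp_neg_X']
    have : (P.map (Int.castRingHom ℚ)).coeff (2 * g) = 1 := by
      rw [← hdQ]
      exact hmQ
    rw [this]
    simp
  have heq : P.map (Int.castRingHom ℚ) = (P.map (Int.castRingHom ℚ)).comp (-X) :=
    (Polynomial.eq_of_monic_of_dvd_of_natDegree_le hmQ hcm hdvd (by rw [hcd, hdQ])).symm
  have hcoef : ∀ k, k % 2 = 1 → P.coeff k = 0 := by
    intro k hk
    have h1 := congrArg (fun q => q.coeff k) heq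
    simp only [coeff_comp_neg_X', coeff_map] at h1
    have h2 : (-1 : ℚ) ^ k = -1 := by
      rw [Odd.neg_one_pow (Nat.odd_iff.2 hk)]
    rw [h2] at h1
    have h3 : ((P.coeff k : ℤ) : ℚ) = 0 := by
      simp only [eq_intCast] at h1
      linarith
    exact_mod_cast h3
  have hai : ∀ i, i < g → i % 2 = 1 → a i = 0 := by
    intro i hi hi2
    have h1 := hcoef (2 * g - i) (by omega)
    rw [hP, coeff_PP, if_neg (by omega), if_neg (by omega), if_pos (by omega)] at h1
    have : 2 * g - (2 * g - i) = i := by omega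
    rwa [this] at h1
  have hag : g % 2 = 1 → a g = 0 := by
    intro h
    have h1 := hcoef g h
    rwa [hP, coeff_PP, if_neg (by omega), if_pos rfl] at h1
  rcases h3 with h3 | h3
  · have h4 := ev_zero_odd hp hg h3 ha0 ha
    rw [hag h3, ← hP] at h4
    omega
  · by_cases hg2 : g % 2 = 1
    · have h4 := ev_zero_odd hp hg hg2 ha0 ha
      rw [hag hg2, ← hP] at h4
      omega
    · have h4 : (4 : ℤ) ∣ ev 3 P := by
        rw [hP, ev_PP]
        refine dvd_add (Finset.dvd_sum fun i hi => ?_) ?_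
        · have hi' := Finset.mem_range.1 hi
          by_cases hi2 : i % 2 = 1
          · rw [hai i hi' hi2]
            simp
          · obtain ⟨k, rfl⟩ : ∃ k, i = 2 * k := ⟨i / 2, by omega⟩
            have e1 : 2 * g - 2 * k = 2 * (g - k) := by omega
            rw [e1]
            exact Dvd.dvd.mul_left (dvd_add (choose_three_even _)
              (Dvd.dvd.mul_left (choose_three_even _) _)) _
        · obtain ⟨k, hk⟩ : ∃ k, g = 2 * k := ⟨g / 2, by omega⟩
          have : (4 : ℤ) ∣ (g.choose 3 : ℕ) := by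
            rw [hk]
            exact choose_three_even k
          exact Dvd.dvd.mul_left this _
      omega

/-- the assembly -/
theorem good_of (hNOI : S_NOI) (hND : S_ND) {p g f : ℕ} (_hp : p.Prime) (hp2 : p % 2 = 1)
    (hg : 3 ≤ g) (hf : f ≤ g) {a : ℕ → ℤ} (ha0 : a 0 = 1)
    (ha : ∀ i, 1 ≤ i → i ≤ g → a i % 2 = par g i) (h0 : ev 0 (PP p g a) % 4 = 2)
    (h3 : g % 2 = 1 ∨ ev 3 (PP p g a) % 4 = 2)
    (hdiv : ∀ i, f < i → i ≤ g → (p : ℤ) ∣ a i) (hnd : ¬ (p : ℤ) ∣ a f)
    (hroot : ∀ x : ℂ, aeval x (PP p g a) = 0 → ‖x‖ = Real.sqrt p) : Good p g f := by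
  set P := PP p g a with hP
  have hm : P.Monic := monic_PP (by omega) ha0
  have hd : P.natDegree = 2 * g := natDegree_PP (by omega) ha0
  have hmod : P.map (Int.castRingHom (ZMod 2)) = (X + 1) ^ (2 * g) := map_PP hp2 ha0 ha
  have hev0 : P.eval 1 % 4 = 2 := by
    have : ev 0 P = P.eval 1 := by
      rw [ev_eq]
      simp
    rw [← this]
    exact h0
  have hirr : Irreducible (P.map (Int.castRingHom ℚ)) :=
    eis P (2 * g) (by omega) hm hd hmod hev0
  -- the shifted polynomial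
  set E : ℤ[X] := P.comp (X + 1) with hE
  have hX1 : (X + 1 : ℤ[X]) = X + C 1 := by simp
  have hEm : E.Monic := by
    rw [hE, hX1]
    exact hm.comp (monic_X_add_C 1) (by rw [natDegree_X_add_C]; norm_num)
  have hEd : E.natDegree = 2 * g := by
    rw [hE, natDegree_comp, hX1, natDegree_X_add_C, hd, mul_one]
  have hE2 : E.map (Int.castRingHom (ZMod 2)) = X ^ (2 * g) := by
    rw [hE, Polynomial.map_comp, hmod]
    simp only [Polynomial.map_add, map_X, Polynomial.map_one, pow_comp, add_comp, X_comp,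
      one_comp]
    congr 1
    have h2 : (1 : (ZMod 2)[X]) + 1 = 0 := by
      have : (C (1 + 1 : ZMod 2) : (ZMod 2)[X]) = 0 := by
        have h3 : (1 + 1 : ZMod 2) = 0 := by decide
        rw [h3, C_0]
      simpa using this
    rw [add_assoc, h2, add_zero]
  have hEirr : Irreducible (E.map (Int.castRingHom ℚ)) := by
    have hz : Irreducible P :=
      (Polynomial.IsPrimitive.Int.irreducible_iff_irreducible_map_cast hm.isPrimitive).2 hirr
    refine (Polynomial.IsPrimitive.Int.irreducible_iff_irreducible_map_cast hEm.isPrimitive).1 ?_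
    have hPE : P = E.comp (X - 1) := by
      rw [hE, comp_assoc]
      simp
    refine ⟨?_, ?_⟩
    · intro hu
      have := natDegree_eq_zero_of_isUnit hu
      omega
    · intro A B hAB
      have h2 : P = A.comp (X - 1) * B.comp (X - 1) := by
        rw [hPE, hAB, mul_comp]
      rcases hz.isUnit_or_isUnit h2 with h | h
      · left
        have h3 : A = (A.comp (X - 1)).comp (X + 1) := by
          rw [comp_assoc]
          simp
        rw [h3]
        exact h.map (compRingHom (X + 1))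
      · right
        have h3 : B = (B.comp (X - 1)).comp (X + 1) := by
          rw [comp_assoc]
          simp
        rw [h3]
        exact h.map (compRingHom (X + 1))
  have hEcase : E.coeff 1 % 4 = 2 ∨ (4 ≤ g ∧ E.coeff 1 % 4 = 0 ∧ E.coeff 3 % 4 = 2) := by
    have h1 := ev_one hp2 hg ha0 ha
    have e1 : E.coeff 1 = ev 1 P := rfl
    have e3 : E.coeff 3 = ev 3 P := rfl
    rw [e1, e3]
    obtain ⟨c, hc⟩ : ∃ c, ev 0 P = 4 * c + 2 := ⟨ev 0 P / 4, by omega⟩
    rw [← hP, hc] at h1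
    by_cases hg2 : g % 2 = 1
    · left
      obtain ⟨m, hm'⟩ : ∃ m : ℤ, (g : ℤ) = 2 * m + 1 := ⟨(g : ℤ) / 2, by omega⟩
      rw [hm'] at h1
      obtain ⟨d, hd'⟩ := h1
      have : ev 1 P = 4 * (d + (2 * m + 1) * c + m) + 2 := by linarith
      omega
    · right
      obtain ⟨m, hm'⟩ : ∃ m : ℤ, (g : ℤ) = 2 * m := ⟨(g : ℤ) / 2, by omega⟩
      rw [hm'] at h1
      obtain ⟨d, hd'⟩ := h1
      have : ev 1 P = 4 * (d + 2 * m * c + m) := by linarith
      refine ⟨by omega, by omega, ?_⟩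
      rcases h3 with h3 | h3
      · omega
      · exact h3
  refine ⟨P, hm, hd, hirr, hroot, ?_, ?_, ?_⟩
  · intro i hi
    rw [hP, coeff_PP]
    split_ifs with h1 h2 h4
    · exact Dvd.dvd.mul_right (dvd_pow_self _ (by omega)) _
    · exact hdiv g (by omega) le_rfl
    · exact hdiv (2 * g - i) (by omega) (by omega)
    · exact dvd_zero _
  · rw [hP, coeff_PP, if_neg (by omega)]
    by_cases hfg : f = g
    · rw [if_pos (by omega)]
      rwa [hfg] at hnd
    · rw [if_neg (by omega), if_pos (by omega)]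
      have : 2 * g - (2 * g - f) = f := by omega
      rwa [this]
  · intro x hx n hn
    have hy : aeval (x - 1) E = 0 := by
      rw [hE, aeval_comp]
      simp [hx]
    have hadj : IntermediateField.adjoin ℚ {x - 1} = IntermediateField.adjoin ℚ {x} := by
      apply le_antisymm
      · rw [IntermediateField.adjoin_simple_le_iff]
        exact sub_mem (IntermediateField.mem_adjoin_simple_self ℚ x) (one_mem _)
      · rw [IntermediateField.adjoin_simple_le_iff]
        have := add_mem (IntermediateField.mem_adjoin_simple_self ℚ (x - 1)) (one_mem _)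
        simpa using this
    have hnoi := hNOI E g (by omega) hEm hEd hE2 (by
      have : E.coeff 0 = ev 0 P := rfl
      rw [this]; exact h0) hEcase hEirr (x - 1) hy
    rw [hadj] at hnoi
    exact hND P (2 * g) (by omega) hm hd hmod hirr x hx hnoi
      (not_even hp2 hg ha0 ha h0 h3 hirr hx) n hn

end Pool.Agent.R80.WF
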