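import Pool.Agent.R80.WF.Defs

set_option autoImplicit false

namespace Pool.Agent.R80.WF

open Polynomial

/-- coefficients of `PP` -/
theorem coeff_PP (p g : ℕ) (a : ℕ → ℤ) (k : ℕ) : (PP p g a).coeff k =
    if k < g then (p : ℤ) ^ (g - k) * a k else if k = g then a g else
      if k ≤ 2 * g then a (2 * g - k) else 0 := by
  unfold PP
  rw [coeff_add, finsetSum_coeff, coeff_C_mul, coeff_X_pow]
  have h1 : ∀ i ∈ Finset.range g, (C (a i) * (X ^ (2 * g - i) + C ((p : ℤ) ^ (g - i)) * X ^ i)).coeff k
      = (if k = 2 * g - i then a i else 0) + (if k = i then (p : ℤ) ^ (g - i) * a i else 0) := by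
    intro i _
    rw [coeff_C_mul, coeff_add, coeff_X_pow, coeff_C_mul, coeff_X_pow]
    split_ifs <;> ring
  rw [Finset.sum_congr rfl h1, Finset.sum_add_distrib, Finset.sum_ite_eq]
  simp only [Finset.mem_range]
  by_cases hk : k < g
  · rw [if_pos hk, if_pos hk, if_neg (by omega : ¬ k = g)]
    have : ∑ i ∈ Finset.range g, (if k = 2 * g - i then a i else 0) = 0 := by
      refine Finset.sum_eq_zero fun i hi => ?_
      have := Finset.mem_range.1 hi
      rw [if_neg (by omega)]
    rw [this]
    ring
  · rw [if_neg hk, if_neg hk]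
    by_cases hkg : k = g
    · have : ∑ i ∈ Finset.range g, (if k = 2 * g - i then a i else 0) = 0 := by
        refine Finset.sum_eq_zero fun i hi => ?_
        have := Finset.mem_range.1 hi
        rw [if_neg (by omega)]
      rw [this, if_pos hkg, if_pos hkg]
      ring
    · rw [if_neg hkg, if_neg hkg]
      by_cases hk2 : k ≤ 2 * g
      · rw [if_pos hk2]
        have : ∑ i ∈ Finset.range g, (if k = 2 * g - i then a i else 0) = a (2 * g - k) := by
          rw [Finset.sum_eq_single (2 * g - k)]
          · rw [if_pos (by omega)]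
          · intro b hb hne
            have := Finset.mem_range.1 hb
            rw [if_neg (by omega)]
          · intro h
            exfalso
            apply h
            rw [Finset.mem_range]
            omega
        rw [this]
        ring
      · rw [if_neg hk2]
        have : ∑ i ∈ Finset.range g, (if k = 2 * g - i then a i else 0) = 0 := by
          refine Finset.sum_eq_zero fun i hi => ?_
          rw [if_neg (by omega)]
        rw [this]
        ring

theorem natDegree_PP {p g : ℕ} {a : ℕ → ℤ} (hg : 1 ≤ g) (ha : a 0 = 1) :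
    (PP p g a).natDegree = 2 * g := by
  refine natDegree_eq_of_le_of_coeff_ne_zero ?_ ?_
  · rw [natDegree_le_iff_coeff_eq_zero]
    intro N hN
    rw [coeff_PP, if_neg (by omega), if_neg (by omega), if_neg (by omega)]
  · rw [coeff_PP, if_neg (by omega), if_neg (by omega), if_pos le_rfl, Nat.sub_self, ha]
    norm_num

theorem monic_PP {p g : ℕ} {a : ℕ → ℤ} (hg : 1 ≤ g) (ha : a 0 = 1) : (PP p g a).Monic := by
  rw [Monic, leadingCoeff, natDegree_PP hg ha, coeff_PP, if_neg (by omega), if_neg (by omega),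
    if_pos le_rfl, Nat.sub_self, ha]

/-- the parities -/
def par (g i : ℕ) : ℤ := if i % 2 = 0 then ((g.choose (i / 2) : ℕ) : ℤ) % 2 else 0

/-- the value of the `m`-th Hasse derivative at `1` -/
noncomputable def ev (m : ℕ) (P : ℤ[X]) : ℤ := (P.comp (X + 1)).coeff m

theorem ev_eq (m : ℕ) (P : ℤ[X]) : ev m P = (hasseDeriv m P).eval 1 := by
  have : P.comp (X + 1) = taylor 1 P := by
    rw [taylor_apply]
    simp
  rw [ev, this, taylor_coeff]

theorem ev_add (m : ℕ) (P Q : ℤ[X]) : ev m (P + Q) = ev m P + ev m Q := by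
  rw [ev, add_comp, coeff_add]
  rfl

theorem ev_C_mul (m : ℕ) (c : ℤ) (P : ℤ[X]) : ev m (C c * P) = c * ev m P := by
  rw [ev, mul_comp, C_comp, coeff_C_mul]
  rfl

theorem ev_X_pow (m n : ℕ) : ev m ((X : ℤ[X]) ^ n) = n.choose m := by
  rw [ev, pow_comp, X_comp, coeff_X_add_one_pow]

theorem ev_sum {ι : Type*} (m : ℕ) (s : Finset ι) (F : ι → ℤ[X]) :
    ev m (∑ i ∈ s, F i) = ∑ i ∈ s, ev m (F i) := by
  classical
  induction s using Finset.induction_on with
  | empty => simp [ev]
  | insert b s hb ih => rw [Finset.sum_insert hb, Finset.sum_insert hb, ev_add, ih]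

theorem ev_PP (m p g : ℕ) (a : ℕ → ℤ) : ev m (PP p g a) =
    ∑ i ∈ Finset.range g, a i * ((2 * g - i).choose m + (p : ℤ) ^ (g - i) * (i.choose m))
      + a g * g.choose m := by
  unfold PP
  rw [ev_add, ev_sum, ev_C_mul, ev_X_pow]
  congr 1
  refine Finset.sum_congr rfl fun i _ => ?_
  rw [ev_C_mul, ev_add, ev_C_mul, ev_X_pow, ev_X_pow]

/-- reduction mod 2 -/
theorem map_PP {p g : ℕ} {a : ℕ → ℤ} (hp : p % 2 = 1) (ha0 : a 0 = 1)
    (ha : ∀ i, 1 ≤ i → i ≤ g → a i % 2 = par g i) :
    (PP p g a).map (Int.castRingHom (ZMod 2)) = (X + 1) ^ (2 * g) := by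
  have hX : ((X : (ZMod 2)[X]) + 1) ^ (2 * g) = expand (ZMod 2) 2 ((X + 1) ^ g) := by
    rw [pow_mul, map_pow]
    congr 1
    have h2 : (2 : (ZMod 2)[X]) = 0 := by
      have h4 : (C (2 : ZMod 2) : (ZMod 2)[X]) = 0 := by
        have h3 : (2 : ZMod 2) = 0 := by decide
        rw [h3, C_0]
      have h5 : (C (2 : ZMod 2) : (ZMod 2)[X]) = 2 := by rfl
      rw [← h5, h4]
    rw [map_add, expand_X, map_one]
    linear_combination (X : (ZMod 2)[X]) * h2
  rw [hX]
  ext k
  rw [coeff_map, coeff_expand (by norm_num : 0 < 2), coeff_X_add_one_pow, coeff_PP]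
  have hpc : ((p : ℤ) : ZMod 2) = 1 := by
    have : (p : ZMod 2) = ((p % 2 : ℕ) : ZMod 2) := by rw [ZMod.natCast_mod]
    rw [Int.cast_natCast, this, hp]
    rfl
  have key : ∀ i, i ≤ g → ((a i : ℤ) : ZMod 2) = if 2 ∣ i then ((g.choose (i / 2) : ℕ) : ZMod 2) else 0 := by
    intro i hi
    rcases Nat.eq_zero_or_pos i with h0 | h0
    · subst h0
      simp [ha0]
    · have h1 := ha i h0 hi
      have h2 : ((a i : ℤ) : ZMod 2) = ((a i % 2 : ℤ) : ZMod 2) := by
        have h6 := ZMod.intCast_mod (a i) 2
        push_cast at h6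
        exact h6.symm
      rw [h2, h1, par]
      by_cases hi2 : 2 ∣ i
      · rw [if_pos (by omega), if_pos hi2]
        have h3 := ZMod.intCast_mod ((g.choose (i / 2) : ℕ) : ℤ) 2
        rw [Int.cast_natCast] at h3
        exact h3
      · rw [if_neg (by omega), if_neg hi2]
        simp
  by_cases hk : k < g
  · rw [if_pos hk]
    simp only [eq_intCast, Int.cast_mul, Int.cast_pow, hpc, one_pow, one_mul]
    exact key k hk.le
  · rw [if_neg hk]
    by_cases hkg : k = g
    · rw [if_pos hkg]
      subst hkg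
      simp only [eq_intCast]
      exact key k le_rfl
    · rw [if_neg hkg]
      by_cases hk2 : k ≤ 2 * g
      · rw [if_pos hk2]
        simp only [eq_intCast]
        rw [key (2 * g - k) (by omega)]
        by_cases h2 : 2 ∣ k
        · rw [if_pos (by omega), if_pos h2]
          have : (2 * g - k) / 2 = g - k / 2 := by omega
          rw [this, Nat.choose_symm (by omega)]
        · rw [if_neg (by omega), if_neg h2]
      · rw [if_neg hk2]
        split_ifs with h2
        · rw [Nat.choose_eq_zero_of_lt (by omega)]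
          simp
        · simp

end Pool.Agent.R80.WF
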