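import Mathlib

/-!
# Project WF (MP_e32a7e_nt): absolutely simple Weil polynomials over the prime field with given
`p`-rank, odd `p`. Statements.
-/

set_option autoImplicit false

namespace Pool.Agent.R80.WF

open Polynomial

/-- the Weil polynomial `∑_{i<g} a_i (X^(2g-i) + p^(g-i) X^i) + a_g X^g` -/
noncomputable def PP (p : ℕ) (g : ℕ) (a : ℕ → ℤ) : ℤ[X] :=
  ∑ i ∈ Finset.range g, C (a i) * (X ^ (2 * g - i) + C ((p : ℤ) ^ (g - i)) * X ^ i)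
    + C (a g) * X ^ g

/-- WF-ROOT: location of the roots -/
def S_ROOT : Prop := ∀ (p g : ℕ) (a : ℕ → ℤ), 1 ≤ p → 1 ≤ g → a 0 = 1 →
  (∀ θ : ℝ, 0 < ∑ i ∈ Finset.range g, (a i : ℝ) * (Real.sqrt p)⁻¹ ^ i * Real.cos (i * θ)
    + (a g : ℝ) / 2 * (Real.sqrt p)⁻¹ ^ g * Real.cos (g * θ)) →
  ∀ x : ℂ, aeval x (PP p g a) = 0 → ‖x‖ = Real.sqrt p

/-- WF-EIS: irreducibility -/
def S_EIS : Prop := ∀ (P : ℤ[X]) (N : ℕ), 1 ≤ N → P.Monic → P.natDegree = N →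
  P.map (Int.castRingHom (ZMod 2)) = (X + 1) ^ N → P.eval 1 % 4 = 2 →
  Irreducible (P.map (Int.castRingHom ℚ))

/-- WF-NOI: no square root of `-1` in the field generated by a root of `E` -/
def S_NOI : Prop := ∀ (E : ℤ[X]) (g : ℕ), 2 ≤ g → E.Monic → E.natDegree = 2 * g →
  E.map (Int.castRingHom (ZMod 2)) = X ^ (2 * g) → E.coeff 0 % 4 = 2 →
  (E.coeff 1 % 4 = 2 ∨ (4 ≤ g ∧ E.coeff 1 % 4 = 0 ∧ E.coeff 3 % 4 = 2)) →
  Irreducible (E.map (Int.castRingHom ℚ)) →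
  ∀ y : ℂ, aeval y E = 0 → ∀ s ∈ IntermediateField.adjoin ℚ {y}, s ^ 2 ≠ -1

/-- WF-ND: if the field contains no square root of `-1` and `-x` is not conjugate to `x`, then
`ℚ(x^n) = ℚ(x)` -/
def S_ND : Prop := ∀ (P : ℤ[X]) (N : ℕ), 1 ≤ N → P.Monic → P.natDegree = N →
  P.map (Int.castRingHom (ZMod 2)) = (X + 1) ^ N → Irreducible (P.map (Int.castRingHom ℚ)) →
  ∀ x : ℂ, aeval x P = 0 → (∀ s ∈ IntermediateField.adjoin ℚ {x}, s ^ 2 ≠ -1) →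
  aeval (-x) P ≠ 0 → ∀ n : ℕ, 1 ≤ n →
  IntermediateField.adjoin ℚ {x ^ n} = IntermediateField.adjoin ℚ {x}

end Pool.Agent.R80.WF
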