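import Pool.Agent.R80.WF.Coef

set_option autoImplicit false

namespace Pool.Agent.R80.WF

open Polynomial

/-- coefficients for `p`-rank 0 -/
def af (p g i : ℕ) : ℤ :=
  if i = 0 then 1 else if i = g then p else if i + 1 = g then (if g ≤ 5 then p else p ^ 2) else 0

/-- WF-F0R: location of the roots -/
def S_F0R : Prop := ∀ p g : ℕ, p.Prime → 3 ≤ g → ∀ x : ℂ, aeval x (PP p g (af p g)) = 0 →
  ‖x‖ = Real.sqrt p ∧ x.im ≠ 0

/-- WF-F0I: irreducibility -/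
def S_F0I : Prop := ∀ p g : ℕ, p.Prime → 3 ≤ g →
  Irreducible ((PP p g (af p g)).map (Int.castRingHom ℚ))

/-- WF-F0N: two different roots have no common power -/
def S_F0N : Prop := ∀ p g : ℕ, p.Prime → 3 ≤ g → ¬ (p = 3 ∧ g = 3) → ¬ (p = 5 ∧ g = 4) →
  ¬ (p = 5 ∧ g = 5) → ∀ x y : ℂ, aeval x (PP p g (af p g)) = 0 → aeval y (PP p g (af p g)) = 0 →
  ∀ n : ℕ, 1 ≤ n → x ^ n = y ^ n → x = y

end Pool.Agent.R80.WF
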