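import Pool.Agent.R80.WF.F0Defs

/-!
# Project WF, piece WF-F0I (helper408): irreducibility for `p`-rank 0
-/

set_option autoImplicit false

namespace Pool.Agent.R80.WF

open Polynomial IntermediateField

namespace F0Iaux

/-- the coefficient `a_(g-1)` -/
def aa (p g : ℕ) : ℤ := if g ≤ 5 then p else p ^ 2

theorem dvd_aa (p g : ℕ) : (p : ℤ) ∣ aa p g := by
  unfold aa
  split_ifs
  · exact dvd_rfl
  · exact dvd_pow_self _ (by norm_num)

theorem PP_eval (p g : ℕ) (hg : 3 ≤ g) (x y : ℂ) (hxy : x * y = p) :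
    aeval x (PP p g (af p g)) = x ^ g * (x ^ g + y ^ g + ((aa p g : ℤ) : ℂ) * (x + y) + p) := by
  obtain ⟨m, rfl⟩ : ∃ m, g = m + 3 := ⟨g - 3, by omega⟩
  unfold PP
  rw [Finset.sum_range_succ]
  have h0 : ∑ i ∈ Finset.range (m + 2), C (af p (m + 3) i) *
      (X ^ (2 * (m + 3) - i) + C ((p : ℤ) ^ (m + 3 - i)) * X ^ i) =
      X ^ (2 * (m + 3)) + C ((p : ℤ) ^ (m + 3)) := by
    rw [Finset.sum_eq_single 0]
    · simp [af]
    · intro b hb hb0
      have := Finset.mem_range.1 hb
      have : af p (m + 3) b = 0 := by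
        unfold af
        rw [if_neg hb0, if_neg (by omega), if_neg (by omega)]
      rw [this, C_0, zero_mul]
    · intro h
      exact absurd (Finset.mem_range.2 (by omega)) h
  have h1 : af p (m + 3) (m + 2) = aa p (m + 3) := by
    unfold af aa
    rw [if_neg (by omega), if_neg (by omega), if_pos (by omega)]
  have h2 : af p (m + 3) (m + 3) = p := by
    unfold af
    rw [if_neg (by omega), if_pos rfl]
  have e1 : 2 * (m + 3) - (m + 2) = m + 4 := by omega
  have e2 : m + 3 - (m + 2) = 1 := by omega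
  rw [h0, h1, h2, e1, e2, pow_one]
  simp only [map_add, map_mul, map_pow, aeval_X, eq_intCast, map_natCast,
    map_intCast]
  rw [← hxy]
  ring

theorem D_eval (a : ℤ) (x y : ℂ) (hxy : x * y = a) (n : ℕ) :
    aeval (x + y) (dickson 1 a n) = x ^ n + y ^ n := by
  induction n using Nat.twoStepInduction with
  | zero =>
    rw [dickson_zero]
    have : ((3 : ℤ[X]) - ((1 : ℕ) : ℤ[X])) = C 2 := by
      norm_num
    rw [this, aeval_C]
    norm_num
  | one => rw [dickson_one]; simp
  | more n h1 h2 =>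
    rw [dickson_add_two, map_sub, map_mul, map_mul, aeval_X, aeval_C, h1, h2]
    simp only [algebraMap_int_eq, eq_intCast]
    rw [← hxy]
    ring

theorem D_monic (a : ℤ) (n : ℕ) : (dickson 1 a (n + 1)).Monic ∧
    (dickson 1 a (n + 1)).natDegree = n + 1 ∧ (dickson 1 a n).natDegree ≤ n := by
  induction n with
  | zero =>
    rw [zero_add, dickson_one]
    refine ⟨monic_X, natDegree_X, ?_⟩
    rw [dickson_zero]
    have : ((3 : ℤ[X]) - ((1 : ℕ) : ℤ[X])) = C 2 := by
      norm_num
    rw [this, natDegree_C]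
  | succ n ih =>
    obtain ⟨h1, h2, h3⟩ := ih
    have h4 : (X * dickson 1 a (n + 1)).Monic := monic_X.mul h1
    have h5 : (X * dickson 1 a (n + 1)).natDegree = n + 2 := by
      rw [monic_X.natDegree_mul h1, natDegree_X, h2]
      ring
    have h6 : (C a * dickson 1 a n).natDegree < (X * dickson 1 a (n + 1)).natDegree := by
      rw [h5]
      exact lt_of_le_of_lt (natDegree_C_mul_le _ _) (by omega)
    have h7 : dickson 1 a (n + 1 + 1) = X * dickson 1 a (n + 1) - C a * dickson 1 a n :=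
      dickson_add_two 1 a n
    refine ⟨?_, ?_, h2.le⟩
    · rw [h7]
      refine h4.sub_of_left ?_
      exact degree_lt_degree h6
    · rw [h7, natDegree_sub_eq_left_of_natDegree_lt h6, h5]

theorem D_mod (p : ℕ) (n : ℕ) :
    (dickson 1 (p : ℤ) (n + 1)).map (Int.castRingHom (ZMod p)) = X ^ (n + 1) := by
  induction n with
  | zero => rw [zero_add, dickson_one]; simp
  | succ n ih =>
    have h7 : dickson 1 (p : ℤ) (n + 1 + 1) = X * dickson 1 (p : ℤ) (n + 1) -
      C (p : ℤ) * dickson 1 (p : ℤ) n := dickson_add_two 1 _ n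
    rw [h7, Polynomial.map_sub, Polynomial.map_mul, Polynomial.map_mul, map_X, map_C, ih]
    simp
    ring

theorem D_zero (a : ℤ) (n : ℕ) : a ^ 2 ∣ (dickson 1 a (n + 3)).coeff 0 := by
  have hrec : ∀ m : ℕ, (dickson 1 a (m + 2)).coeff 0 = -a * (dickson 1 a m).coeff 0 := by
    intro m
    rw [dickson_add_two, coeff_sub, coeff_C_mul, mul_comm X, coeff_mul_X_zero]
    ring
  rcases n with _ | n
  · rw [show 0 + 3 = 1 + 2 from rfl, hrec, dickson_one, coeff_X_zero, mul_zero]
    exact dvd_zero _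
  · rw [show n + 1 + 3 = n + 2 + 2 from rfl, hrec, hrec]
    exact ⟨(dickson 1 a n).coeff 0, by ring⟩

/-- the polynomial of `x + p / x` -/
noncomputable def H (p g : ℕ) : ℤ[X] := dickson 1 (p : ℤ) g + (C (aa p g) * X + C (p : ℤ))

theorem H_deg (p g : ℕ) (hg : 3 ≤ g) : (H p g).Monic ∧ (H p g).natDegree = g := by
  obtain ⟨m, rfl⟩ : ∃ m, g = m + 1 := ⟨g - 1, by omega⟩
  obtain ⟨h1, h2, -⟩ := D_monic (p : ℤ) m
  have h3 : (C (aa p (m + 1)) * X + C (p : ℤ)).natDegree < (dickson 1 (p : ℤ) (m + 1)).natDegree := by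
    rw [h2]
    refine lt_of_le_of_lt (natDegree_linear_le) (by omega)
  constructor
  · exact h1.add_of_left (degree_lt_degree h3)
  · unfold H
    rw [natDegree_add_eq_left_of_natDegree_lt h3, h2]

theorem H_irr (p g : ℕ) (hp : p.Prime) (hg : 3 ≤ g) : Irreducible (H p g) := by
  obtain ⟨hm, hd⟩ := H_deg p g hg
  obtain ⟨m, rfl⟩ : ∃ m, g = m + 3 := ⟨g - 3, by omega⟩
  have hpz : Prime (p : ℤ) := Nat.prime_iff_prime_int.1 hp
  have hE : (H p (m + 3)).IsEisensteinAt (Ideal.span {(p : ℤ)}) := by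
    refine ⟨?_, ?_, ?_⟩
    · rw [hm.leadingCoeff, Ideal.mem_span_singleton]
      intro h
      exact hpz.not_isUnit (isUnit_of_dvd_one h)
    · intro n hn
      rw [hd] at hn
      rw [Ideal.mem_span_singleton]
      unfold H
      rw [coeff_add, coeff_add, coeff_C_mul]
      have h1 : (p : ℤ) ∣ (dickson 1 (p : ℤ) (m + 3)).coeff n := by
        have h2 := congrArg (fun q => q.coeff n) (D_mod p (m + 2))
        simp only [coeff_map, coeff_X_pow] at h2
        rw [if_neg (by omega)] at h2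
        exact (ZMod.intCast_zmod_eq_zero_iff_dvd _ p).1 (by simpa using h2)
      refine dvd_add h1 (dvd_add (Dvd.dvd.mul_right (dvd_aa _ _) _) ?_)
      rw [coeff_C]
      split_ifs
      · exact dvd_rfl
      · exact dvd_zero _
    · rw [Ideal.span_singleton_pow, Ideal.mem_span_singleton]
      unfold H
      rw [coeff_add, coeff_add, coeff_C_mul, coeff_X_zero, mul_zero, zero_add, coeff_C_zero]
      intro h
      have h1 := (Int.dvd_iff_dvd_of_dvd_add h).1 (D_zero (p : ℤ) m)
      have h2 : (p : ℤ) * p ∣ p * 1 := by rw [mul_one, ← sq]; exact h1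
      exact hpz.not_isUnit (isUnit_of_dvd_one ((mul_dvd_mul_iff_left hpz.ne_zero).1 h2))
  have hprime : (Ideal.span {(p : ℤ)}).IsPrime := by
    rw [Ideal.span_singleton_prime hpz.ne_zero]
    exact hpz
  exact hE.irreducible hprime hm.isPrimitive (by omega)

/-- the real numbers as an intermediate field -/
noncomputable def RR : IntermediateField ℚ ℂ :=
  (Complex.ofRealHom.fieldRange).toIntermediateField fun q => ⟨(q : ℝ), by simp⟩

theorem mem_RR {s : ℂ} (h : s ∈ RR) : s.im = 0 := by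
  obtain ⟨r, rfl⟩ := h
  exact Complex.ofReal_im r

end F0Iaux

open F0Iaux in
theorem f0i (h : S_F0R) : S_F0I := by
  intro p g hp hg
  have ha0 : af p g 0 = 1 := by simp [af]
  have hPm : (PP p g (af p g)).Monic := monic_PP (by omega) ha0
  have hPd : (PP p g (af p g)).natDegree = 2 * g := natDegree_PP (by omega) ha0
  -- a root
  obtain ⟨x, hx⟩ : ∃ x : ℂ, aeval x (PP p g (af p g)) = 0 := by
    obtain ⟨x, hx⟩ := IsAlgClosed.exists_aeval_eq_zero_of_injective ℂ
      (RingHom.injective_int (algebraMap ℤ ℂ)) (PP p g (af p g)) (by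
        rw [degree_eq_natDegree hPm.ne_zero, hPd]
        exact_mod_cast (by omega : 2 * g ≠ 0))
    exact ⟨x, hx⟩
  obtain ⟨hnorm, him⟩ := h p g hp hg x hx
  have hx0 : x ≠ 0 := by
    rintro rfl
    simp at him
  obtain ⟨y, hy⟩ : ∃ y : ℂ, y = (starRingEnd ℂ) x := ⟨_, rfl⟩
  have hxy : x * y = p := by
    rw [hy, Complex.mul_conj, Complex.normSq_eq_norm_sq, hnorm, Real.sq_sqrt (Nat.cast_nonneg p)]
    simp
  -- `T = x + y` is a root of `H`
  have hT : aeval (x + y) (H p g) = 0 := by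
    rw [PP_eval p g hg x y hxy] at hx
    have h1 := (mul_eq_zero.1 hx).resolve_left (pow_ne_zero _ hx0)
    unfold H
    rw [map_add, map_add, map_mul, aeval_X, aeval_C, aeval_C,
      D_eval (p : ℤ) x y (by rw [hxy]; simp) g]
    simp only [algebraMap_int_eq, eq_intCast, Int.cast_natCast]
    rw [← h1]
    ring
  obtain ⟨hHm, hHd⟩ := H_deg p g hg
  have hHirr : Irreducible ((H p g).map (Int.castRingHom ℚ)) :=
    (Polynomial.IsPrimitive.Int.irreducible_iff_irreducible_map_cast hHm.isPrimitive).1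
      (H_irr p g hp hg)
  have hHm' : ((H p g).map (Int.castRingHom ℚ)).Monic := hHm.map _
  have hT' : aeval (x + y) ((H p g).map (Int.castRingHom ℚ)) = 0 := by
    rw [← hT]
    exact aeval_map_algebraMap ℚ (x + y) (H p g)
  have hminT : (H p g).map (Int.castRingHom ℚ) = minpoly ℚ (x + y) :=
    minpoly.eq_of_irreducible_of_monic hHirr hT' hHm'
  have hintT : IsIntegral ℚ (x + y) := ⟨_, hHm', by simpa [aeval_def] using hT'⟩
  have hfT : Module.finrank ℚ ℚ⟮x + y⟯ = g := by
    rw [IntermediateField.adjoin.finrank hintT, ← hminT, hHm.natDegree_map, hHd]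
  -- `x` is integral
  have hPm' : ((PP p g (af p g)).map (Int.castRingHom ℚ)).Monic := hPm.map _
  have hx' : aeval x ((PP p g (af p g)).map (Int.castRingHom ℚ)) = 0 := by
    rw [← hx]
    exact aeval_map_algebraMap ℚ x (PP p g (af p g))
  have hintx : IsIntegral ℚ x := ⟨_, hPm', by simpa [aeval_def] using hx'⟩
  have hxmem : x ∈ ℚ⟮x⟯ := IntermediateField.mem_adjoin_simple_self ℚ x
  have hyx : y = (p : ℂ) / x := by
    rw [eq_div_iff hx0, mul_comm, hxy]
  have hle : ℚ⟮x + y⟯ ≤ ℚ⟮x⟯ := by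
    rw [IntermediateField.adjoin_simple_le_iff]
    refine add_mem hxmem ?_
    rw [hyx]
    exact div_mem (IntermediateField.natCast_mem _ p) hxmem
  have hfd : FiniteDimensional ℚ ℚ⟮x⟯ := IntermediateField.adjoin.finiteDimensional hintx
  have hfdT : FiniteDimensional ℚ ℚ⟮x + y⟯ := IntermediateField.adjoin.finiteDimensional hintT
  have hreal : ℚ⟮x + y⟯ ≤ RR := by
    rw [IntermediateField.adjoin_simple_le_iff]
    exact ⟨2 * x.re, by
      rw [hy, Complex.add_conj]
      simp⟩
  have hxT : x ∉ ℚ⟮x + y⟯ := fun hmem => him (mem_RR (hreal hmem))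
  have hdvd : Module.finrank ℚ ℚ⟮x + y⟯ ∣ Module.finrank ℚ ℚ⟮x⟯ :=
    IntermediateField.finrank_dvd_of_le_right hle
  have hne : Module.finrank ℚ ℚ⟮x + y⟯ ≠ Module.finrank ℚ ℚ⟮x⟯ := by
    intro he
    have := IntermediateField.eq_of_le_of_finrank_eq hle he
    rw [this] at hxT
    exact hxT hxmem
  have hpos : 0 < Module.finrank ℚ ℚ⟮x⟯ := Module.finrank_pos
  have h2g : 2 * g ≤ (minpoly ℚ x).natDegree := by
    rw [← IntermediateField.adjoin.finrank hintx]
    rw [hfT] at hdvd hne
    obtain ⟨c, hc⟩ := hdvd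
    rw [hc] at hne hpos ⊢
    rcases c with _ | _ | c
    · omega
    · omega
    · nlinarith
  have hdvd2 : minpoly ℚ x ∣ (PP p g (af p g)).map (Int.castRingHom ℚ) := minpoly.dvd ℚ x hx'
  have heq : (PP p g (af p g)).map (Int.castRingHom ℚ) = minpoly ℚ x :=
    Polynomial.eq_of_monic_of_dvd_of_natDegree_le (minpoly.monic hintx) hPm' hdvd2 (by
      rw [hPm.natDegree_map, hPd]
      exact h2g)
  rw [heq]
  exact minpoly.irreducible hintx

end Pool.Agent.R80.WF
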