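import Pool.Agent.R80.WF.F0Defs

/-! # Two different roots have no common power (`p`-rank 0) -/

set_option autoImplicit false

namespace Pool.Agent.R80.WF

open Polynomial

section abs

variable {K : Type} [NormedField K]

theorem f0n_add_eq (hna : ∀ x y : K, ‖x + y‖ ≤ max ‖x‖ ‖y‖) {x y : K} (h : ‖y‖ < ‖x‖) :
    ‖x + y‖ = ‖x‖ := by
  refine le_antisymm ((hna x y).trans (max_le le_rfl h.le)) ?_
  have h1 := hna (x + y) (-y)
  rw [add_neg_cancel_right, norm_neg] at h1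
  rcases le_max_iff.1 h1 with h2 | h2
  · exact h2
  · exact absurd h2 (not_le.2 h)

theorem f0n_nat (hna : ∀ x y : K, ‖x + y‖ ≤ max ‖x‖ ‖y‖) (n : ℕ) : ‖(n : K)‖ ≤ 1 := by
  induction n with
  | zero => simp
  | succ n ih =>
    push_cast
    exact (hna _ _).trans (max_le ih (by simp))

theorem f0n_int (hna : ∀ x y : K, ‖x + y‖ ≤ max ‖x‖ ‖y‖) (n : ℤ) : ‖(n : K)‖ ≤ 1 := by
  rcases Int.natAbs_eq n with h | h
  · rw [h, Int.cast_natCast]
    exact f0n_nat hna _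
  · rw [h, Int.cast_neg, norm_neg, Int.cast_natCast]
    exact f0n_nat hna _

theorem f0n_coprime (hna : ∀ x y : K, ‖x + y‖ ≤ max ‖x‖ ‖y‖) {p l : ℕ} (hp : ‖(p : K)‖ < 1)
    (h : Nat.Coprime l p) : ‖(l : K)‖ = 1 := by
  refine le_antisymm (f0n_nat hna l) ?_
  by_contra hcon
  push Not at hcon
  have h1 : (1 : ℤ) = l * Nat.gcdA l p + p * Nat.gcdB l p := by
    have h2 := Nat.gcd_eq_gcd_ab l p
    rw [Nat.Coprime.gcd_eq_one h] at h2
    exact_mod_cast h2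
  have h3 : (1 : K) = (l : K) * (Nat.gcdA l p : ℤ) + (p : K) * (Nat.gcdB l p : ℤ) := by
    exact_mod_cast congrArg (fun t : ℤ => (t : K)) h1
  have h4 := hna ((l : K) * (Nat.gcdA l p : ℤ)) ((p : K) * (Nat.gcdB l p : ℤ))
  rw [← h3, norm_one, norm_mul, norm_mul] at h4
  rcases le_max_iff.1 h4 with h5 | h5
  · have h6 := mul_le_of_le_one_right (norm_nonneg (l : K)) (f0n_int hna (Nat.gcdA l p))
    linarith
  · have h6 := mul_le_of_le_one_right (norm_nonneg (p : K)) (f0n_int hna (Nat.gcdB l p))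
    linarith

theorem f0n_pow_sub (hna : ∀ x y : K, ‖x + y‖ ≤ max ‖x‖ ‖y‖) {z : K} (hz : ‖z‖ = 1) (i : ℕ) :
    ‖z ^ i - 1‖ ≤ ‖z - 1‖ := by
  induction i with
  | zero => simp
  | succ i ih =>
    have h1 : z ^ (i + 1) - 1 = (z ^ i - 1) + z ^ i * (z - 1) := by ring
    rw [h1]
    refine (hna _ _).trans (max_le ih ?_)
    rw [norm_mul, norm_pow, hz, one_pow, one_mul]

theorem f0n_norm_one {z : K} {n : ℕ} (hn : n ≠ 0) (hz : z ^ n = 1) : ‖z‖ = 1 := by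
  have h1 : ‖z‖ ^ n = 1 := by rw [← norm_pow, hz, norm_one]
  exact (pow_eq_one_iff_of_nonneg (norm_nonneg _) hn).1 h1

theorem f0n_prod (hna : ∀ x y : K, ‖x + y‖ ≤ max ‖x‖ ‖y‖) {z : K} {m : ℕ} (hm : 0 < m)
    (hz : IsPrimitiveRoot z m) :
    ‖z - 1‖ ^ (Nat.totient m) = ‖(cyclotomic m K).eval 1‖ := by
  classical
  have hz1 : ‖z‖ = 1 := f0n_norm_one hm.ne' hz.pow_eq_one
  rw [cyclotomic_eq_prod_X_sub_primitiveRoots hz, eval_prod, norm_prod,
    ← hz.card_primitiveRoots, ← Finset.prod_const]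
  refine Finset.prod_congr rfl fun μ hμ => ?_
  have hμ' := (mem_primitiveRoots hm).1 hμ
  have hμ1 : ‖μ‖ = 1 := f0n_norm_one hm.ne' hμ'.pow_eq_one
  have : NeZero m := ⟨hm.ne'⟩
  rw [eval_sub, eval_X, eval_C, norm_sub_rev 1 μ]
  obtain ⟨i, -, hi⟩ := hz.eq_pow_of_pow_eq_one hμ'.pow_eq_one
  obtain ⟨j, -, hj⟩ := hμ'.eq_pow_of_pow_eq_one hz.pow_eq_one
  refine le_antisymm ?_ ?_
  · rw [← hj]
    exact f0n_pow_sub hna hμ1 j
  · rw [← hi]
    exact f0n_pow_sub hna hz1 i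

/-- the distance of a root of unity to `1` -/
theorem f0n_ru (hna : ∀ x y : K, ‖x + y‖ ≤ max ‖x‖ ‖y‖) {p : ℕ} (hp : p.Prime)
    (hq : ‖(p : K)‖ < 1) {z : K} {n : ℕ} (hn : 1 ≤ n) (hz : z ^ n = 1) (hz1 : z ≠ 1) :
    (∃ k, IsPrimitiveRoot z (p ^ (k + 1)) ∧ ‖z - 1‖ ^ (p ^ k * (p - 1)) = ‖(p : K)‖) ∨
      (‖z - 1‖ = 1 ∧ ∀ k, z ^ (p ^ k) ≠ 1) := by
  have hprim : IsPrimitiveRoot z (orderOf z) := IsPrimitiveRoot.orderOf z
  have hm0 : 0 < orderOf z := orderOf_pos_iff.2 (isOfFinOrder_iff_pow_eq_one.2 ⟨n, hn, hz⟩)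
  have hm1 : orderOf z ≠ 1 := fun h => hz1 (orderOf_eq_one_iff.1 h)
  have hprod := f0n_prod hna hm0 hprim
  by_cases h1 : ∃ k, orderOf z = p ^ (k + 1)
  · left
    obtain ⟨k, hk⟩ := h1
    refine ⟨k, hk ▸ hprim, ?_⟩
    have : Fact p.Prime := ⟨hp⟩
    rw [hk, Nat.totient_prime_pow_succ hp, eval_one_cyclotomic_prime_pow] at hprod
    exact hprod
  · right
    have hne : ∀ k, z ^ (p ^ k) ≠ 1 := by
      intro k hk
      obtain ⟨j, hj, hmj⟩ := (Nat.dvd_prime_pow hp).1 (orderOf_dvd_of_pow_eq_one hk)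
      cases j with
      | zero => exact hm1 (by rw [hmj, pow_zero])
      | succ j => exact h1 ⟨j, hmj⟩
    refine ⟨?_, hne⟩
    have hpow : ‖z - 1‖ ^ (Nat.totient (orderOf z)) = 1 := by
      rw [hprod]
      by_cases h2 : ∃ l k, Nat.Prime l ∧ l ^ k = orderOf z
      · obtain ⟨l, k, hl, hlk⟩ := h2
        cases k with
        | zero => exact absurd (by rw [← hlk, pow_zero]) hm1
        | succ k =>
          have : Fact l.Prime := ⟨hl⟩
          rw [← hlk, eval_one_cyclotomic_prime_pow]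
          refine f0n_coprime hna hq ?_
          rw [Nat.coprime_primes hl hp]
          rintro rfl
          exact h1 ⟨k, hlk.symm⟩
      · push Not at h2
        rw [eval_one_cyclotomic_not_prime_pow (fun {l} hl k => h2 l k hl), norm_one]
    exact (pow_eq_one_iff_of_nonneg (norm_nonneg _) (Nat.totient_pos.2 hm0).ne').1 hpow

theorem f0n_sub_le (hna : ∀ x y : K, ‖x + y‖ ≤ max ‖x‖ ‖y‖) {z : K} (hz : ‖z‖ = 1) :
    ‖z - 1‖ ≤ 1 := by
  rw [sub_eq_add_neg]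
  refine (hna _ _).trans (max_le hz.le ?_)
  rw [norm_neg, norm_one]

theorem f0n_low (hna : ∀ x y : K, ‖x + y‖ ≤ max ‖x‖ ‖y‖) {p : ℕ} (hp : p.Prime)
    (hq : ‖(p : K)‖ < 1) {z : K} {n : ℕ} (hn : 1 ≤ n) (hz : z ^ n = 1) (hz1 : z ≠ 1) :
    ‖(p : K)‖ ≤ ‖z - 1‖ := by
  rcases f0n_ru hna hp hq hn hz hz1 with ⟨k, -, hk⟩ | ⟨h, -⟩
  · rw [← hk]
    have h1 : p ^ k * (p - 1) ≠ 0 := by
      have h2 := hp.two_le
      have h3 : 0 < p ^ k := pow_pos hp.pos k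
      have h4 : 0 < p - 1 := by omega
      exact (Nat.mul_pos h3 h4).ne'
    exact pow_le_of_le_one (norm_nonneg _) (f0n_sub_le hna (f0n_norm_one (by omega) hz)) h1
  · rw [h]
    exact hq.le

/-- the valuations of the roots -/
theorem f0n_val (hna : ∀ x y : K, ‖x + y‖ ≤ max ‖x‖ ‖y‖) {p g : ℕ} {a x x' : K} (hg : 3 ≤ g)
    (hp0 : (p : K) ≠ 0) (hq : ‖(p : K)‖ < 1) (ha : ‖a‖ ≤ ‖(p : K)‖) (hxx : x * x' = p)
    (h1 : x ^ g + x' ^ g + a * (x + x') + p = 0) (hle : ‖x'‖ ≤ ‖x‖) :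
    ‖x‖ ^ g = ‖(p : K)‖ ∧ ‖x'‖ < ‖x‖ ∧ ‖x‖ < 1 ∧ ‖x'‖ ^ g < ‖(p : K)‖ := by
  have hq0 : 0 < ‖(p : K)‖ := norm_pos_iff.2 hp0
  have hXX : ‖x‖ * ‖x'‖ = ‖(p : K)‖ := by rw [← norm_mul, hxx]
  have hX0 : 0 < ‖x‖ := by
    rcases (norm_nonneg x).eq_or_lt with h | h
    · rw [← h, zero_mul] at hXX
      exact absurd hXX hq0.ne
    · exact h
  have hX'0 : 0 < ‖x'‖ := by
    rcases (norm_nonneg x').eq_or_lt with h | h
    · rw [← h, mul_zero] at hXX
      exact absurd hXX hq0.ne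
    · exact h
  have hax : ‖a * (x + x')‖ ≤ ‖(p : K)‖ * ‖x‖ := by
    rw [norm_mul]
    exact mul_le_mul ha ((hna _ _).trans (max_le le_rfl hle)) (norm_nonneg _) hq0.le
  have hg0 : g ≠ 0 := by omega
  -- `‖x‖ < 1`
  have hX1 : ‖x‖ < 1 := by
    by_contra hcon
    push Not at hcon
    have h2 : ‖x‖ ≤ ‖x‖ ^ g := le_self_pow₀ hcon hg0
    have h3 : ‖x'‖ < 1 := by
      have : ‖x'‖ ≤ ‖x‖ * ‖x'‖ := le_mul_of_one_le_left hX'0.le hcon
      linarith
    have h4 : ‖x'‖ ^ g < 1 := pow_lt_one₀ hX'0.le h3 hg0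
    have h5 : x ^ g = -(x' ^ g + a * (x + x') + p) := by linear_combination h1
    have h6 : ‖x ^ g‖ < ‖x‖ ^ g := by
      rw [h5, norm_neg]
      refine (hna _ _).trans_lt (max_lt ((hna _ _).trans_lt (max_lt ?_ ?_)) ?_)
      · rw [norm_pow]
        linarith
      · nlinarith
      · linarith
    rw [norm_pow] at h6
    exact lt_irrefl _ h6
  have hqX : ‖(p : K)‖ * ‖x‖ < ‖(p : K)‖ := mul_lt_of_lt_one_right hq0 hX1
  -- powers
  have hpow : ∀ t : ℝ, 0 ≤ t → t ≤ 1 → t ^ g ≤ t ^ 3 := fun t h2 h3 =>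
    pow_le_pow_of_le_one h2 h3 hg
  have hlt : ‖x'‖ < ‖x‖ := by
    refine lt_of_le_of_ne hle fun heq => ?_
    have h2 : ‖x‖ ^ g < ‖(p : K)‖ := by
      refine (hpow _ hX0.le hX1.le).trans_lt ?_
      have h3 : ‖x‖ ^ 3 = ‖(p : K)‖ * ‖x‖ := by
        rw [← hXX, heq]
        ring
      rw [h3]
      exact hqX
    have h5 : (p : K) = -(x ^ g + x' ^ g + a * (x + x')) := by linear_combination h1
    have h6 : ‖(p : K)‖ < ‖(p : K)‖ := by
      nth_rewrite 1 [h5]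
      rw [norm_neg]
      refine (hna _ _).trans_lt (max_lt ((hna _ _).trans_lt (max_lt ?_ ?_)) ?_)
      · rw [norm_pow]
        exact h2
      · rw [norm_pow, heq]
        exact h2
      · exact hax.trans_lt hqX
    exact lt_irrefl _ h6
  have hX'g : ‖x'‖ ^ g < ‖(p : K)‖ := by
    refine (hpow _ hX'0.le (hlt.le.trans hX1.le)).trans_lt ?_
    have h3 : ‖x'‖ ^ 2 < ‖(p : K)‖ := by
      rw [← hXX]
      nlinarith
    have h4 : ‖x'‖ < 1 := hlt.trans hX1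
    nlinarith
  refine ⟨?_, hlt, hX1, hX'g⟩
  have h5 : x ^ g = -(p + (x' ^ g + a * (x + x'))) := by linear_combination h1
  rw [← norm_pow, h5, norm_neg]
  refine f0n_add_eq hna ((hna _ _).trans_lt (max_lt ?_ ?_))
  · rw [norm_pow]
    exact hX'g
  · exact hax.trans_lt hqX

/-- arithmetic -/
theorem f0n_arith {p g j : ℕ} (hp : p.Prime) (hg : 3 ≤ g) (hg5 : g ≤ 5)
    (h : p ^ j * (p - 1) = g) : (p = 2 ∧ g = 4) ∨ (p = 5 ∧ g = 4) := by
  have h2 := hp.two_le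
  have hd : p - 1 ∣ g := ⟨p ^ j, by rw [← h, mul_comm]⟩
  have hle : p - 1 ≤ g := Nat.le_of_dvd (by omega) hd
  have hj1 : p ^ j ≤ g := Nat.le_of_dvd (by omega) ⟨p - 1, h.symm⟩
  have hj2 : j < p ^ j := Nat.lt_pow_self (by omega)
  have hj : j < 5 := by omega
  have hp6 : p ≤ 6 := by omega
  interval_cases p <;> interval_cases j <;> interval_cases g <;> simp_all (config := {decide := true})

theorem f0n_key (hna : ∀ x y : K, ‖x + y‖ ≤ max ‖x‖ ‖y‖) {p g : ℕ} (hp : p.Prime) (hg : 3 ≤ g)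
    (h33 : ¬ (p = 3 ∧ g = 3)) (h54 : ¬ (p = 5 ∧ g = 4)) (h55 : ¬ (p = 5 ∧ g = 5))
    (hp0 : (p : K) ≠ 0) (hq : ‖(p : K)‖ < 1) {a x x' z : K}
    (ha : a = if g ≤ 5 then (p : K) else (p : K) ^ 2) {n : ℕ} (hn : 1 ≤ n) (hz : z ^ n = 1)
    (hxx : x * x' = p) (h1 : x ^ g + x' ^ g + a * (x + x') + p = 0)
    (h2 : (z * x) ^ g + (z⁻¹ * x') ^ g + a * (z * x + z⁻¹ * x') + p = 0)
    (hle : ‖x'‖ ≤ ‖x‖) : z = 1 := by
  by_contra hz1
  have hzn : ‖z‖ = 1 := f0n_norm_one (by omega) hz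
  have hz0 : z ≠ 0 := by
    rintro rfl
    rw [norm_zero] at hzn
    exact zero_ne_one hzn
  have hq0 : 0 < ‖(p : K)‖ := norm_pos_iff.2 hp0
  have haq : ‖a‖ ≤ ‖(p : K)‖ := by
    rw [ha]
    split_ifs
    · exact le_rfl
    · rw [norm_pow]
      nlinarith
  obtain ⟨hX, hlt, hX1, hX'g⟩ := f0n_val hna hg hp0 hq haq hxx h1 hle
  have hX0 : 0 < ‖x‖ := (norm_nonneg _).trans_lt hlt
  have hd0 : 0 < ‖z - 1‖ := norm_pos_iff.2 (sub_ne_zero.2 hz1)
  have hd1 : ‖z - 1‖ ≤ 1 := f0n_sub_le hna hzn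
  have hid : (z ^ g - 1) * (x ^ g + -(z⁻¹ ^ g * x' ^ g)) = -(a * (z - 1) * (x + -(z⁻¹ * x'))) := by
    have h3 : z * z⁻¹ = 1 := mul_inv_cancel₀ hz0
    have h4 : z ^ g * z⁻¹ ^ g = 1 := by rw [← mul_pow, h3, one_pow]
    rw [mul_pow, mul_pow] at h2
    linear_combination h2 - h1 - x' ^ g * h4 - a * x' * h3
  have hn1 : ‖x ^ g + -(z⁻¹ ^ g * x' ^ g)‖ = ‖(p : K)‖ := by
    rw [f0n_add_eq hna, norm_pow, hX]
    rw [norm_neg, norm_mul, norm_pow, norm_inv, hzn, inv_one, one_pow, one_mul, norm_pow, norm_pow,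
      hX]
    exact hX'g
  have hn2 : ‖x + -(z⁻¹ * x')‖ = ‖x‖ := by
    refine f0n_add_eq hna ?_
    rw [norm_neg, norm_mul, norm_inv, hzn, inv_one, one_mul]
    exact hlt
  have heq : ‖z ^ g - 1‖ * ‖(p : K)‖ = ‖a‖ * ‖z - 1‖ * ‖x‖ := by
    have h3 := congrArg norm hid
    rw [norm_mul, norm_neg, norm_mul, norm_mul, hn1, hn2] at h3
    exact h3
  have ha0 : 0 < ‖a‖ := by
    rw [ha]
    split_ifs
    · exact hq0
    · rw [norm_pow]
      positivity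
  have hzg : z ^ g ≠ 1 := by
    intro h3
    rw [h3, sub_self, norm_zero, zero_mul] at heq
    have h4 : 0 < ‖a‖ * ‖z - 1‖ * ‖x‖ := by positivity
    linarith
  have hzgn : (z ^ g) ^ n = 1 := by rw [← pow_mul, mul_comm, pow_mul, hz, one_pow]
  rcases le_or_gt g 5 with hg5 | hg6
  swap
  · -- `g ≥ 6`
    rw [ha, if_neg (by omega), norm_pow] at heq
    have h3 := f0n_low hna hp hq hn hzgn hzg
    have h4 : ‖z ^ g - 1‖ = ‖(p : K)‖ * (‖z - 1‖ * ‖x‖) := by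
      have h5 : ‖z ^ g - 1‖ * ‖(p : K)‖ = (‖(p : K)‖ * (‖z - 1‖ * ‖x‖)) * ‖(p : K)‖ := by
        rw [heq]
        ring
      exact mul_right_cancel₀ hq0.ne' h5
    have h5 : ‖z - 1‖ * ‖x‖ < 1 := by nlinarith
    have h6 : ‖(p : K)‖ * (‖z - 1‖ * ‖x‖) < ‖(p : K)‖ := mul_lt_of_lt_one_right hq0 h5
    linarith
  rw [ha, if_pos hg5] at heq
  have hs : ‖z ^ g - 1‖ = ‖z - 1‖ * ‖x‖ := by
    have h5 : ‖z ^ g - 1‖ * ‖(p : K)‖ = (‖z - 1‖ * ‖x‖) * ‖(p : K)‖ := by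
      rw [heq]
      ring
    exact mul_right_cancel₀ hq0.ne' h5
  have hslt : ‖z ^ g - 1‖ < ‖z - 1‖ := by
    rw [hs]
    exact mul_lt_of_lt_one_right hd0 hX1
  rcases f0n_ru hna hp hq hn hzgn hzg with ⟨j, hj1, hj2⟩ | ⟨h3, -⟩
  swap
  · linarith
  rcases f0n_ru hna hp hq hn hz hz1 with ⟨k, hk1, hk2⟩ | ⟨h3, h4⟩
  swap
  · -- the order of `z` is not a power of `p`
    rw [hs, h3, one_mul, ← hX] at hj2
    have h5 := pow_right_injective₀ hX0 hX1.ne hj2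
    rcases f0n_arith hp hg hg5 h5 with ⟨rfl, rfl⟩ | h6
    · apply h4 (j + 3)
      have h6 := hj1.pow_eq_one
      rw [← pow_mul] at h6
      rw [← h6]
      congr 1
      ring
    · exact h54 h6
  -- the order of `z` is a power of `p`
  by_cases hpg : p ∣ g
  swap
  · have hcop : Nat.Coprime g (p ^ (k + 1)) :=
      ((Nat.Prime.coprime_iff_not_dvd hp).2 hpg).symm.pow_right _
    have h5 : IsPrimitiveRoot (z ^ g) (p ^ (k + 1)) := hk1.pow_of_coprime g hcop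
    have : NeZero (p ^ (k + 1)) := ⟨(pow_pos hp.pos _).ne'⟩
    obtain ⟨i, -, hi⟩ := h5.eq_pow_of_pow_eq_one hk1.pow_eq_one
    have h6 := f0n_pow_sub hna (z := z ^ g) (by rw [norm_pow, hzn, one_pow]) i
    rw [hi] at h6
    linarith
  have hp24 : p = 2 ∧ g = 4 := by
    have h5 := Nat.le_of_dvd (by omega) hpg
    have h6 := hp.two_le
    interval_cases g <;> interval_cases p <;> first | omega | (exfalso; revert hp; decide)
  obtain ⟨rfl, rfl⟩ := hp24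
  have hk3 : 2 ≤ k := by
    by_contra hcon
    apply hzg
    have h5 : (2 : ℕ) ^ (k + 1) ∣ 4 := by
      have h6 : k + 1 ≤ 2 := by omega
      exact (pow_dvd_pow 2 h6).trans (by norm_num)
    exact (hk1.pow_eq_one_iff_dvd 4).2 h5
  have h5 : IsPrimitiveRoot (z ^ 4) (2 ^ (k - 1)) := by
    refine hk1.pow (pow_pos (by norm_num) _) ?_
    have h6 : k + 1 = (k - 1) + 2 := by omega
    rw [h6, pow_add]
    ring
  have h6 : j + 1 = k - 1 := Nat.pow_right_injective le_rfl (hj1.unique h5)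
  have h7 : k = j + 2 := by omega
  subst h7
  have h8 : ‖z ^ 4 - 1‖ = ‖z - 1‖ ^ 4 := by
    have h9 : ‖z ^ 4 - 1‖ ^ (2 ^ j) = (‖z - 1‖ ^ 4) ^ (2 ^ j) := by
      rw [← pow_mul]
      rw [show 4 * 2 ^ j = 2 ^ (j + 2) * (2 - 1) by rw [pow_add]; ring, hk2]
      rw [show (2 : ℕ) ^ j = 2 ^ j * (2 - 1) by ring]
      exact hj2
    exact (pow_left_inj₀ (norm_nonneg _) (by positivity) (by positivity)).1 h9
  have h9 : ‖x‖ = ‖z - 1‖ ^ 3 := by
    rw [hs] at h8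
    have h10 : ‖z - 1‖ * ‖x‖ = ‖z - 1‖ * ‖z - 1‖ ^ 3 := by
      rw [h8]
      ring
    exact mul_left_cancel₀ hd0.ne' h10
  have h10 : ‖z - 1‖ ^ 12 = ‖z - 1‖ ^ (2 ^ (j + 2) * (2 - 1)) := by
    rw [hk2, ← hX, h9]
    ring
  have hdlt : ‖z - 1‖ ≠ 1 := by
    intro h11
    rw [h11, one_pow] at h9
    linarith
  have h11 := pow_right_injective₀ hd0 hdlt h10
  have h12 : 2 ^ (j + 2) = 12 := by
    beta_reduce at h11
    omega
  have h13 : 2 ^ j = 3 := by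
    rw [pow_add] at h12
    omega
  cases j with
  | zero => norm_num at h13
  | succ j =>
    rw [pow_succ] at h13
    omega

/-- the equation -/
theorem f0n_eq {p g : ℕ} (hg : 3 ≤ g) {x x' : K} (hxx : x * x' = p) (hx0 : x ≠ 0)
    (h : aeval x (PP p g (af p g)) = 0) :
    x ^ g + x' ^ g + (if g ≤ 5 then (p : K) else (p : K) ^ 2) * (x + x') + p = 0 := by
  obtain ⟨m, rfl⟩ : ∃ m, g = m + 2 := ⟨g - 2, by omega⟩
  unfold PP at h
  rw [Finset.sum_range_succ, Finset.sum_range_succ', Finset.sum_eq_zero, zero_add] at h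
  · have e0 : af p (m + 2) 0 = 1 := by simp [af]
    have e1 : af p (m + 2) (m + 1) = if m + 2 ≤ 5 then (p : ℤ) else (p : ℤ) ^ 2 := by
      unfold af
      rw [if_neg (by omega), if_neg (by omega), if_pos rfl]
    have e2 : af p (m + 2) (m + 2) = p := by
      unfold af
      rw [if_neg (by omega), if_pos rfl]
    rw [e0, e1, e2] at h
    simp only [map_add, map_mul, map_pow, aeval_X, map_intCast, map_natCast, eq_intCast,
      Int.cast_one, one_mul] at h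
    have e3 : (((if m + 2 ≤ 5 then (p : ℤ) else (p : ℤ) ^ 2 : ℤ)) : K) =
        if m + 2 ≤ 5 then (p : K) else (p : K) ^ 2 := by
      split_ifs <;> push_cast <;> rfl
    rw [e3, show 2 * (m + 2) - (m + 1) = m + 3 by omega, show m + 2 - (m + 1) = 1 by omega,
      Nat.sub_zero] at h
    refine mul_left_cancel₀ (pow_ne_zero (m + 2) hx0) ?_
    rw [mul_zero, ← h]
    have e4 : (p : K) ^ (m + 2) = x ^ (m + 2) * x' ^ (m + 2) := by rw [← hxx, mul_pow]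
    rw [Nat.sub_zero, e4, pow_zero]
    linear_combination ((if m + 2 ≤ 5 then (p : K) else (p : K) ^ 2) * x ^ (m + 1)) * hxx
  · intro i hi
    have h2 := Finset.mem_range.1 hi
    have e0 : af p (m + 2) (i + 1) = 0 := by
      unfold af
      rw [if_neg (by omega), if_neg (by omega), if_neg (by omega)]
    rw [e0, C_0, zero_mul]

theorem f0n_field [CharZero K] (hna : ∀ x y : K, ‖x + y‖ ≤ max ‖x‖ ‖y‖) {p g : ℕ} (hp : p.Prime)
    (hg : 3 ≤ g) (h33 : ¬ (p = 3 ∧ g = 3)) (h54 : ¬ (p = 5 ∧ g = 4)) (h55 : ¬ (p = 5 ∧ g = 5))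
    (hq : ‖(p : K)‖ < 1) (x y : K) (hx : aeval x (PP p g (af p g)) = 0)
    (hy : aeval y (PP p g (af p g)) = 0) (n : ℕ) (hn : 1 ≤ n) (hxy : x ^ n = y ^ n) : x = y := by
  have hp0 : (p : K) ≠ 0 := Nat.cast_ne_zero.2 hp.ne_zero
  have hne : ∀ x : K, aeval x (PP p g (af p g)) = 0 → x ≠ 0 := by
    rintro x hx rfl
    rw [aeval_def, eval₂_at_zero, coeff_PP, if_pos (by omega)] at hx
    have e0 : af p g 0 = 1 := by simp [af]
    rw [e0, mul_one, Nat.sub_zero, map_pow] at hx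
    have h2 := pow_eq_zero_iff (by omega : g ≠ 0) |>.1 hx
    apply hp0
    simpa using h2
  have hx0 := hne x hx
  have hy0 := hne y hy
  have hxx : x * (p / x) = p := mul_div_cancel₀ _ hx0
  have hyy : y * (p / y) = p := mul_div_cancel₀ _ hy0
  have h1 := f0n_eq hg hxx hx0 hx
  have h2 := f0n_eq hg hyy hy0 hy
  have hz : (y / x) ^ n = 1 := by
    rw [div_pow, ← hxy, div_self (pow_ne_zero _ hx0)]
  have e1 : y = (y / x) * x := by rw [div_mul_cancel₀ _ hx0]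
  have e2 : (p : K) / y = (y / x)⁻¹ * (p / x) := by
    field_simp
  have hfin : y / x = 1 := by
    rcases le_total ‖(p : K) / x‖ ‖x‖ with hle | hle
    · refine f0n_key hna hp hg h33 h54 h55 hp0 hq rfl hn hz hxx h1 ?_ hle
      rw [← e1, ← e2]
      exact h2
    · have hz' : ((y / x)⁻¹) ^ n = 1 := by rw [inv_pow, hz, inv_one]
      have h3 : (y / x)⁻¹ = 1 := by
        refine f0n_key hna hp hg h33 h54 h55 hp0 hq rfl hn hz' (x := (p : K) / x) (x' := x)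
          (by rw [mul_comm]; exact hxx) ?_ ?_ hle
        · rw [← h1]
          ring
        · rw [inv_inv, ← e1, ← e2, ← h2]
          ring
      rw [← inv_inv (y / x), h3, inv_one]
  rw [div_eq_one_iff_eq hx0] at hfin
  exact hfin.symm

end abs

/-- transfer to the complex numbers -/
theorem f0n_transfer {K : Type} [Field K] [Algebra ℚ K] [IsAlgClosed K] {P : ℤ[X]} (hm : P.Monic)
    (h : ∀ x y : K, aeval x P = 0 → aeval y P = 0 → ∀ n : ℕ, 1 ≤ n → x ^ n = y ^ n → x = y)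
    {x y : ℂ} (hx : aeval x P = 0) (hy : aeval y P = 0) {n : ℕ} (hn : 1 ≤ n)
    (hxy : x ^ n = y ^ n) : x = y := by
  have hxz : IsIntegral ℤ x := ⟨P, hm, hx⟩
  have hyz : IsIntegral ℤ y := ⟨P, hm, hy⟩
  have hxi : IsIntegral ℚ x := hxz.tower_top
  have hyi : IsIntegral ℚ y := hyz.tower_top
  set L := algebraicClosure ℚ ℂ with hL
  have hLalg : Algebra.IsAlgebraic ℚ L := algebraicClosure.isAlgebraic ℚ ℂ
  have hxL : x ∈ L := mem_algebraicClosure_iff'.2 hxi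
  have hyL : y ∈ L := mem_algebraicClosure_iff'.2 hyi
  have φ : L →ₐ[ℚ] K := IsAlgClosed.lift
  have hφ : ∀ z : L, aeval (z : ℂ) P = 0 → aeval (φ z) P = 0 := by
    intro z hz
    have h1 : aeval z P = 0 := by
      apply (algebraMap L ℂ).injective
      rw [map_zero, ← aeval_algebraMap_apply]
      exact hz
    rw [aeval_def] at h1 ⊢
    have h2 := hom_eval₂ P (algebraMap ℤ L) (φ : L →+* K) z
    have e : (φ : L →+* K).comp (algebraMap ℤ L) = algebraMap ℤ K := RingHom.ext_int _ _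
    rw [e, h1, map_zero] at h2
    exact h2.symm
  have h1 := h (φ ⟨x, hxL⟩) (φ ⟨y, hyL⟩) (hφ _ hx) (hφ _ hy) n hn (by
    rw [← map_pow, ← map_pow]
    congr 1
    apply Subtype.ext
    push_cast
    exact hxy)
  have h2 := φ.injective h1
  exact congrArg Subtype.val h2

theorem f0n : S_F0N := by
  intro p g hp hg h33 h54 h55 x y hx hy n hn hxy
  have : Fact p.Prime := ⟨hp⟩
  have hq : ‖((p : ℕ) : PadicAlgCl p)‖ < 1 := by
    have h1 := PadicAlgCl.valuation_p p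
    have h2 := congrArg (fun t : NNReal => (t : ℝ)) h1
    beta_reduce at h2
    rw [PadicAlgCl.valuation_coe] at h2
    rw [h2]
    push_cast
    rw [div_lt_one (by exact_mod_cast hp.pos)]
    exact_mod_cast hp.one_lt
  have hm : (PP p g (af p g)).Monic := monic_PP (by omega) (by simp [af])
  exact f0n_transfer (K := PadicAlgCl p) hm
    (f0n_field (K := PadicAlgCl p) (PadicAlgCl.isNonarchimedean p) hp hg h33 h54 h55 hq) hx hy hn hxy

end Pool.Agent.R80.WF
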