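import Pool.Agent.R80.WF.F0Defs

set_option autoImplicit false

namespace Pool.Agent.R80.WF

open Polynomial

namespace F0R

/-- the coefficient `a_(g-1)` -/
def aa (p g : ℕ) : ℤ := if g ≤ 5 then p else p ^ 2

lemma af_zero {p g : ℕ} : af p g 0 = 1 := by simp [af]

lemma af_g {p g : ℕ} (hg : 3 ≤ g) : af p g g = p := by
  unfold af
  rw [if_neg (by omega), if_pos rfl]

lemma af_pred {p g : ℕ} (hg : 3 ≤ g) : af p g (g - 1) = aa p g := by
  unfold af aa
  rw [if_neg (by omega), if_neg (by omega), if_pos (by omega)]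

lemma af_other {p g i : ℕ} (h0 : i ≠ 0) (h1 : i < g) (h2 : i ≠ g - 1) : af p g i = 0 := by
  unfold af
  rw [if_neg h0, if_neg (by omega), if_neg (by omega)]

lemma aeval_PP {p g : ℕ} (hg : 3 ≤ g) (x : ℂ) : aeval x (PP p g (af p g)) =
    x ^ (2 * g) + (p : ℂ) ^ g + (aa p g : ℂ) * (x ^ (g + 1) + p * x ^ (g - 1)) + p * x ^ g := by
  unfold PP
  rw [map_add, map_sum, Finset.sum_eq_add 0 (g - 1) (by omega)]
  · rw [af_zero, af_pred hg, af_g hg]
    have h1 : 2 * g - (g - 1) = g + 1 := by omega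
    have h2 : g - (g - 1) = 1 := by omega
    rw [h1, h2]
    simp
  · intro c hc hne
    rw [af_other hne.1 (Finset.mem_range.1 hc) hne.2]
    simp
  · intro h
    exact absurd (Finset.mem_range.2 (by omega)) h
  · intro h
    exact absurd (Finset.mem_range.2 (by omega)) h

/-- the key inequality -/
lemma key {p g : ℕ} (hp : 2 ≤ p) (hg : 4 ≤ g) :
    (aa p g : ℝ) * (Real.sqrt p)⁻¹ ^ (g - 1) + (p : ℝ) / 2 * (Real.sqrt p)⁻¹ ^ g < 1 := by
  have hp' : (2 : ℝ) ≤ p := by exact_mod_cast hp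
  set s : ℝ := Real.sqrt p with hs
  have hss : s ^ 2 = p := Real.sq_sqrt (by positivity)
  have hs1 : (1.414 : ℝ) ≤ s := by
    rw [hs]
    apply Real.le_sqrt_of_sq_le
    norm_num
    linarith
  have hs0 : 0 < s := by linarith
  set t : ℝ := s⁻¹ with ht
  have ht0 : 0 < t := inv_pos.2 hs0
  have hst : s * t = 1 := mul_inv_cancel₀ hs0.ne'
  have ht1 : t ≤ 1 / 1.414 := by
    rw [ht, ← one_div]
    exact one_div_le_one_div_of_le (by norm_num) hs1
  have ht1' : t ≤ 1 := by
    have : (1 : ℝ) / 1.414 ≤ 1 := by norm_num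
    linarith
  have hpt : (p : ℝ) * t ^ 2 = 1 := by
    rw [← hss, ← mul_pow, hst, one_pow]
  have ht2 : t ^ 2 ≤ 1 / 2 := by nlinarith [sq_nonneg t]
  -- first term
  have h1 : (aa p g : ℝ) * t ^ (g - 1) ≤ t := by
    unfold aa
    split_ifs with h5
    · push_cast
      have e : g - 1 = 2 + 1 + (g - 4) := by omega
      rw [e, pow_add, pow_add, pow_one]
      have h2 : t ^ (g - 4) ≤ 1 := pow_le_one₀ ht0.le ht1'
      calc (p : ℝ) * (t ^ 2 * t * t ^ (g - 4)) = (p * t ^ 2) * t * t ^ (g - 4) := by ring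
        _ = t * t ^ (g - 4) := by rw [hpt, one_mul]
        _ ≤ t * 1 := mul_le_mul_of_nonneg_left h2 ht0.le
        _ = t := mul_one t
    · push_cast
      have e : g - 1 = 2 + 2 + 1 + (g - 6) := by omega
      rw [e, pow_add, pow_add, pow_add, pow_one]
      have h2 : t ^ (g - 6) ≤ 1 := pow_le_one₀ ht0.le ht1'
      calc (p : ℝ) ^ 2 * (t ^ 2 * t ^ 2 * t * t ^ (g - 6)) =
          (p * t ^ 2) * (p * t ^ 2) * t * t ^ (g - 6) := by ring
        _ = t * t ^ (g - 6) := by rw [hpt]; ring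
        _ ≤ t * 1 := mul_le_mul_of_nonneg_left h2 ht0.le
        _ = t := mul_one t
  -- second term
  have h3 : (p : ℝ) / 2 * t ^ g ≤ 1 / 4 := by
    have e : g = 2 + 2 + (g - 4) := by omega
    rw [e, pow_add, pow_add]
    have h2 : t ^ (g - 4) ≤ 1 := pow_le_one₀ ht0.le ht1'
    have h4 : 0 ≤ t ^ (g - 4) := by positivity
    calc (p : ℝ) / 2 * (t ^ 2 * t ^ 2 * t ^ (g - 4)) = (p * t ^ 2) * (t ^ 2 * t ^ (g - 4)) / 2 := by
          ring
      _ = t ^ 2 * t ^ (g - 4) / 2 := by rw [hpt, one_mul]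
      _ ≤ 1 / 2 * 1 / 2 := by
          have := mul_le_mul ht2 h2 h4 (by norm_num)
          linarith
      _ = 1 / 4 := by norm_num
  have : (1 : ℝ) / 1.414 < 3 / 4 := by norm_num
  linarith

lemma aa_nonneg (p g : ℕ) : (0 : ℝ) ≤ (aa p g : ℝ) := by
  unfold aa
  split_ifs <;> push_cast <;> positivity

/-- the case `g = 3` -/
lemma three {p : ℕ} (hp : 2 ≤ p) (x : ℂ)
    (hx : x ^ 6 + (p : ℂ) ^ 3 + (p : ℂ) * (x ^ 4 + p * x ^ 2) + p * x ^ 3 = 0) :
    ‖x‖ = Real.sqrt p ∧ x.im ≠ 0 := by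
  have hp' : (2 : ℝ) ≤ p := by exact_mod_cast hp
  set s : ℝ := Real.sqrt p with hs
  have hss : s ^ 2 = p := Real.sq_sqrt (by positivity)
  have hs1 : 1 < s := by
    rw [hs]
    apply Real.lt_sqrt_of_sq_lt
    linarith
  set H : ℝ → ℝ := fun T => T ^ 3 - 2 * p * T + p with hH
  have hHc : Continuous H := by fun_prop
  have v1 : H (-(2 * s)) < 0 := by
    simp only [hH]
    have : (-(2 * s)) ^ 3 - 2 * (p : ℝ) * (-(2 * s)) + p = p * (1 - 4 * s) := by
      rw [← hss]; ring
    rw [this]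
    nlinarith
  have v2 : 0 < H 0 := by simp only [hH]; nlinarith
  have v3 : H s < 0 := by
    simp only [hH]
    have : s ^ 3 - 2 * (p : ℝ) * s + p = p * (1 - s) := by
      rw [← hss]; ring
    rw [this]
    nlinarith
  have v4 : 0 < H (2 * s) := by
    simp only [hH]
    have : (2 * s) ^ 3 - 2 * (p : ℝ) * (2 * s) + p = p * (1 + 4 * s) := by
      rw [← hss]; ring
    rw [this]
    nlinarith
  obtain ⟨t1, ht1, e1⟩ := intermediate_value_Ioo (by linarith : -(2 * s) ≤ 0) hHc.continuousOn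
    (show (0 : ℝ) ∈ Set.Ioo (H (-(2 * s))) (H 0) from ⟨v1, v2⟩)
  obtain ⟨t2, ht2, e2⟩ := intermediate_value_Ioo' (by linarith : (0 : ℝ) ≤ s) hHc.continuousOn
    (show (0 : ℝ) ∈ Set.Ioo (H s) (H 0) from ⟨v3, v2⟩)
  obtain ⟨t3, ht3, e3⟩ := intermediate_value_Ioo (by linarith : s ≤ 2 * s) hHc.continuousOn
    (show (0 : ℝ) ∈ Set.Ioo (H s) (H (2 * s)) from ⟨v3, v4⟩)
  simp only [hH] at e1 e2 e3
  have n12 : t1 ≠ t2 := by
    intro he; rw [he] at ht1; have := ht1.2; have := ht2.1; linarith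
  have n13 : t1 ≠ t3 := by
    intro he; rw [he] at ht1; have := ht1.2; have := ht3.1; linarith
  have n23 : t2 ≠ t3 := by
    intro he; rw [he] at ht2; have := ht2.2; have := ht3.1; linarith
  have q2 : t2 ^ 2 + t2 * t1 + t1 ^ 2 - 2 * p = 0 := by
    have : (t2 - t1) * (t2 ^ 2 + t2 * t1 + t1 ^ 2 - 2 * p) = 0 := by linarith
    rcases mul_eq_zero.1 this with h | h
    · exact absurd (sub_eq_zero.1 h).symm n12
    · exact h
  have q3 : t3 ^ 2 + t3 * t1 + t1 ^ 2 - 2 * p = 0 := by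
    have : (t3 - t1) * (t3 ^ 2 + t3 * t1 + t1 ^ 2 - 2 * p) = 0 := by linarith
    rcases mul_eq_zero.1 this with h | h
    · exact absurd (sub_eq_zero.1 h).symm n13
    · exact h
  have q4 : t3 = -t1 - t2 := by
    have : (t3 - t2) * (t3 + t2 + t1) = 0 := by linarith
    rcases mul_eq_zero.1 this with h | h
    · exact absurd (sub_eq_zero.1 h).symm n23
    · linarith
  -- the complex root
  have hx0 : x ≠ 0 := by
    rintro rfl
    have hpc : (p : ℂ) ≠ 0 := by
      have : (p : ℕ) ≠ 0 := by omega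
      exact_mod_cast this
    apply pow_ne_zero 3 hpc
    linear_combination hx
  set T : ℂ := x + p / x with hT
  have hxT : x ^ 2 - T * x + p = 0 := by
    rw [hT]; field_simp; ring
  have hTH : T ^ 3 - 2 * p * T + p = 0 := by
    have h1 : x ^ 3 * (T ^ 3 - 2 * p * T + p) = 0 := by
      have h2 : T * x = x ^ 2 + p := by linear_combination -hxT
      have h3 : x ^ 3 * (T ^ 3 - 2 * p * T + p) =
          (T * x) ^ 3 - 2 * p * x ^ 2 * (T * x) + p * x ^ 3 := by ring
      rw [h3, h2]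
      linear_combination hx
    rcases mul_eq_zero.1 h1 with h | h
    · exact absurd h (pow_ne_zero 3 hx0)
    · exact h
  have hreal : T = (t1 : ℂ) ∨ T = (t2 : ℂ) ∨ T = (t3 : ℂ) := by
    have e1' : (t1 : ℂ) ^ 3 - 2 * p * t1 + p = 0 := by exact_mod_cast e1
    have q2' : (t2 : ℂ) ^ 2 + t2 * t1 + t1 ^ 2 - 2 * p = 0 := by exact_mod_cast q2
    by_cases hT1 : T = (t1 : ℂ)
    · exact Or.inl hT1
    right
    have qT : T ^ 2 + T * t1 + (t1 : ℂ) ^ 2 - 2 * p = 0 := by
      have : (T - t1) * (T ^ 2 + T * t1 + (t1 : ℂ) ^ 2 - 2 * p) = 0 := by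
        linear_combination hTH - e1'
      rcases mul_eq_zero.1 this with h | h
      · exact absurd (sub_eq_zero.1 h) hT1
      · exact h
    have : (T - t2) * (T + t2 + t1) = 0 := by linear_combination qT - q2'
    rcases mul_eq_zero.1 this with h | h
    · exact Or.inl (sub_eq_zero.1 h)
    · right
      rw [q4]
      push_cast
      linear_combination h
  have hfin : ∃ t : ℝ, T = (t : ℂ) ∧ t ^ 2 < 4 * p := by
    rcases hreal with h | h | h
    · refine ⟨t1, h, ?_⟩
      have := ht1.1; have := ht1.2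
      nlinarith
    · refine ⟨t2, h, ?_⟩
      have := ht2.1; have := ht2.2
      nlinarith
    · refine ⟨t3, h, ?_⟩
      have := ht3.1; have := ht3.2
      nlinarith
  obtain ⟨t, htT, htp⟩ := hfin
  rw [htT] at hxT
  have hre := congrArg Complex.re hxT
  have him := congrArg Complex.im hxT
  simp only [pow_two, Complex.add_re, Complex.sub_re, Complex.mul_re, Complex.add_im,
    Complex.sub_im, Complex.mul_im, Complex.ofReal_re, Complex.ofReal_im, Complex.natCast_re,
    Complex.natCast_im, Complex.zero_re, Complex.zero_im] at hre him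
  have him0 : x.im ≠ 0 := by
    intro h0
    rw [h0] at hre
    nlinarith [sq_nonneg (2 * x.re - t)]
  have hre2 : 2 * x.re = t := by
    have : x.im * (2 * x.re - t) = 0 := by linarith
    rcases mul_eq_zero.1 this with h | h
    · exact absurd h him0
    · linarith
  refine ⟨?_, him0⟩
  have hn : ‖x‖ ^ 2 = p := by
    rw [← Complex.normSq_eq_norm_sq, Complex.normSq_apply]
    rw [← hre2] at hre
    linear_combination -hre
  rw [hs, ← hn, Real.sqrt_sq (norm_nonneg _)]

end F0R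

open F0R in
theorem f0r (h : S_ROOT) : S_F0R := by
  intro p g hp hg x hx
  have hp2 : 2 ≤ p := hp.two_le
  have hp' : (2 : ℝ) ≤ p := by exact_mod_cast hp2
  rcases Nat.lt_or_ge g 4 with h4 | h4
  · have hg3 : g = 3 := by omega
    subst hg3
    rw [aeval_PP le_rfl] at hx
    have haa : (aa p 3 : ℂ) = p := by
      simp [aa]
    rw [haa] at hx
    exact three hp2 x hx
  have hkey := key hp2 h4
  set s : ℝ := Real.sqrt p with hs
  have hss : s ^ 2 = p := Real.sq_sqrt (by positivity)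
  have hs1 : 1 < s := by
    rw [hs]
    apply Real.lt_sqrt_of_sq_lt
    linarith
  have hs0 : 0 < s := by linarith
  have hnorm : ‖x‖ = s := by
    refine h p g (af p g) (by omega) (by omega) af_zero (fun θ => ?_) x hx
    rw [Finset.sum_eq_add 0 (g - 1) (by omega)]
    · rw [af_zero, af_pred hg, af_g hg]
      simp only [Int.cast_one, pow_zero, Nat.cast_zero, zero_mul, Real.cos_zero, mul_one,
        Int.cast_natCast]
      have c1 := Real.neg_one_le_cos (((g - 1 : ℕ) : ℝ) * θ)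
      have c2 := Real.neg_one_le_cos ((g : ℝ) * θ)
      have m1 : 0 ≤ (aa p g : ℝ) * s⁻¹ ^ (g - 1) := mul_nonneg (aa_nonneg p g) (by positivity)
      have m2 : 0 ≤ (p : ℝ) / 2 * s⁻¹ ^ g := by positivity
      nlinarith
    · intro c hc hne
      rw [af_other hne.1 (Finset.mem_range.1 hc) hne.2]
      simp
    · intro h
      exact absurd (Finset.mem_range.2 (by omega)) h
    · intro h
      exact absurd (Finset.mem_range.2 (by omega)) h
  refine ⟨hnorm, fun him => ?_⟩
  -- real roots are impossible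
  obtain ⟨r, hr⟩ : ∃ r : ℝ, x = (r : ℂ) := ⟨x.re, Complex.ext rfl (by simp [him])⟩
  have hr2 : r ^ 2 = p := by
    have h1 : |r| = s := by rw [← hnorm, hr, Complex.norm_real, Real.norm_eq_abs]
    rw [← sq_abs, h1, hss]
  have hr0 : r ≠ 0 := by
    rintro rfl
    have : (p : ℝ) = 0 := by rw [← hr2]; ring
    linarith
  rw [aeval_PP hg, hr] at hx
  have hx' : r ^ (2 * g) + (p : ℝ) ^ g + (aa p g : ℝ) * (r ^ (g + 1) + p * r ^ (g - 1)) +
      p * r ^ g = 0 := by exact_mod_cast hx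
  have e1 : r ^ (2 * g) = r ^ g * r ^ g := by rw [two_mul, pow_add]
  have e2 : (p : ℝ) ^ g = r ^ g * r ^ g := by rw [← hr2, ← pow_mul, two_mul, pow_add]
  have e3 : (p : ℝ) * r ^ (g - 1) = r ^ g * r := by
    rw [← hr2, ← pow_add, ← pow_succ]
    congr 1
    omega
  have e4 : r ^ (g + 1) = r ^ g * r := pow_succ r g
  rw [e1, e2, e3, e4] at hx'
  have hfac : r ^ g * (2 * r ^ g + 2 * (aa p g : ℝ) * r + p) = 0 := by linarith
  have hz : 2 * r ^ g + 2 * (aa p g : ℝ) * r + p = 0 := by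
    rcases mul_eq_zero.1 hfac with h | h
    · exact absurd h (pow_ne_zero g hr0)
    · exact h
  have habs : |r| = s := by rw [← hnorm, hr, Complex.norm_real, Real.norm_eq_abs]
  have h5 : 2 * s ^ g ≤ 2 * (aa p g : ℝ) * s + p := by
    have h6 : 2 * r ^ g = -(2 * (aa p g : ℝ) * r + p) := by linarith
    have h7 : |2 * r ^ g| ≤ |2 * (aa p g : ℝ) * r| + |(p : ℝ)| := by
      rw [h6, abs_neg]; exact abs_add_le _ _
    rw [abs_mul, abs_pow, abs_mul, abs_mul, habs, abs_of_nonneg (aa_nonneg p g),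
      abs_of_nonneg (by positivity : (0 : ℝ) ≤ p)] at h7
    norm_num at h7
    linarith
  have h8 : (aa p g : ℝ) * s⁻¹ ^ (g - 1) * s ^ g = aa p g * s := by
    have : s ^ g = s ^ (g - 1) * s := by
      rw [← pow_succ]; congr 1; omega
    rw [this, inv_pow]
    field_simp
  have h9 : (p : ℝ) / 2 * s⁻¹ ^ g * s ^ g = p / 2 := by
    rw [inv_pow]
    field_simp
  have h10 : ((aa p g : ℝ) * s⁻¹ ^ (g - 1) + (p : ℝ) / 2 * s⁻¹ ^ g) * s ^ g < 1 * s ^ g :=
    mul_lt_mul_of_pos_right hkey (pow_pos hs0 g)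
  rw [add_mul, h8, h9] at h10
  linarith

end Pool.Agent.R80.WF
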