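import Pool.Agent.R80.WF.Root
import Pool.Agent.R80.WF.F0R
import Pool.Agent.R80.WF.F0I
import Pool.Agent.R80.WF.F0N
import Pool.Agent.R80.WF.Asm
import Pool.Agent.TH343.PR.Final

set_option autoImplicit false

namespace Pool.Agent.R80.WF

open Polynomial

/-- `p`-rank 0 -/
theorem good_f0 {p g : ℕ} (hp : p.Prime) (hg : 3 ≤ g) (h33 : ¬ (p = 3 ∧ g = 3))
    (h54 : ¬ (p = 5 ∧ g = 4)) (h55 : ¬ (p = 5 ∧ g = 5)) : Good p g 0 := by
  have ha0 : af p g 0 = 1 := by simp [af]
  have hm : (PP p g (af p g)).Monic := monic_PP (by omega) ha0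
  have hdiv : ∀ i, 1 ≤ i → i ≤ g → (p : ℤ) ∣ af p g i := by
    intro i h1 h2
    unfold af
    rw [if_neg (by omega)]
    split_ifs
    · exact dvd_rfl
    · exact dvd_rfl
    · exact dvd_pow_self _ (by norm_num)
    · exact dvd_zero _
  refine ⟨PP p g (af p g), hm, natDegree_PP (by omega) ha0, f0i (f0r root) p g hp hg,
    fun x hx => (f0r root p g hp hg x hx).1, ?_, ?_, ?_⟩
  · intro i hi
    rw [coeff_PP]
    split_ifs with h1 h2 h4
    · exact Dvd.dvd.mul_right (dvd_pow_self _ (by omega)) _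
    · exact hdiv g (by omega) le_rfl
    · exact hdiv (2 * g - i) (by omega) (by omega)
    · exact dvd_zero _
  · rw [coeff_PP, if_neg (by omega), if_neg (by omega), if_pos (by omega)]
    have e : 2 * g - (2 * g - 0) = 0 := by omega
    rw [e, ha0]
    intro h
    have := Int.le_of_dvd (by norm_num) h
    have := hp.two_le
    omega
  · intro x hx n hn
    exact Pool.Agent.TH343.PR.adjoin_pow_eq hm
      (fun x y hx hy n hn hxy => f0n p g hp hg h33 h54 h55 x y hx hy n hn hxy) hx hn

end Pool.Agent.R80.WF
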