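import Pool.Agent.R80.WF.Seq

set_option autoImplicit false

namespace Pool.Agent.R80.WF

open Polynomial

namespace G4Aux

/-- real roots of the trace polynomial -/
theorem four (p s : ℝ) (hs : s ^ 2 = p) (hs1 : 17 / 10 ≤ s) :
    ∃ t1 t2 t3 t4 : ℝ, t1 < t2 ∧ t2 < t3 ∧ t3 < t4 ∧ -(2 * s) < t1 ∧ t4 < 2 * s ∧
      ∀ t ∈ ({t1, t2, t3, t4} : Finset ℝ),
        t ^ 4 + (2 - 4 * p) * t ^ 2 + 2 * p * t + (2 * p ^ 2 - 4 * p) = 0 := by
  subst hs
  set H : ℝ → ℝ := fun t => t ^ 4 + (2 - 4 * s ^ 2) * t ^ 2 + 2 * s ^ 2 * t +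
    (2 * (s ^ 2) ^ 2 - 4 * s ^ 2) with hH
  have hc : Continuous H := by
    rw [hH]
    fun_prop
  have hs0 : 0 < s := by linarith
  have hss : 0 < s ^ 2 := by positivity
  have h1 : 0 < H (-(2 * s)) := by
    have e : H (-(2 * s)) = 2 * s ^ 2 * ((s - 1) ^ 2 + 1) := by
      rw [hH]; ring
    rw [e]
    positivity
  have h2 : H (-(7 / 5 * s)) < 0 := by
    have e : H (-(7 / 5 * s)) = -(s ^ 2 * (1249 / 625 * s ^ 2 + 2 / 25 + 14 / 5 * s)) := by
      rw [hH]; ring
    rw [e, neg_lt_zero]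
    positivity
  have h3 : 0 < H 0 := by
    have e : H 0 = 2 * s ^ 2 * (s ^ 2 - 2) := by
      rw [hH]; ring
    rw [e]
    have : 0 < s ^ 2 - 2 := by nlinarith
    positivity
  have h4 : H (7 / 5 * s) < 0 := by
    have e : H (7 / 5 * s) = -(s ^ 2 * (1249 / 625 * s ^ 2 + 2 / 25 - 14 / 5 * s)) := by
      rw [hH]; ring
    rw [e, neg_lt_zero]
    have : 0 < 1249 / 625 * s ^ 2 + 2 / 25 - 14 / 5 * s := by nlinarith
    positivity
  have h5 : 0 < H (2 * s) := by
    have e : H (2 * s) = s ^ 2 * (2 * s ^ 2 + 4 + 4 * s) := by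
      rw [hH]; ring
    rw [e]
    positivity
  obtain ⟨t1, ⟨a1, b1⟩, c1⟩ := intermediate_value_Ioo' (by linarith : -(2 * s) ≤ -(7 / 5 * s))
    hc.continuousOn ⟨h2, h1⟩
  obtain ⟨t2, ⟨a2, b2⟩, c2⟩ := intermediate_value_Ioo (by linarith : -(7 / 5 * s) ≤ 0)
    hc.continuousOn ⟨h2, h3⟩
  obtain ⟨t3, ⟨a3, b3⟩, c3⟩ := intermediate_value_Ioo' (by linarith : 0 ≤ (7 / 5 * s))
    hc.continuousOn ⟨h4, h3⟩
  obtain ⟨t4, ⟨a4, b4⟩, c4⟩ := intermediate_value_Ioo (by linarith : 7 / 5 * s ≤ 2 * s)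
    hc.continuousOn ⟨h4, h5⟩
  refine ⟨t1, t2, t3, t4, by linarith, by linarith, by linarith, a1, b4, ?_⟩
  intro t ht
  simp only [Finset.mem_insert, Finset.mem_singleton] at ht
  rcases ht with rfl | rfl | rfl | rfl
  · exact c1
  · exact c2
  · exact c3
  · exact c4

end G4Aux

theorem g4 : S_G4 := by
  intro p hp x hx
  have hx1 : x ^ 8 + (p : ℂ) ^ 4 + 2 * (x ^ 6 + (p : ℂ) ^ 2 * x ^ 2) +
      2 * p * (x ^ 5 + p * x ^ 3) = 0 := by
    have h := hx
    simp only [PP, Finset.sum_range_succ, Finset.sum_range_zero, aa, par] at h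
    norm_num at h
    have e2 : (aeval x) (2 : ℤ[X]) = (2 : ℂ) := map_ofNat _ 2
    rw [e2] at h
    linear_combination h
  have hp0 : (p : ℂ) ≠ 0 := by
    have : p ≠ 0 := by omega
    exact_mod_cast this
  have hx0 : x ≠ 0 := by
    rintro rfl
    have : (p : ℂ) ^ 4 = 0 := by simpa using hx1
    exact hp0 (pow_eq_zero_iff (by norm_num) |>.1 this)
  set T : ℂ := x + p / x with hT
  have hHT : T ^ 4 + (2 - 4 * p) * T ^ 2 + 2 * p * T + (2 * p ^ 2 - 4 * p) = 0 := by
    rw [hT]
    have h2 : x ^ 4 * ((x + p / x) ^ 4 + (2 - 4 * p) * (x + p / x) ^ 2 + 2 * p * (x + p / x) +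
        (2 * p ^ 2 - 4 * p)) = 0 := by
      rw [← hx1]
      field_simp
      ring
    exact (mul_eq_zero.1 h2).resolve_left (pow_ne_zero 4 hx0)
  have hpR : (3 : ℝ) ≤ p := by exact_mod_cast hp
  have hs : Real.sqrt p ^ 2 = p := Real.sq_sqrt (by linarith)
  have hs1 : 17 / 10 ≤ Real.sqrt p := by
    apply Real.le_sqrt_of_sq_le
    linarith
  obtain ⟨t1, t2, t3, t4, h12, h23, h34, hl, hu, hr⟩ := G4Aux.four p (Real.sqrt p) hs hs1
  have hTt : ∃ t ∈ ({t1, t2, t3, t4} : Finset ℝ), T = (t : ℂ) := by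
    by_contra hcon
    push Not at hcon
    set Hp : ℂ[X] := X ^ 4 + C (2 - 4 * (p : ℂ)) * X ^ 2 + C (2 * (p : ℂ)) * X +
      C (2 * (p : ℂ) ^ 2 - 4 * p) with hHp
    have hdeg : Hp.natDegree ≤ 4 := by
      rw [hHp]
      compute_degree
    have hcard4 : ({t1, t2, t3, t4} : Finset ℝ).card = 4 := by
      rw [Finset.card_insert_of_notMem, Finset.card_insert_of_notMem,
        Finset.card_insert_of_notMem, Finset.card_singleton]
      · simp only [Finset.mem_singleton]
        exact h34.ne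
      · simp only [Finset.mem_insert, Finset.mem_singleton, not_or]
        exact ⟨h23.ne, (h23.trans h34).ne⟩
      · simp only [Finset.mem_insert, Finset.mem_singleton, not_or]
        exact ⟨h12.ne, (h12.trans h23).ne, ((h12.trans h23).trans h34).ne⟩
    set S : Finset ℂ := insert T (({t1, t2, t3, t4} : Finset ℝ).image (fun t : ℝ => (t : ℂ)))
      with hS
    have hScard : S.card = 5 := by
      rw [hS, Finset.card_insert_of_notMem, Finset.card_image_of_injective _
        Complex.ofReal_injective, hcard4]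
      intro hmem
      obtain ⟨t, ht, hte⟩ := Finset.mem_image.1 hmem
      exact hcon t ht hte.symm
    have hev : ∀ z ∈ S, Hp.eval z = 0 := by
      intro z hz
      have hz2 : z ^ 4 + (2 - 4 * p) * z ^ 2 + 2 * p * z + (2 * p ^ 2 - 4 * p) = 0 := by
        rcases Finset.mem_insert.1 hz with rfl | hz
        · exact hHT
        · obtain ⟨t, ht, rfl⟩ := Finset.mem_image.1 hz
          have := hr t ht
          exact_mod_cast this
      rw [hHp]
      simp only [eval_add, eval_mul, eval_pow, eval_X, eval_C]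
      exact hz2
    have h0 := Polynomial.eq_zero_of_natDegree_lt_card_of_eval_eq_zero' Hp S hev (by omega)
    have h4 : Hp.coeff 4 = 1 := by
      rw [hHp]
      simp only [coeff_add, coeff_C_mul, coeff_X_pow, coeff_X, coeff_C]
      norm_num
    rw [h0] at h4
    simp at h4
  obtain ⟨t, ht, hTt⟩ := hTt
  have htb : -(2 * Real.sqrt p) < t ∧ t < 2 * Real.sqrt p := by
    simp only [Finset.mem_insert, Finset.mem_singleton] at ht
    rcases ht with rfl | rfl | rfl | rfl <;> constructor <;> linarith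
  have htt : t ^ 2 < 4 * p := by
    have := abs_lt.2 htb
    have h3 : t ^ 2 < (2 * Real.sqrt p) ^ 2 := by
      rw [← sq_abs]
      exact pow_lt_pow_left₀ this (abs_nonneg _) (by norm_num)
    rw [mul_pow, hs] at h3
    linarith
  have hq : x ^ 2 - t * x + p = 0 := by
    have h3 : x * (x + p / x) = t * x := by
      rw [← hT, hTt]
      ring
    have h4 : x * (x + p / x) = x ^ 2 + p := by
      field_simp
    rw [h4] at h3
    linear_combination h3
  have hre := congrArg Complex.re hq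
  have him := congrArg Complex.im hq
  simp only [pow_two, Complex.add_re, Complex.sub_re, Complex.mul_re, Complex.ofReal_re,
    Complex.ofReal_im, Complex.natCast_re, Complex.zero_re, zero_mul, sub_zero] at hre
  simp only [pow_two, Complex.add_im, Complex.sub_im, Complex.mul_im, Complex.ofReal_re,
    Complex.ofReal_im, Complex.natCast_im, Complex.zero_im, zero_mul, add_zero] at him
  have him2 : x.im * (2 * x.re - t) = 0 := by linarith
  have hn : x.re ^ 2 + x.im ^ 2 = p := by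
    rcases mul_eq_zero.1 him2 with h | h
    · rw [h] at hre
      nlinarith [sq_nonneg (x.re - t / 2)]
    · have ht : t = 2 * x.re := by linarith
      rw [ht] at hre
      nlinarith
  have hns : ‖x‖ ^ 2 = p := by
    rw [← Complex.normSq_eq_norm_sq, Complex.normSq_apply, ← hn]
    ring
  rw [← hns, Real.sqrt_sq (norm_nonneg _)]

end Pool.Agent.R80.WF
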