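import Pool.Agent.R80.WF.Defs

/-!
WF-ND (helper515): `ℚ(x^n) = ℚ(x)`.
-/

set_option autoImplicit false

namespace Pool.Agent.R80.WF

open Polynomial

namespace NdAux

/-- a polynomial over `ℤ` vanishing mod 2 is divisible by 2 -/
theorem two_dvd (F : ℤ[X]) (h : F.map (Int.castRingHom (ZMod 2)) = 0) : ∃ R : ℤ[X], F = C 2 * R := by
  have : C 2 ∣ F := by
    rw [C_dvd_iff_dvd_coeff]
    intro i
    have h1 := congrArg (fun G => coeff G i) h
    simp only [coeff_map, coeff_zero, eq_intCast] at h1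
    exact_mod_cast (ZMod.intCast_zmod_eq_zero_iff_dvd (F.coeff i) 2).1 h1
  exact this

theorem modtwo (P : ℤ[X]) (N t : ℕ) (hN : N ≤ 2 ^ t)
    (hP : P.map (Int.castRingHom (ZMod 2)) = (X + 1) ^ N) :
    ∃ R : ℤ[X], X ^ 2 ^ t + 1 = P * (X + 1) ^ (2 ^ t - N) + C 2 * R := by
  obtain ⟨R, hR⟩ := two_dvd (X ^ 2 ^ t + 1 - P * (X + 1) ^ (2 ^ t - N)) (by
    rw [Polynomial.map_sub, Polynomial.map_mul, hP, Polynomial.map_add, Polynomial.map_pow,
      Polynomial.map_pow, Polynomial.map_add, Polynomial.map_X, Polynomial.map_one, ← pow_add,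
      Nat.add_sub_cancel' hN, add_pow_char_pow, one_pow, sub_self])
  exact ⟨R, by rw [← hR]; ring⟩

/-- a root of unity congruent to one mod two -/
theorem unit_sq (ξ w : ℂ) (k : ℕ) (hk : 1 ≤ k) (hξ : ξ ^ k = 1) (hw : IsIntegral ℤ w)
    (h : ξ - 1 = 2 * w) : ξ ^ 2 = 1 := by
  have hfin : IsOfFinOrder ξ := isOfFinOrder_iff_pow_eq_one.2 ⟨k, hk, hξ⟩
  have hr0 : 0 < orderOf ξ := hfin.orderOf_pos
  obtain ⟨r, hr⟩ : ∃ r, orderOf ξ = r + 1 := ⟨orderOf ξ - 1, by omega⟩
  have hprim : IsPrimitiveRoot ξ (r + 1) := hr ▸ IsPrimitiveRoot.orderOf ξ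
  have hprod := hprim.prod_one_sub_pow_eq_order
  have hξi : IsIntegral ℤ ξ := by
    have : ξ = 1 + 2 * w := by linear_combination h
    rw [this]
    exact isIntegral_one.add ((isIntegral_algebraMap (R := ℤ) (x := 2)).mul hw)
  have hk' : ∀ j : ℕ, ∃ v : ℂ, IsIntegral ℤ v ∧ 1 - ξ ^ (j + 1) = 2 * v := by
    intro j
    refine ⟨-w * ∑ i ∈ Finset.range (j + 1), ξ ^ i, ?_, ?_⟩
    · exact hw.neg.mul (IsIntegral.sum _ fun i _ => hξi.pow i)
    · have h1 := geom_sum_mul ξ (j + 1)
      linear_combination h1 - (∑ i ∈ Finset.range (j + 1), ξ ^ i) * h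
  choose v hv1 hv2 using hk'
  have hprod2 : (2 : ℂ) ^ r * ∏ j ∈ Finset.range r, v j = r + 1 := by
    rw [← hprod]
    simp only [hv2]
    rw [Finset.prod_mul_distrib, Finset.prod_const, Finset.card_range]
  have hint : IsIntegral ℤ (∏ j ∈ Finset.range r, v j) := IsIntegral.prod _ fun j _ => hv1 j
  have hval : ∏ j ∈ Finset.range r, v j = algebraMap ℚ ℂ (((r : ℚ) + 1) / 2 ^ r) := by
    have h2 : (2 : ℂ) ^ r ≠ 0 := pow_ne_zero _ two_ne_zero
    rw [eq_ratCast]
    push_cast
    rw [eq_div_iff h2, ← hprod2]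
    ring
  rw [hval] at hint
  have hint2 : IsIntegral ℤ (((r : ℚ) + 1) / 2 ^ r) :=
    (isIntegral_algebraMap_iff (algebraMap ℚ ℂ).injective).1 hint
  obtain ⟨z, hz⟩ := IsIntegrallyClosed.isIntegral_iff.1 hint2
  have hz' : (r : ℚ) + 1 = z * 2 ^ r := by
    have : (z : ℚ) = ((r : ℚ) + 1) / 2 ^ r := hz
    rw [this]; field_simp
  have hz'' : (r : ℤ) + 1 = z * 2 ^ r := by exact_mod_cast hz'
  have hzpos : 1 ≤ z := by
    by_contra hcon
    push Not at hcon
    have : z ≤ 0 := by omega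
    have h3 : (0 : ℤ) < 2 ^ r := by positivity
    nlinarith
  have hle : (2 : ℤ) ^ r ≤ r + 1 := by
    rw [hz'']
    have h3 : (0 : ℤ) < 2 ^ r := by positivity
    nlinarith
  have hr1 : r ≤ 1 := by
    by_contra hcon
    push Not at hcon
    have h4 : ∀ m : ℕ, (m : ℤ) + 2 + 1 < 2 ^ (m + 2) := by
      intro m
      induction m with
      | zero => norm_num
      | succ m ih =>
        rw [show m + 1 + 2 = (m + 2) + 1 by ring, pow_succ]
        push_cast
        linarith
    have h5 := h4 (r - 2)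
    have h6 : r - 2 + 2 = r := by omega
    rw [h6] at h5
    have h7 : ((r - 2 : ℕ) : ℤ) = (r : ℤ) - 2 := by omega
    rw [h7] at h5
    linarith
  have h8 : orderOf ξ ∣ 2 := by
    rw [hr]
    interval_cases r
    · exact one_dvd _
    · exact dvd_refl _
  exact orderOf_dvd_iff_pow_eq_one.1 h8

theorem conj_pow (P : ℤ[X]) (N t : ℕ) (hPm : P.Monic) (hN : N ≤ 2 ^ t)
    (hP : P.map (Int.castRingHom (ZMod 2)) = (X + 1) ^ N) (x y : ℂ) (hx : aeval x P = 0)
    (hy : aeval y P = 0) (hx0 : x ≠ 0) (n : ℕ) (hn : 1 ≤ n) (hxy : y ^ n = x ^ n) :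
    y ^ 2 ^ (t + 1) = x ^ 2 ^ (t + 1) := by
  obtain ⟨R, hR⟩ := modtwo P N t hN hP
  have hxi : IsIntegral ℤ x := ⟨P, hPm, hx⟩
  have hyi : IsIntegral ℤ y := ⟨P, hPm, hy⟩
  have key : ∀ z : ℂ, aeval z P = 0 → z ^ 2 ^ t + 1 = 2 * aeval z R := by
    intro z hz
    have h1 := congrArg (aeval z) hR
    simp only [map_add, map_mul, map_pow, aeval_X, map_one, hz, zero_mul, zero_add, aeval_C] at h1
    rw [h1]
    norm_num
  have hint : ∀ z : ℂ, IsIntegral ℤ z → IsIntegral ℤ (aeval z R) := by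
    intro z hz
    rw [aeval_eq_sum_range]
    exact IsIntegral.sum _ fun i _ => (hz.pow i).smul _
  set ξ : ℂ := (y / x) ^ 2 ^ t with hξ
  have hx' : x ^ 2 ^ t ≠ 0 := pow_ne_zero _ hx0
  have h1 : ξ * x ^ 2 ^ t = y ^ 2 ^ t := by
    rw [hξ, div_pow]; field_simp
  have h2 : ξ ^ n = 1 := by
    rw [hξ, ← pow_mul, mul_comm, pow_mul, div_pow, hxy, div_self (pow_ne_zero _ hx0), one_pow]
  have hξi : IsIntegral ℤ ξ := by
    refine ⟨X ^ n - 1, monic_X_pow_sub_C 1 (by omega), ?_⟩
    simp [h2]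
  have h3 := unit_sq ξ (ξ * aeval x R - aeval y R) n hn h2
    ((hξi.mul (hint x hxi)).sub (hint y hyi)) (by
      linear_combination (-1 : ℂ) * h1 - key y hy + ξ * key x hx)
  have h4 : (y ^ 2 ^ t) ^ 2 = (x ^ 2 ^ t) ^ 2 := by
    rw [← h1, mul_pow, h3, one_mul]
  rw [pow_succ, pow_mul, pow_mul]
  exact h4

/-- an element outside `L` has another conjugate over `L` -/
theorem exists_conj (L : IntermediateField ℚ ℂ) (α : ℂ) (hα : IsIntegral L α) (h : α ∉ L) :
    ∃ β : ℂ, β ≠ α ∧ aeval β (minpoly L α) = 0 := by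
  by_contra hcon
  push Not at hcon
  have hirr := minpoly.irreducible hα
  have hsep : (minpoly L α).Separable := hirr.separable
  have hcard := card_rootSet_eq_natDegree (K := ℂ) hsep (IsAlgClosed.splits _)
  have hsub : (minpoly L α).rootSet ℂ ⊆ {α} := by
    intro β hβ
    rw [mem_rootSet] at hβ
    by_contra hne
    exact hcon β hne hβ.2
  have hle : Fintype.card ((minpoly L α).rootSet ℂ) ≤ 1 := by
    rw [Fintype.card_le_one_iff]
    intro a b
    have ha := hsub a.2
    have hb := hsub b.2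
    rw [Set.mem_singleton_iff] at ha hb
    exact Subtype.ext (ha.trans hb.symm)
  have hpos : 0 < (minpoly L α).natDegree := minpoly.natDegree_pos hα
  have hone : (minpoly L α).natDegree = 1 := by omega
  rw [minpoly.natDegree_eq_one_iff] at hone
  obtain ⟨c, hc⟩ := hone
  exact h (hc ▸ c.2)

theorem step2 (L : IntermediateField ℚ ℂ) (x : ℂ) (hx : IsIntegral L x) (k : ℕ)
    (h : ∀ y : ℂ, aeval y (minpoly L x) = 0 → y ^ k = x ^ k) : x ^ k ∈ L := by
  by_contra hcon
  obtain ⟨β, hβ, hβ0⟩ := exists_conj L (x ^ k) (hx.pow k) hcon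
  let K := IntermediateField.adjoin L {x}
  let g : K := IntermediateField.AdjoinSimple.gen L x
  have hgx : (algebraMap K ℂ) g = x := IntermediateField.AdjoinSimple.algebraMap_gen L x
  haveI halg : Algebra.IsAlgebraic L K := IntermediateField.isAlgebraic_adjoin_simple hx
  have hr := Algebra.IsAlgebraic.range_eval_eq_rootSet_minpoly (F := L) ℂ (g ^ k)
  have hmin : ∀ u : K, minpoly L u = minpoly L (algebraMap K ℂ u) := fun u =>
    (minpoly.algebraMap_eq (algebraMap K ℂ).injective u).symm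
  have hmem : β ∈ (minpoly L (g ^ k)).rootSet ℂ := by
    rw [mem_rootSet]
    rw [hmin, map_pow, hgx]
    exact ⟨minpoly.ne_zero (hx.pow k), hβ0⟩
  rw [← hr] at hmem
  obtain ⟨ψ, hψ⟩ := hmem
  have h1 : aeval (ψ g) (minpoly L x) = 0 := by
    rw [← hgx, ← hmin]
    have : aeval (ψ g) (minpoly L g) = ψ (aeval g (minpoly L g)) := aeval_algHom_apply ψ g _
    rw [this, minpoly.aeval, map_zero]
  have h2 := h (ψ g) h1
  apply hβ
  rw [← hψ]
  simp only [map_pow]
  exact h2

theorem step3 {P : ℤ[X]} {x : ℂ} (hx : aeval x P = 0) (hP : P.Monic)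
    (hI : ∀ s ∈ IntermediateField.adjoin ℚ {x}, s ^ 2 ≠ -1) (hx0 : x ≠ 0)
    (hneg : aeval (-x) P ≠ 0) (s : ℕ) : x ∈ IntermediateField.adjoin ℚ {x ^ 2 ^ s} := by
  induction s with
  | zero =>
    rw [pow_zero, pow_one]
    exact IntermediateField.mem_adjoin_simple_self ℚ x
  | succ s ih =>
    have hxi : IsIntegral ℤ x := ⟨P, hP, hx⟩
    set z : ℂ := x ^ 2 ^ s with hz
    have hz2 : x ^ 2 ^ (s + 1) = z ^ 2 := by rw [hz, ← pow_mul, ← pow_succ]
    rw [hz2]
    have hzi : IsIntegral ℚ z := (hxi.pow _).tower_top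
    set L := IntermediateField.adjoin ℚ {z ^ 2} with hL
    suffices hzL : z ∈ L by
      have : IntermediateField.adjoin ℚ {z} ≤ L := by
        rw [IntermediateField.adjoin_simple_le_iff]; exact hzL
      exact this ih
    by_contra hcon
    have hziL : IsIntegral L z := hzi.tower_top
    obtain ⟨β, hβ, hβ0⟩ := exists_conj L z hziL hcon
    have hz2L : z ^ 2 ∈ L := IntermediateField.mem_adjoin_simple_self ℚ (z ^ 2)
    have hβ2 : β ^ 2 = z ^ 2 := by
      have hd : minpoly L z ∣ X ^ 2 - C (⟨z ^ 2, hz2L⟩ : L) := by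
        refine minpoly.dvd _ _ ?_
        simp
      obtain ⟨q, hq⟩ := hd
      have h1 := congrArg (aeval β) hq
      rw [map_mul, hβ0, zero_mul] at h1
      simp only [map_sub, map_pow, aeval_X, aeval_C] at h1
      have h2 : (algebraMap L ℂ) (⟨z ^ 2, hz2L⟩ : L) = z ^ 2 := rfl
      rw [h2, sub_eq_zero] at h1
      exact h1
    have hβz : β = -z := by
      rcases sq_eq_sq_iff_eq_or_eq_neg.1 hβ2 with h1 | h1
      · exact absurd h1 hβ
      · exact h1
    have htrans : ∀ G : ℚ[X], aeval z G = 0 → aeval (-z) G = 0 := by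
      intro G hG
      have hd : minpoly L z ∣ G.map (algebraMap ℚ L) := by
        refine minpoly.dvd _ _ ?_
        rw [aeval_map_algebraMap]; exact hG
      obtain ⟨q, hq⟩ := hd
      have h1 := congrArg (aeval β) hq
      rw [map_mul, hβ0, zero_mul, aeval_map_algebraMap, hβz] at h1
      exact h1
    obtain ⟨F, hF⟩ : ∃ F : ℚ[X], aeval z F = x := by
      have h1 : x ∈ (IntermediateField.adjoin ℚ {z}).toSubalgebra := ih
      rw [IntermediateField.adjoin_simple_toSubalgebra_of_isAlgebraic hzi.isAlgebraic,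
        Algebra.adjoin_singleton_eq_range_aeval] at h1
      exact h1
    set y : ℂ := aeval (-z) F with hy
    have hyP : aeval y P = 0 := by
      have h1 := htrans ((P.map (algebraMap ℤ ℚ)).comp F) (by
        rw [aeval_comp, hF, aeval_map_algebraMap]; exact hx)
      rw [aeval_comp, aeval_map_algebraMap] at h1
      exact h1
    have hys : y ^ 2 ^ s = -z := by
      have h1 := htrans (F ^ 2 ^ s - X) (by
        rw [map_sub, map_pow, hF, aeval_X, ← hz, sub_self])
      rw [map_sub, map_pow, aeval_X, ← hy, sub_eq_zero] at h1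
      exact h1
    have hyK : y ∈ IntermediateField.adjoin ℚ {x} := by
      have hxK : x ∈ IntermediateField.adjoin ℚ {x} :=
        IntermediateField.mem_adjoin_simple_self ℚ x
      have h1 : -z ∈ IntermediateField.adjoin ℚ {x} := neg_mem (pow_mem hxK _)
      have h2 : Algebra.adjoin ℚ {-z} ≤ (IntermediateField.adjoin ℚ {x}).toSubalgebra := by
        refine Algebra.adjoin_le ?_
        intro w hw
        rw [Set.mem_singleton_iff] at hw
        rw [hw]
        exact h1
      exact h2 (Polynomial.aeval_mem_adjoin_singleton ℚ (-z))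
    rcases s with _ | s
    · rw [pow_zero, pow_one] at hys hz
      apply hneg
      rw [← hz, ← hys]
      exact hyP
    · have hxK : x ∈ IntermediateField.adjoin ℚ {x} :=
        IntermediateField.mem_adjoin_simple_self ℚ x
      apply hI ((y / x) ^ 2 ^ s) (pow_mem (div_mem hyK hxK) _)
      rw [← pow_mul, ← pow_succ, div_pow, hys, ← hz, neg_div, div_self]
      rw [hz]
      exact pow_ne_zero _ hx0

end NdAux

open NdAux

theorem nd : S_ND := by
  intro P N hN hPm hdeg hmod _ x hx hI hneg n hn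
  have hx0 : x ≠ 0 := by
    rintro rfl
    rw [neg_zero] at hneg
    exact hneg hx
  have hxi : IsIntegral ℤ x := ⟨P, hPm, hx⟩
  obtain ⟨t, ht⟩ : ∃ t : ℕ, N ≤ 2 ^ t := ⟨N, Nat.lt_two_pow_self.le⟩
  apply le_antisymm
  · rw [IntermediateField.adjoin_simple_le_iff]
    exact pow_mem (IntermediateField.mem_adjoin_simple_self ℚ x) _
  · set L := IntermediateField.adjoin ℚ {x ^ n} with hL
    have hxiL : IsIntegral L x := hxi.tower_top
    have hxnL : x ^ n ∈ L := IntermediateField.mem_adjoin_simple_self ℚ (x ^ n)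
    have h1 : x ^ 2 ^ (t + 1) ∈ L := by
      refine step2 L x hxiL _ fun y hy => ?_
      have hyP : aeval y P = 0 := by
        have hd : minpoly L x ∣ P.map (algebraMap ℤ L) := by
          refine minpoly.dvd _ _ ?_
          rw [aeval_map_algebraMap]; exact hx
        obtain ⟨q, hq⟩ := hd
        have h2 := congrArg (aeval y) hq
        rw [map_mul, hy, zero_mul, aeval_map_algebraMap] at h2
        exact h2
      have hyn : y ^ n = x ^ n := by
        have hd : minpoly L x ∣ X ^ n - C (⟨x ^ n, hxnL⟩ : L) := by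
          refine minpoly.dvd _ _ ?_
          simp
        obtain ⟨q, hq⟩ := hd
        have h2 := congrArg (aeval y) hq
        rw [map_mul, hy, zero_mul] at h2
        simp only [map_sub, map_pow, aeval_X, aeval_C] at h2
        have h3 : (algebraMap L ℂ) (⟨x ^ n, hxnL⟩ : L) = x ^ n := rfl
        rw [h3, sub_eq_zero] at h2
        exact h2
      exact conj_pow P N t hPm ht hmod x y hx hyP hx0 n hn hyn
    have h2 := step3 hx hPm hI hx0 hneg (t + 1)
    have h3 : IntermediateField.adjoin ℚ {x ^ 2 ^ (t + 1)} ≤ L := by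
      rw [IntermediateField.adjoin_simple_le_iff]; exact h1
    rw [IntermediateField.adjoin_simple_le_iff]
    exact h3 h2

end Pool.Agent.R80.WF
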