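import Pool.Agent.R80.WF.Defs

/-!
# Project WF, piece NOI: no square root of `-1` in the field of a 2-Eisenstein polynomial
-/

set_option autoImplicit false

namespace Pool.Agent.R80.WF

open Polynomial

namespace Noi

/-- reduction modulo 2 -/
noncomputable abbrev red : ℤ[X] →+* (ZMod 2)[X] := Polynomial.mapRingHom (Int.castRingHom (ZMod 2))

lemma two_dvd_of_red {F : ℤ[X]} (h : red F = 0) : ∃ G : ℤ[X], F = 2 * G := by
  have h2 : C (2 : ℤ) ∣ F := by
    rw [Polynomial.C_dvd_iff_dvd_coeff]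
    intro i
    have := congrArg (fun q => q.coeff i) h
    simp only [red, coe_mapRingHom, coeff_map, coeff_zero, eq_intCast] at this
    exact_mod_cast (ZMod.intCast_zmod_eq_zero_iff_dvd (F.coeff i) 2).1 this
  obtain ⟨G, hG⟩ := h2
  exact ⟨G, by rw [hG]; simp⟩

lemma exists_lift (b : (ZMod 2)[X]) : ∃ B : ℤ[X], red B = b := by
  obtain ⟨B, hB⟩ := Polynomial.map_surjective (Int.castRingHom (ZMod 2))
    (ZMod.ringHom_surjective (Int.castRingHom (ZMod 2))) b
  exact ⟨B, by simpa [red] using hB⟩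

lemma split {F : ℤ[X]} {k : ℕ} (h : X ^ k ∣ red F) : ∃ A B : ℤ[X], F = X ^ k * B + 2 * A := by
  obtain ⟨b, hb⟩ := h
  obtain ⟨B, rfl⟩ := exists_lift b
  have : red (F - X ^ k * B) = 0 := by
    rw [map_sub, map_mul, hb]
    simp [red]
  obtain ⟨A, hA⟩ := two_dvd_of_red this
  exact ⟨A, B, by linear_combination hA⟩

lemma two_ne_zero' : (2 : ℤ[X]) ≠ 0 := by
  have : (2 : ℤ[X]) = C 2 := by simp
  rw [this]; simp

lemma red_two : red 2 = 0 := by
  have : (2 : ℤ[X]) = C 2 := by simp
  rw [this]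
  simp only [red, coe_mapRingHom, map_C]
  have : (Int.castRingHom (ZMod 2)) 2 = 0 := by decide
  rw [this]; simp

/-- a polynomial congruent to a power of `X` modulo 2 is coprime to 2 -/
lemma dvd_of_dvd_two_mul {E W : ℤ[X]} {N : ℕ} (hE : red E = X ^ N) (h : E ∣ 2 * W) : E ∣ W := by
  obtain ⟨Q, hQ⟩ := h
  have h1 : red Q = 0 := by
    have := congrArg red hQ
    rw [map_mul, map_mul, red_two, zero_mul, hE] at this
    have h2 := (mul_eq_zero.1 this.symm)
    rcases h2 with h2 | h2
    · exact absurd h2 (pow_ne_zero _ X_ne_zero)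
    · exact h2
  obtain ⟨Q', rfl⟩ := two_dvd_of_red h1
  refine ⟨Q', ?_⟩
  have : 2 * W = 2 * (E * Q') := by rw [hQ]; ring
  exact mul_left_cancel₀ two_ne_zero' this

lemma sq_dvd {b : (ZMod 2)[X]} {g : ℕ} (h : X ^ (2 * g) ∣ b ^ 2) : X ^ g ∣ b := by
  have h1 : (X ^ g : (ZMod 2)[X]) ^ 2 ∣ b ^ 2 := by
    rw [← pow_mul, mul_comm g 2]; exact h
  exact (IsIntegrallyClosed.pow_dvd_pow_iff two_ne_zero).1 h1

lemma red_dvd {E W : ℤ[X]} {N : ℕ} (hE : red E = X ^ N) (h : E ∣ W) : X ^ N ∣ red W := by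
  rw [← hE]; exact map_dvd red h

lemma zmod2 (a : ZMod 2) : a * a = a := by revert a; decide

/-- the core -/
theorem core (E : ℤ[X]) (g : ℕ) (hg : 2 ≤ g) (hE : red E = X ^ (2 * g)) (h0 : E.coeff 0 % 4 = 2)
    (h1 : E.coeff 1 % 4 = 2 ∨ (4 ≤ g ∧ E.coeff 1 % 4 = 0 ∧ E.coeff 3 % 4 = 2)) :
    ∀ (D : ℕ) (S : ℤ[X]), 1 ≤ D → ¬ (E ∣ S ^ 2 + C ((D : ℤ) ^ 2)) := by
  -- `X^(2g) = E + 2u`
  obtain ⟨u, hu⟩ : ∃ u : ℤ[X], X ^ (2 * g) - E = 2 * u := by
    apply two_dvd_of_red
    rw [map_sub, hE]; simp [red]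
  have hu' : (X : ℤ[X]) ^ (2 * g) = E + 2 * u := by linear_combination hu
  have hcoeff : ∀ i, i < 2 * g → E.coeff i = -2 * u.coeff i := by
    intro i hi
    have := congrArg (fun q => q.coeff i) hu'
    have h2 : (2 * u).coeff i = 2 * u.coeff i := by
      have : (2 : ℤ[X]) = C 2 := by simp
      rw [this, coeff_C_mul]
    simp only [coeff_add, h2, coeff_X_pow] at this
    rw [if_neg (by omega)] at this
    linarith
  have hodd : ∀ i, i < 2 * g → E.coeff i % 4 = 2 → (red u).coeff i = 1 := by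
    intro i hi h
    rw [hcoeff i hi] at h
    have h3 : u.coeff i % 2 = 1 := by omega
    simp only [red, coe_mapRingHom, coeff_map, eq_intCast]
    have : ((u.coeff i : ℤ) : ZMod 2) = ((1 : ℤ) : ZMod 2) := by
      rw [ZMod.intCast_eq_intCast_iff]
      exact h3
    simpa using this
  have hu0 : (red u).coeff 0 = 1 := hodd 0 (by omega) h0
  have hXu : ¬ (X ∣ red u) := by
    rw [X_dvd_iff, hu0]; exact one_ne_zero
  intro D
  induction D using Nat.strong_induction_on with
  | _ D ih =>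
    intro S hD hdvd
    rcases Nat.even_or_odd' D with ⟨k, hk | hk⟩
    · -- even case
      have hC : C ((D : ℤ) ^ 2) = 4 * (C ((k : ℤ) ^ 2) : ℤ[X]) := by
        rw [hk]; push_cast
        have : (4 : ℤ[X]) = C 4 := by simp
        rw [this, ← C_mul]; ring_nf
      rw [hC] at hdvd
      have r1 : X ^ (2 * g) ∣ red S ^ 2 := by
        have := red_dvd hE hdvd
        have h4 : red (4 * (C ((k : ℤ) ^ 2) : ℤ[X])) = 0 := by
          have : (4 : ℤ[X]) = 2 * 2 := by norm_num
          rw [this, map_mul, map_mul, red_two]; simp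
        rwa [map_add, h4, add_zero, map_pow] at this
      obtain ⟨A, B, hS⟩ := split (sq_dvd r1)
      have h2 : E ∣ u * B ^ 2 + 2 * (X ^ g * B * A + A ^ 2 + C ((k : ℤ) ^ 2)) := by
        apply dvd_of_dvd_two_mul hE
        have : 2 * (u * B ^ 2 + 2 * (X ^ g * B * A + A ^ 2 + C ((k : ℤ) ^ 2))) =
            (S ^ 2 + 4 * C ((k : ℤ) ^ 2)) - E * B ^ 2 := by
          rw [hS]
          have hu2 : (X : ℤ[X]) ^ g * X ^ g = E + 2 * u := by rw [← hu']; ring
          linear_combination (-B ^ 2) * hu2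
        rw [this]
        exact dvd_sub hdvd (dvd_mul_right _ _)
      have r2 : X ^ (2 * g) ∣ red u * red B ^ 2 := by
        have := red_dvd hE h2
        rwa [map_add, map_mul, map_mul, red_two, zero_mul, add_zero, map_pow] at this
      have r3 : X ^ (2 * g) ∣ red B ^ 2 :=
        (Polynomial.prime_X.pow_dvd_of_dvd_mul_left _ hXu r2)
      have r4 : X ^ g ∣ red B := sq_dvd r3
      have r5 : X ^ (2 * g) ∣ red S := by
        rw [hS, map_add, map_mul, map_mul, red_two, zero_mul, add_zero]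
        have : (X : (ZMod 2)[X]) ^ (2 * g) = X ^ g * X ^ g := by ring
        rw [this]
        refine mul_dvd_mul ?_ r4
        simp [red]
      obtain ⟨A', B', hS'⟩ := split r5
      have h3 : E ∣ S ^ 2 + 4 * C ((k : ℤ) ^ 2) - 4 * ((u * B' + A') ^ 2 + C ((k : ℤ) ^ 2)) := by
        refine ⟨B' * (E * B' + 4 * (u * B' + A')), ?_⟩
        rw [hS', hu']; ring
      have h4 : E ∣ 2 * (2 * ((u * B' + A') ^ 2 + C ((k : ℤ) ^ 2))) := by
        have := dvd_sub hdvd h3
        have e : S ^ 2 + 4 * C ((k : ℤ) ^ 2) - (S ^ 2 + 4 * C ((k : ℤ) ^ 2) -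
          4 * ((u * B' + A') ^ 2 + C ((k : ℤ) ^ 2))) = 2 * (2 * ((u * B' + A') ^ 2 + C ((k : ℤ) ^ 2))) := by
          ring
        rwa [e] at this
      have h5 := dvd_of_dvd_two_mul hE (dvd_of_dvd_two_mul hE h4)
      exact ih k (by omega) _ (by omega) h5
    · -- odd case
      obtain ⟨m, hm⟩ : ∃ m : ℤ, (D : ℤ) ^ 2 = 1 + 4 * m := by
        refine ⟨(k : ℤ) ^ 2 + k, ?_⟩
        rw [hk]; push_cast; ring
      rw [hm] at hdvd
      have r1 : X ^ (2 * g) ∣ red (S + 1) ^ 2 := by
        have h2 : E ∣ (S ^ 2 + C (1 + 4 * m)) := hdvd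
        have := red_dvd hE h2
        have e : red (S + 1) ^ 2 = red (S ^ 2 + C (1 + 4 * m)) + red (2 * (S - C (2 * m))) := by
          rw [← map_pow, ← map_add]
          congr 1
          have : (C (1 + 4 * m) : ℤ[X]) = 1 + 4 * C m := by simp
          rw [this]
          have : (C (2 * m) : ℤ[X]) = 2 * C m := by simp
          rw [this]; ring
        rw [e, map_mul red 2, red_two, zero_mul, add_zero]
        exact this
      obtain ⟨A, B, hS⟩ := split (sq_dvd r1)
      have hS' : S = X ^ g * B + 2 * A - 1 := by linear_combination hS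
      have h2 : E ∣ u * B ^ 2 - X ^ g * B + 1 + 2 * (A ^ 2 - A + X ^ g * B * A + C m) := by
        apply dvd_of_dvd_two_mul hE
        have : 2 * (u * B ^ 2 - X ^ g * B + 1 + 2 * (A ^ 2 - A + X ^ g * B * A + C m)) =
            (S ^ 2 + C (1 + 4 * m)) - E * B ^ 2 := by
          rw [hS']
          have hu2 : (X : ℤ[X]) ^ g * X ^ g = E + 2 * u := by rw [← hu']; ring
          have hc : (C (1 + 4 * m) : ℤ[X]) = 1 + 4 * C m := by simp
          rw [hc]
          linear_combination (-B ^ 2) * hu2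
        rw [this]
        exact dvd_sub hdvd (dvd_mul_right _ _)
      have r2 : X ^ (2 * g) ∣ red u * red B ^ 2 + X ^ g * red B + 1 := by
        have := red_dvd hE h2
        have e : red (u * B ^ 2 - X ^ g * B + 1 + 2 * (A ^ 2 - A + X ^ g * B * A + C m)) =
            red u * red B ^ 2 + X ^ g * red B + 1 := by
          rw [map_add, map_mul red 2, red_two, zero_mul, add_zero, map_add, map_sub, map_mul, map_mul,
            map_pow, map_pow, map_one, CharTwo.sub_eq_add]
          simp [red]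
        rwa [e] at this
      rw [X_pow_dvd_iff] at r2
      have c0 := r2 0 (by omega)
      have c1 := r2 1 (by omega)
      set b := red B with hb
      set v := red u with hv
      have hXg : ∀ i, i < g → (X ^ g * b).coeff i = 0 := by
        intro i hi
        rw [coeff_X_pow_mul']
        rw [if_neg (by omega)]
      have hb1 : (b ^ 2).coeff 0 = b.coeff 0 := by
        rw [pow_two, mul_coeff_zero, zmod2]
      have hb2 : (b ^ 2).coeff 1 = 0 := by
        rw [pow_two, coeff_mul, Finset.Nat.antidiagonal_succ]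
        simp
        rw [mul_comm (b.coeff 1) (b.coeff 0)]
        exact CharTwo.add_self_eq_zero _
      have e0 : v.coeff 0 * b.coeff 0 + 1 = 0 := by
        have := c0
        rw [coeff_add, coeff_add, mul_coeff_zero, hb1, hXg 0 (by omega)] at this
        simpa using this
      have hbc : b.coeff 0 = 1 := by
        rw [hu0, one_mul] at e0
        generalize b.coeff 0 = t at e0
        revert t; decide
      have e1 : v.coeff 1 = 0 := by
        have := c1
        rw [coeff_add, coeff_add, coeff_mul, Finset.Nat.antidiagonal_succ, hXg 1 (by omega)] at this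
        simp [hb1, hb2, hbc, coeff_one] at this
        exact this
      rcases h1 with h1 | ⟨hg4, -, h3⟩
      · have := hodd 1 (by omega) h1
        rw [e1] at this
        exact zero_ne_one this
      · have c3 := r2 3 (by omega)
        have hv3 := hodd 3 (by omega) h3
        have hb3 : (b ^ 2).coeff 3 = 0 := by
          rw [pow_two, coeff_mul]
          simp [Finset.Nat.antidiagonal_succ]
          have : ∀ x y z w : ZMod 2, x * y + (z * w + (w * z + y * x)) = 0 := by decide
          exact this _ _ _ _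
        rw [coeff_add, coeff_add, coeff_mul, hXg 3 (by omega)] at c3
        simp [Finset.Nat.antidiagonal_succ, hb1, hb2, hbc, hb3, e1, coeff_one] at c3
        rw [hv3] at c3
        exact one_ne_zero c3

end Noi

/-- WF-NOI -/
theorem noi : S_NOI := by
  intro E g hg hmon hdeg hE h0 h1 hirr y hy s hs hs2
  have hE' : Noi.red E = X ^ (2 * g) := by simpa [Noi.red] using hE
  have hmonQ : (E.map (Int.castRingHom ℚ)).Monic := hmon.map _
  have hyQ : aeval y (E.map (Int.castRingHom ℚ)) = 0 := by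
    rw [← hy, aeval_def, aeval_def, eval₂_map]
    congr 1
  have hint : IsIntegral ℚ y := ⟨_, hmonQ, by rw [← aeval_def]; exact hyQ⟩
  have hmin : E.map (Int.castRingHom ℚ) = minpoly ℚ y :=
    minpoly.eq_of_irreducible_of_monic hirr hyQ hmonQ
  have hs' : s ∈ (IntermediateField.adjoin ℚ {y}).toSubalgebra := hs
  rw [IntermediateField.adjoin_simple_toSubalgebra_of_isAlgebraic hint.isAlgebraic,
    Algebra.adjoin_singleton_eq_range_aeval] at hs'
  obtain ⟨Q, hQ⟩ := hs'
  obtain ⟨b, hbm, hb⟩ := IsLocalization.integerNormalization_spec (nonZeroDivisors ℤ) Q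
  set S : ℤ[X] := IsLocalization.integerNormalization (nonZeroDivisors ℤ) Q with hS
  have hb0 : (b : ℤ) ≠ 0 := nonZeroDivisors.ne_zero hbm
  have hSy : aeval y S = (b : ℤ) * s := by
    have h2 : aeval y S = aeval y (S.map (algebraMap ℤ ℚ)) := by
      rw [aeval_map_algebraMap]
    rw [h2, hb, map_zsmul]
    have : (aeval y) Q = s := hQ
    rw [this, zsmul_eq_mul]
  have hsq : aeval y (S ^ 2 + C ((b : ℤ) ^ 2)) = 0 := by
    rw [map_add, map_pow, hSy, aeval_C]
    simp only [algebraMap_int_eq, eq_intCast, Int.cast_pow]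
    rw [mul_pow, hs2]; ring
  have hdvdQ : E.map (Int.castRingHom ℚ) ∣ (S ^ 2 + C ((b : ℤ) ^ 2)).map (Int.castRingHom ℚ) := by
    rw [hmin]
    apply minpoly.dvd
    rw [← hsq, aeval_def, aeval_def, eval₂_map]
    congr 1
  have hdvd : E ∣ S ^ 2 + C ((b : ℤ) ^ 2) :=
    (Polynomial.map_dvd_map (Int.castRingHom ℚ) (RingHom.injective_int _) hmon).1 hdvdQ
  have hbn : ((b : ℤ).natAbs : ℤ) ^ 2 = (b : ℤ) ^ 2 := by
    rw [Int.natAbs_sq]
  rw [← hbn] at hdvd
  exact Noi.core E g hg hE' h0 h1 (b : ℤ).natAbs S (Int.natAbs_pos.2 hb0) hdvd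

end Pool.Agent.R80.WF
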