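import Pool.Agent.R80.WF.Pos

set_option autoImplicit false

namespace Pool.Agent.R80.WF

open Polynomial

/-- positivity for `p = 3`, `f ≥ 4`, `g ≥ 7` -/
theorem pos3 {g f : ℕ} {u w : ℤ} (hg : 7 ≤ g) (hf : 4 ≤ f) (hfg : f ≤ g)
    (ho : Opt 3 g f u w) : Pos 3 g f u w := by
  have hsq : 0 < Real.sqrt ((3 : ℕ) : ℝ) := Real.sqrt_pos.2 (by norm_num)
  set t : ℝ := (Real.sqrt ((3 : ℕ) : ℝ))⁻¹ with ht
  have ht0 : 0 < t := inv_pos.2 hsq
  have htp : t ^ 2 * ((3 : ℕ) : ℝ) = 1 := by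
    rw [ht, inv_pow, Real.sq_sqrt (by norm_num)]
    norm_num
  have htp' : t ^ 2 = 1 / 3 := by
    push_cast at htp
    linarith
  have ht2 : 2 * t ^ 2 ≤ 1 := by rw [htp']; norm_num
  have htu : t ≤ 0.5774 := by
    by_contra h
    push Not at h
    nlinarith
  have ht1 : t ≤ 1 := by linarith
  have ht4 : t ^ 4 = 1 / 9 := by
    have : t ^ 4 = (t ^ 2) ^ 2 := by ring
    rw [this, htp']
    norm_num
  have ht5 : t ^ 5 ≤ 0.06416 := by
    have : t ^ 5 = t ^ 4 * t := by ring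
    rw [this, ht4]
    linarith
  have hmono : ∀ {m n : ℕ}, m ≤ n → t ^ n ≤ t ^ m := fun h => pow_le_pow_of_le_one ht0.le ht1 h
  intro θ
  refine pos_of_sum ht0.le (by omega) (by simp [aa]) ?_ θ
  have hu := u_bound ht0.le htp ht2 ho (by omega) hfg
  have hw := w_bound ht0.le htp ht2 ho (by omega) hfg
  have h1 : |(aa 3 g f u w 1 : ℝ)| * t ^ 1 = 0 := by
    rw [aa_one (by omega) (by omega)]
    simp
  have h2 := aa_two_abs (p := 3) (u := u) (w := w) (show 3 ≤ g by omega) (show 2 ≤ f by omega)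
  rw [if_neg (by omega)] at h2
  have h3 : |(aa 3 g f u w 3 : ℝ)| * t ^ 3 = 0 := by
    have : aa 3 g f u w 3 = 0 := by
      unfold aa
      rw [if_neg (by omega), if_neg (by omega), if_neg (by omega), if_pos (by omega)]
      simp [par]
    rw [this]
    simp
  have h4 : |(aa 3 g f u w 4 : ℝ)| ≤ if f = 4 then 2 else 1 := by
    unfold aa
    rw [if_neg (by omega), if_neg (by omega), if_neg (by omega)]
    by_cases h : f = 4
    · rw [if_neg (by omega), if_pos h.symm, if_pos h]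
      split_ifs <;> norm_num
    · rw [if_pos (by omega), if_neg h]
      rcases par_cases g 4 with h | h <;> rw [h] <;> norm_num
  rw [Finset.sum_eq_sum_Ico_succ_bot (by omega), Finset.sum_eq_sum_Ico_succ_bot (by omega),
    Finset.sum_eq_sum_Ico_succ_bot (by omega), Finset.sum_eq_sum_Ico_succ_bot (by omega), h1]
  set β : ℝ := if f % 2 = 1 then 2 * t ^ f else 0 with hβ
  set δ : ℝ := if g % 2 = 0 then |(w : ℝ)| * t ^ (g - 1) else 0 with hδ
  have hβ0 : 0 ≤ β := by
    rw [hβ]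
    split_ifs
    · positivity
    · exact le_rfl
  have hδ0 : 0 ≤ δ := by
    rw [hδ]
    split_ifs
    · positivity
    · exact le_rfl
  have hβ1 : β ≤ if f = 4 then 0 else 2 * t ^ 5 := by
    rw [hβ]
    split_ifs with h3 h4 h4
    · omega
    · have := hmono (show 5 ≤ f by omega)
      linarith
    · exact le_rfl
    · positivity
  have hδ1 : δ ≤ 2 * t ^ 5 := by
    rw [hδ]
    split_ifs with h3
    · have := hmono (show 5 ≤ g - 3 by omega)
      linarith
    · positivity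
  have hS := sum_major (s := Finset.Ico (2 * 2 + 1) g) (F := fun i => |(aa 3 g f u w i : ℝ)| * t ^ i)
    (A := fun i => if i % 2 = 0 then t ^ (i - 2) else 0) (f := f) (g' := g - 1) hβ0 hδ0
    (fun i hi => by
      have := Finset.mem_Ico.1 hi
      exact aa_bound ht0.le htp ht2 i (by omega) (by omega))
  have hG := geom_le ht0.le (by linarith : t ^ 2 < 1) 2 (by norm_num) g (by omega)
  have hG2 : t ^ (2 * 2) / (1 - t ^ 2) = 1 / 6 := by
    rw [show 2 * 2 = 4 by norm_num, ht4, htp']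
    norm_num
  rw [hG2] at hG
  have hu3 : t ^ (g - 2) ≤ t ^ 5 := hmono (by omega)
  have e5 : (1 + 1 + 1 + 1 + 1 : ℕ) = 2 * 2 + 1 := by norm_num
  rw [e5]
  have e3 : (1 + 1 + 1 : ℕ) = 3 := by norm_num
  have e4 : (1 + 1 + 1 + 1 : ℕ) = 4 := by norm_num
  have e2 : (1 + 1 : ℕ) = 2 := by norm_num
  rw [e4, e3, e2, h3, ht4, htp']
  by_cases hf2 : f = 4
  · rw [if_pos hf2] at h4 hβ1
    linarith
  · rw [if_neg hf2] at h4 hβ1
    linarith

end Pool.Agent.R80.WF
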