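import Pool.Agent.R80.WF.Root
import Pool.Agent.R80.WF.Noi
import Pool.Agent.R80.WF.Nd
import Pool.Agent.R80.WF.G4
import Pool.Agent.R80.WF.Pos3
import Pool.Agent.Y676.WP.OneTwo

set_option autoImplicit false

namespace Pool.Agent.R80.WF

open Polynomial

theorem good42 {p : ℕ} (hp : p.Prime) (hp2 : p ≠ 2) : Good p 4 2 := by
  have hodd : p % 2 = 1 := by
    rcases hp.eq_two_or_odd with h | h
    · exact absurd h hp2
    · exact h
  have hp3 : 3 ≤ p := by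
    have := hp.two_le
    omega
  have ho : Opt p 4 2 0 (2 * p) := by
    refine ⟨fun _ => Or.inl rfl, fun h => by omega, fun _ => Or.inr rfl, fun h => by omega,
      fun h => by omega⟩
  obtain ⟨q, hq⟩ : ∃ q : ℤ, (p : ℤ) = 2 * q + 1 := ⟨(p : ℤ) / 2, by omega⟩
  have e0 : aa p 4 2 0 (2 * p) 0 = 1 := by simp [aa]
  have e1 : aa p 4 2 0 (2 * p) 1 = 0 := by simp [aa, par]
  have e2 : aa p 4 2 0 (2 * p) 2 = 2 := by simp [aa, par]
  have e3 : aa p 4 2 0 (2 * p) 3 = 2 * p := by simp [aa]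
  have e4 : aa p 4 2 0 (2 * p) 4 = 0 := by simp [aa]
  refine good_of noi nd hp hodd (by norm_num) (by norm_num) (a := aa p 4 2 0 (2 * p)) e0
    (fun i h1 h2 => aa_par hodd (by norm_num) (by omega) i h1 h2) ?_ (Or.inr ?_)
    (fun i h1 h2 => aa_div ho i h1 h2) (aa_nd hp3 hp ho (by norm_num)) (g4 p hp3)
  · rw [ev_PP]
    simp only [Finset.sum_range_succ, Finset.sum_range_zero, e0, e1, e2, e3, e4,
      Nat.choose_zero_right]
    have : (0 : ℤ) + 1 * (((1 : ℕ) : ℤ) + (p : ℤ) ^ (4 - 0) * ((1 : ℕ) : ℤ)) + 0 * (((1 : ℕ) : ℤ) + (p : ℤ) ^ (4 - 1) * ((1 : ℕ) : ℤ)) +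
        2 * (((1 : ℕ) : ℤ) + (p : ℤ) ^ (4 - 2) * ((1 : ℕ) : ℤ)) + 2 * (p : ℤ) * (((1 : ℕ) : ℤ) + (p : ℤ) ^ (4 - 3) * ((1 : ℕ) : ℤ)) + 0 * ((1 : ℕ) : ℤ)
        = 4 * (4 * q ^ 4 + 8 * q ^ 3 + 10 * q ^ 2 + 7 * q + 2) + 2 := by
      rw [hq]
      push_cast
      ring
    rw [this]
    omega
  · rw [ev_PP]
    simp only [Finset.sum_range_succ, Finset.sum_range_zero, e0, e1, e2, e3, e4]
    have c1 : (2 * 4 - 0).choose 3 = 56 := by decide
    have c2 : (2 * 4 - 1).choose 3 = 35 := by decide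
    have c3 : (2 * 4 - 2).choose 3 = 20 := by decide
    have c4 : (2 * 4 - 3).choose 3 = 10 := by decide
    have d1 : (0 : ℕ).choose 3 = 0 := by decide
    have d2 : (1 : ℕ).choose 3 = 0 := by decide
    have d3 : (2 : ℕ).choose 3 = 0 := by decide
    have d4 : (3 : ℕ).choose 3 = 1 := by decide
    have d5 : (4 : ℕ).choose 3 = 4 := by decide
    rw [c1, c2, c3, c4, d1, d2, d3, d4, d5, hq]
    have : (0 : ℤ) + 1 * (((56 : ℕ) : ℤ) + (2 * q + 1) ^ (4 - 0) * ((0 : ℕ) : ℤ)) + 0 * (((35 : ℕ) : ℤ) + (2 * q + 1) ^ (4 - 1) * ((0 : ℕ) : ℤ)) +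
        2 * (((20 : ℕ) : ℤ) + (2 * q + 1) ^ (4 - 2) * ((0 : ℕ) : ℤ)) + 2 * (2 * q + 1) * (((10 : ℕ) : ℤ) + (2 * q + 1) ^ (4 - 3) * ((1 : ℕ) : ℤ)) + 0 * ((4 : ℕ) : ℤ)
        = 4 * (2 * q ^ 2 + 12 * q + 29) + 2 := by
      push_cast
      ring
    rw [this]
    omega

/-- all odd primes, `1 ≤ f ≤ g`, `g ≥ 3` -/
theorem odd_main (hP3A : S_P3A) (hP3B : S_P3B) {p g f : ℕ} (hp : p.Prime) (hp2 : p ≠ 2)
    (hg : 3 ≤ g) (hf : 1 ≤ f) (hfg : f ≤ g) : Good p g f := by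
  have hp3 : 3 ≤ p := by
    have := hp.two_le
    omega
  by_cases hf1 : f = 1
  · subst hf1
    exact Pool.Agent.Y676.WP.one_final hp (by omega)
  have hf2 : 2 ≤ f := by omega
  by_cases h42 : g = 4 ∧ f = 2
  · obtain ⟨rfl, rfl⟩ := h42
    exact good42 hp hp2
  by_cases hp5 : 5 ≤ p
  · exact good_all root noi nd hp hp3 hg hf2 hfg fun u w ho => pos5 hp5 hg hf2 hfg h42 ho
  · have h3 : p = 3 := by
      have h4 : p ≠ 4 := by
        rintro rfl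
        exact absurd hp (by norm_num)
      omega
    subst h3
    by_cases hg7 : 7 ≤ g
    · by_cases hf4 : 4 ≤ f
      · exact good_all root noi nd hp hp3 hg hf2 hfg fun u w ho => pos3 hg7 hf4 hfg ho
      · exact good_all root noi nd hp hp3 hg hf2 hfg
          fun u w ho => hP3A g f u w hg7 hf2 (by omega) ho
    · obtain ⟨u, w, ho, h0, h3, hpos⟩ := hP3B g f hg (by omega) hf2 hfg h42
      exact good_aa root noi nd hp hp3 hg hf2 hfg ho h0 h3 hpos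

end Pool.Agent.R80.WF
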