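import Pool.Agent.R80.WF.Seq

/-!
# WF-P3A: positivity of the cosine polynomials for `p = 3`, `f = 2, 3`, `g ≥ 7` (MP_e32a7e_nt)
-/

set_option autoImplicit false

namespace Pool.Agent.R80.WF

open Finset

namespace P3A

/-- the tail -/
theorem reg (A C : ℕ → ℝ) (t : ℝ) (ht : t ^ 2 = 1 / 3) (hC : ∀ i, |C i| ≤ 1) (m : ℕ)
    (hm : 3 ≤ m) : (∀ i, 5 ≤ i → i < 2 * m + 1 → i % 2 = 1 → A i = 0) →
    (∀ i, 5 ≤ i → i < 2 * m + 1 → 0 ≤ A i ∧ A i ≤ 3) →
    |∑ i ∈ range (2 * m + 1), A i * t ^ i * C i - ∑ i ∈ range 5, A i * t ^ i * C i| ≤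
      1 / 6 - 3 / 2 * (1 / 3) ^ m := by
  have hterm : ∀ k : ℕ, 0 ≤ A (2 * k) ∧ A (2 * k) ≤ 3 →
      |A (2 * k) * t ^ (2 * k) * C (2 * k)| ≤ 3 * (1 / 3) ^ k := by
    intro k hk
    rw [pow_mul, ht, abs_mul, abs_mul, abs_of_nonneg hk.1,
      abs_of_nonneg (by positivity : (0 : ℝ) ≤ (1 / 3) ^ k)]
    have h1 : (0 : ℝ) ≤ (1 / 3) ^ k := by positivity
    calc A (2 * k) * (1 / 3) ^ k * |C (2 * k)| ≤ A (2 * k) * (1 / 3) ^ k * 1 :=
          mul_le_mul_of_nonneg_left (hC _) (mul_nonneg hk.1 h1)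
      _ ≤ 3 * (1 / 3) ^ k := by
          rw [mul_one]
          exact mul_le_mul_of_nonneg_right hk.2 h1
  induction m, hm using Nat.le_induction with
  | base =>
    intro h1 h2
    have e : ∑ i ∈ range (2 * 3 + 1), A i * t ^ i * C i - ∑ i ∈ range 5, A i * t ^ i * C i =
        A (2 * 3) * t ^ (2 * 3) * C (2 * 3) := by
      rw [show 2 * 3 + 1 = 5 + 1 + 1 by norm_num, sum_range_succ, sum_range_succ,
        h1 5 (by norm_num) (by norm_num) (by norm_num)]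
      ring
    rw [e]
    refine (hterm 3 (h2 6 (by norm_num) (by norm_num))).trans ?_
    norm_num
  | succ m hm ih =>
    intro h1 h2
    have ih' := ih (fun i hi1 hi2 => h1 i hi1 (by omega)) (fun i hi1 hi2 => h2 i hi1 (by omega))
    have e : ∑ i ∈ range (2 * (m + 1) + 1), A i * t ^ i * C i -
        ∑ i ∈ range 5, A i * t ^ i * C i =
        (∑ i ∈ range (2 * m + 1), A i * t ^ i * C i - ∑ i ∈ range 5, A i * t ^ i * C i) +
        A (2 * (m + 1)) * t ^ (2 * (m + 1)) * C (2 * (m + 1)) := by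
      rw [show 2 * (m + 1) + 1 = (2 * m + 1) + 1 + 1 by ring, sum_range_succ, sum_range_succ,
        h1 (2 * m + 1) (by omega) (by omega) (by omega),
        show 2 * m + 1 + 1 = 2 * (m + 1) by ring]
      ring
    rw [e]
    refine (abs_add_le _ _).trans ((add_le_add ih'
      (hterm (m + 1) (h2 (2 * (m + 1)) (by omega) (by omega)))).trans ?_)
    rw [pow_succ]
    linarith

/-- the two small quartic polynomials -/
theorem q1 (x : ℝ) : 9.045 ≤ 36 - 24 * x ^ 2 + 8 * x ^ 4 + 8 * x ^ 3 - 18 * x := by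
  nlinarith [sq_nonneg (x ^ 2 + x / 2 - 1.73), sq_nonneg (x - 1.09), sq_nonneg (x ^ 2 - 1.19)]

theorem q2 (x : ℝ) : 6.3 ≤ 27 - 18 * x ^ 2 + 8 * x ^ 4 + 8 * x ^ 3 - 18 * x := by
  nlinarith [sq_nonneg (x ^ 2 + x / 2 - 1.45), sq_nonneg (x - 0.98), sq_nonneg (x ^ 2 - 0.96)]

/-- the main part -/
theorem main_part (t θ a2 a3 a4 δ : ℝ) (ht0 : 0 < t) (ht : t ^ 2 = 1 / 3) (ht1 : t < 0.57736)
    (h : (a3 = 0 ∧ (a4 = 0 ∨ a4 = 3) ∧ ((a2 = 2 ∧ δ = 0.333) ∨ (a2 = 1 ∧ δ = 0.25))) ∨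
      (a3 = 2 ∧ (a4 = 0 ∨ a4 = 3) ∧ ((a2 = 0 ∧ δ = 0.333) ∨ (a2 = 1 ∧ δ = 0.232)))) :
    δ < 1 + a2 * t ^ 2 * Real.cos (2 * θ) + a3 * t ^ 3 * Real.cos (3 * θ) +
      a4 * t ^ 4 * Real.cos (4 * θ) := by
  obtain ⟨c, hc⟩ : ∃ c, c = Real.cos θ := ⟨_, rfl⟩
  have c2 : Real.cos (2 * θ) = 2 * c ^ 2 - 1 := by rw [Real.cos_two_mul, hc]
  have c3 : Real.cos (3 * θ) = 4 * c ^ 3 - 3 * c := by rw [Real.cos_three_mul, hc]
  have c4 : Real.cos (4 * θ) = 2 * (2 * c ^ 2 - 1) ^ 2 - 1 := by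
    rw [show 4 * θ = 2 * (2 * θ) by ring, Real.cos_two_mul, c2]
  have hc1 : -1 ≤ c := by rw [hc]; exact Real.neg_one_le_cos θ
  have hc1' : c ≤ 1 := by rw [hc]; exact Real.cos_le_one θ
  have h31 : -1 ≤ 4 * c ^ 3 - 3 * c := by rw [← c3]; exact Real.neg_one_le_cos _
  have ht3 : t ^ 3 = t / 3 := by rw [pow_succ, ht]; ring
  have ht4 : t ^ 4 = 1 / 9 := by rw [show t ^ 4 = (t ^ 2) ^ 2 by ring, ht]; norm_num
  rw [c2, c3, c4, ht, ht3, ht4]
  -- x = c / t
  obtain ⟨x, hx⟩ : ∃ x, x = 3 * t * c := ⟨_, rfl⟩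
  have hx2 : x ^ 2 = 3 * c ^ 2 := by
    rw [hx, show (3 * t * c) ^ 2 = 9 * t ^ 2 * c ^ 2 by ring, ht]; ring
  have hct : c * t = x / 3 := by rw [hx]; ring
  have hx3 : c ^ 3 * t = x ^ 3 / 9 := by
    rw [hx, show (3 * t * c) ^ 3 = 27 * t ^ 2 * t * c ^ 3 by ring, ht]; ring
  have hx4 : x ^ 4 = 9 * c ^ 4 := by
    rw [show x ^ 4 = (x ^ 2) ^ 2 by ring, hx2]; ring
  have hq1 := q1 x
  have hq2 := q2 x
  have hcc : c ^ 2 ≤ 1 := by nlinarith
  rcases h with ⟨rfl, h4, h2⟩ | ⟨rfl, h4, h2⟩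
  · rcases h4 with rfl | rfl <;> rcases h2 with ⟨rfl, rfl⟩ | ⟨rfl, rfl⟩
    · nlinarith [sq_nonneg c]
    · nlinarith [sq_nonneg c]
    · nlinarith [sq_nonneg (2 * c ^ 2 - 1 + 1 / 2)]
    · nlinarith [sq_nonneg (2 * c ^ 2 - 1 + 1 / 4)]
  · rcases h4 with rfl | rfl <;> rcases h2 with ⟨rfl, rfl⟩ | ⟨rfl, rfl⟩
    · nlinarith [mul_le_mul_of_nonneg_left h31 ht0.le]
    · nlinarith [mul_le_mul_of_nonneg_left h31 ht0.le, sq_nonneg c]
    · nlinarith
    · nlinarith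

end P3A

open P3A in
theorem p3a : S_P3A := by
  intro g f u w hg hf2 hf3 ho θ
  obtain ⟨t, htdef⟩ : ∃ t, t = (Real.sqrt ((3 : ℕ) : ℝ))⁻¹ := ⟨_, rfl⟩
  rw [← htdef]
  have hs : (0 : ℝ) < Real.sqrt ((3 : ℕ) : ℝ) := Real.sqrt_pos.2 (by norm_num)
  have ht0 : 0 < t := by rw [htdef]; exact inv_pos.2 hs
  have ht : t ^ 2 = 1 / 3 := by
    rw [htdef, inv_pow, Real.sq_sqrt (by norm_num)]
    norm_num
  have ht1 : t < 0.57736 := by
    by_contra hcon
    push Not at hcon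
    nlinarith
  have hthalf : t ≤ 1 := by linarith
  have ht7 : t ^ 7 = t / 27 := by
    rw [show t ^ 7 = (t ^ 2) ^ 3 * t by ring, ht]; ring
  have ht8 : t ^ 8 = 1 / 81 := by
    rw [show t ^ 8 = (t ^ 2) ^ 4 by ring, ht]; norm_num
  have hu : u = 0 ∨ u = 6 := by
    rcases ho.u1 (by omega) with h | h
    · exact Or.inl h
    · exact Or.inr (by rw [h]; norm_num)
  have hw : w = 0 ∨ w = 6 := by
    rcases ho.w1 (by omega) with h | h
    · exact Or.inl h
    · exact Or.inr (by rw [h]; norm_num)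
  have hC : ∀ i : ℕ, |Real.cos ((i : ℝ) * θ)| ≤ 1 := fun i => Real.abs_cos_le_one _
  -- values
  have hA0 : aa 3 g f u w 0 = 1 := by simp [aa]
  have hA1 : aa 3 g f u w 1 = 0 := by
    unfold aa par
    rw [if_neg (by norm_num), if_neg (by omega), if_neg (by omega), if_pos (by omega)]
    norm_num
  have hodd : ∀ i, 5 ≤ i → (g % 2 = 1 → i < g) → (g % 2 = 0 → i + 1 < g) → i % 2 = 1 →
      aa 3 g f u w i = 0 := by
    intro i h5 h1 h2 h3
    unfold aa par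
    rw [if_neg (by omega), if_neg (by omega), if_neg (by omega), if_neg (by omega),
      if_neg (by omega), if_neg (by omega), mul_zero]
  have hev : ∀ i, 4 ≤ i → (g % 2 = 1 → i < g) → (g % 2 = 0 → i + 1 < g) →
      aa 3 g f u w i = 0 ∨ aa 3 g f u w i = 3 := by
    intro i h5 h1 h2
    have hp := par_cases g i
    unfold aa
    rw [if_neg (by omega), if_neg (by omega), if_neg (by omega), if_neg (by omega),
      if_neg (by omega)]
    rcases hp with h | h <;> rw [h] <;> norm_num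
  have hA4 := hev 4 le_rfl (by omega) (by omega)
  have hA23 : (f = 2 ∧ aa 3 g f u w 3 = 0 ∧ aa 3 g f u w 2 = if g % 2 = 1 then 1 else 2) ∨
      (f = 3 ∧ aa 3 g f u w 3 = 2 ∧ aa 3 g f u w 2 = if g % 2 = 1 then 1 else 0) := by
    have hp2 : par g 2 = (g : ℤ) % 2 := by
      unfold par
      rw [if_pos (by norm_num), show 2 / 2 = 1 by norm_num, Nat.choose_one_right]
    have hp3 : par g 3 = 0 := by
      unfold par
      rw [if_neg (by norm_num)]
    rcases (by omega : f = 2 ∨ f = 3) with rfl | rfl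
    · left
      refine ⟨rfl, ?_, ?_⟩
      · unfold aa
        rw [if_neg (by omega), if_neg (by omega), if_neg (by omega), if_neg (by omega),
          if_neg (by omega), hp3, mul_zero]
      · unfold aa
        rw [if_neg (by omega), if_neg (by omega), if_neg (by omega), if_neg (by omega),
          if_pos rfl, hp2]
        by_cases h : g % 2 = 1
        · rw [if_pos (by omega), if_pos h]
        · rw [if_neg (by omega), if_neg h]
    · right
      refine ⟨rfl, ?_, ?_⟩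
      · unfold aa
        rw [if_neg (by omega), if_neg (by omega), if_neg (by omega), if_neg (by omega),
          if_pos rfl, hp3, if_neg (by norm_num)]
      · unfold aa
        rw [if_neg (by omega), if_neg (by omega), if_neg (by omega), if_pos (by norm_num), hp2]
        by_cases h : g % 2 = 1
        · rw [if_pos h]; omega
        · rw [if_neg h]; omega
  -- main part
  have e5 : ∑ i ∈ range 5, (aa 3 g f u w i : ℝ) * t ^ i * Real.cos ((i : ℝ) * θ) =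
      1 + (aa 3 g f u w 2 : ℝ) * t ^ 2 * Real.cos (2 * θ) +
        (aa 3 g f u w 3 : ℝ) * t ^ 3 * Real.cos (3 * θ) +
        (aa 3 g f u w 4 : ℝ) * t ^ 4 * Real.cos (4 * θ) := by
    rw [sum_range_succ, sum_range_succ, sum_range_succ, sum_range_succ, sum_range_succ,
      sum_range_zero, hA0, hA1]
    push_cast
    rw [zero_mul (θ : ℝ), Real.cos_zero]
    ring
  have hAg : aa 3 g f u w g = u := by
    unfold aa
    rw [if_neg (by omega), if_pos rfl]
  have hA4' : (aa 3 g f u w 4 : ℝ) = 0 ∨ (aa 3 g f u w 4 : ℝ) = 3 := by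
    rcases hA4 with h | h <;> rw [h] <;> norm_num
  have hu' : |(u : ℝ) / 2| ≤ 3 := by
    rcases hu with h | h <;> rw [h] <;> norm_num [abs_le]
  have hw' : |(w : ℝ)| ≤ 6 := by
    rcases hw with h | h <;> rw [h] <;> norm_num [abs_le]
  rcases (by omega : g % 2 = 1 ∨ g % 2 = 0) with hpar | hpar
  · -- odd `g`
    obtain ⟨m, hm⟩ : ∃ m, g = 2 * m + 1 := ⟨g / 2, by omega⟩
    have hR := reg (fun i => (aa 3 g f u w i : ℝ)) (fun i => Real.cos ((i : ℝ) * θ)) t ht hC m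
      (by omega) (fun i h1 h2 h3 => by
        show (aa 3 g f u w i : ℝ) = 0
        rw [hodd i h1 (by omega) (by omega) h3, Int.cast_zero])
      (fun i h1 h2 => by
        show 0 ≤ (aa 3 g f u w i : ℝ) ∧ (aa 3 g f u w i : ℝ) ≤ 3
        rcases hev i (by omega) (by omega) (by omega) with h | h <;> rw [h] <;> norm_num)
    have hM := main_part t θ (aa 3 g f u w 2) (aa 3 g f u w 3) (aa 3 g f u w 4) 0.232 ht0 ht ht1
    have hM' : (0.232 : ℝ) < 1 + (aa 3 g f u w 2 : ℝ) * t ^ 2 * Real.cos (2 * θ) +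
        (aa 3 g f u w 3 : ℝ) * t ^ 3 * Real.cos (3 * θ) +
        (aa 3 g f u w 4 : ℝ) * t ^ 4 * Real.cos (4 * θ) := by
      rcases hA23 with ⟨-, h3, h2⟩ | ⟨-, h3, h2⟩
      · rw [if_pos hpar] at h2
        have := main_part t θ (aa 3 g f u w 2) (aa 3 g f u w 3) (aa 3 g f u w 4) 0.25 ht0 ht ht1
          (Or.inl ⟨by rw [h3]; norm_num, hA4', Or.inr ⟨by rw [h2]; norm_num, rfl⟩⟩)
        linarith
      · rw [if_pos hpar] at h2
        exact hM (Or.inr ⟨by rw [h3]; norm_num, hA4', Or.inr ⟨by rw [h2]; norm_num, rfl⟩⟩)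
    have htg : t ^ g ≤ t ^ 7 := pow_le_pow_of_le_one ht0.le hthalf hg
    have hU : |(aa 3 g f u w g : ℝ) / 2 * t ^ g * Real.cos ((g : ℝ) * θ)| ≤ 3 * t ^ 7 := by
      rw [hAg, abs_mul, abs_mul, abs_of_nonneg (by positivity : 0 ≤ t ^ g)]
      calc |(u : ℝ) / 2| * t ^ g * |Real.cos ((g : ℝ) * θ)| ≤ |(u : ℝ) / 2| * t ^ g * 1 :=
            mul_le_mul_of_nonneg_left (hC g) (by positivity)
        _ ≤ 3 * t ^ 7 := by
            rw [mul_one]
            exact mul_le_mul hu' htg (by positivity) (by norm_num)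
    have hpm : (0 : ℝ) ≤ 3 / 2 * (1 / 3) ^ m := by positivity
    rw [← hm] at hR
    have h1 := (abs_le.1 hR).1
    have h2 := (abs_le.1 hU).1
    rw [e5] at h1
    rw [ht7] at h2
    linarith
  · -- even `g`
    obtain ⟨m, hm⟩ : ∃ m, g = 2 * m + 1 + 1 := ⟨g / 2 - 1, by omega⟩
    have hR := reg (fun i => (aa 3 g f u w i : ℝ)) (fun i => Real.cos ((i : ℝ) * θ)) t ht hC m
      (by omega) (fun i h1 h2 h3 => by
        show (aa 3 g f u w i : ℝ) = 0
        rw [hodd i h1 (by omega) (by omega) h3, Int.cast_zero])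
      (fun i h1 h2 => by
        show 0 ≤ (aa 3 g f u w i : ℝ) ∧ (aa 3 g f u w i : ℝ) ≤ 3
        rcases hev i (by omega) (by omega) (by omega) with h | h <;> rw [h] <;> norm_num)
    have hM' : (0.333 : ℝ) < 1 + (aa 3 g f u w 2 : ℝ) * t ^ 2 * Real.cos (2 * θ) +
        (aa 3 g f u w 3 : ℝ) * t ^ 3 * Real.cos (3 * θ) +
        (aa 3 g f u w 4 : ℝ) * t ^ 4 * Real.cos (4 * θ) := by
      rcases hA23 with ⟨-, h3, h2⟩ | ⟨-, h3, h2⟩
      · rw [if_neg (by omega)] at h2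
        exact main_part t θ (aa 3 g f u w 2) (aa 3 g f u w 3) (aa 3 g f u w 4) 0.333 ht0 ht ht1
          (Or.inl ⟨by rw [h3]; norm_num, hA4', Or.inl ⟨by rw [h2]; norm_num, rfl⟩⟩)
      · rw [if_neg (by omega)] at h2
        exact main_part t θ (aa 3 g f u w 2) (aa 3 g f u w 3) (aa 3 g f u w 4) 0.333 ht0 ht ht1
          (Or.inr ⟨by rw [h3]; norm_num, hA4', Or.inl ⟨by rw [h2]; norm_num, rfl⟩⟩)
    have hsum : ∑ i ∈ range g, (aa 3 g f u w i : ℝ) * t ^ i * Real.cos ((i : ℝ) * θ) =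
        ∑ i ∈ range (2 * m + 1), (aa 3 g f u w i : ℝ) * t ^ i * Real.cos ((i : ℝ) * θ) +
          (w : ℝ) * t ^ (2 * m + 1) * Real.cos (((2 * m + 1 : ℕ) : ℝ) * θ) := by
      have hA : aa 3 g f u w (2 * m + 1) = w := by
        unfold aa
        rw [if_neg (by omega), if_neg (by omega), if_pos (by omega)]
      conv_lhs => rw [show range g = range (2 * m + 1 + 1) by rw [hm]]
      rw [sum_range_succ, hA]
    have htg : t ^ g ≤ t ^ 8 := pow_le_pow_of_le_one ht0.le hthalf (by omega)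
    have htg' : t ^ (2 * m + 1) ≤ t ^ 7 := pow_le_pow_of_le_one ht0.le hthalf (by omega)
    have hU : |(aa 3 g f u w g : ℝ) / 2 * t ^ g * Real.cos ((g : ℝ) * θ)| ≤ 3 * t ^ 8 := by
      rw [hAg, abs_mul, abs_mul, abs_of_nonneg (by positivity : 0 ≤ t ^ g)]
      calc |(u : ℝ) / 2| * t ^ g * |Real.cos ((g : ℝ) * θ)| ≤ |(u : ℝ) / 2| * t ^ g * 1 :=
            mul_le_mul_of_nonneg_left (hC g) (by positivity)
        _ ≤ 3 * t ^ 8 := by
            rw [mul_one]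
            exact mul_le_mul hu' htg (by positivity) (by norm_num)
    have hW : |(w : ℝ) * t ^ (2 * m + 1) * Real.cos (((2 * m + 1 : ℕ) : ℝ) * θ)| ≤ 6 * t ^ 7 := by
      rw [abs_mul, abs_mul, abs_of_nonneg (by positivity : 0 ≤ t ^ (2 * m + 1))]
      calc |(w : ℝ)| * t ^ (2 * m + 1) * |Real.cos (((2 * m + 1 : ℕ) : ℝ) * θ)|
          ≤ |(w : ℝ)| * t ^ (2 * m + 1) * 1 :=
            mul_le_mul_of_nonneg_left (hC _) (by positivity)
        _ ≤ 6 * t ^ 7 := by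
            rw [mul_one]
            exact mul_le_mul hw' htg' (by positivity) (by norm_num)
    have hpm : (0 : ℝ) ≤ 3 / 2 * (1 / 3) ^ m := by positivity
    rw [hsum]
    have h1 := (abs_le.1 hR).1
    have h2 := (abs_le.1 hU).1
    have h3 := (abs_le.1 hW).1
    rw [e5] at h1
    rw [ht8] at h2
    rw [ht7] at h3
    linarith

end Pool.Agent.R80.WF
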