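import Pool.Agent.R80.WF.Seq

/-!
# WF-P3B: `p = 3`, `g ≤ 6`, thirteen explicit cases
-/

set_option autoImplicit false

namespace Pool.Agent.R80.WF

open Polynomial

theorem p3b_lemma (t : ℝ) (ht : 0 < t) (a : ℕ → ℝ) (g : ℕ) (hg : 1 ≤ g) (ha : ∀ i, 0 ≤ a i)
    (h0 : a 0 = 1) (hs : ∑ i ∈ Finset.range g, a i * t ^ i + a g / 2 * t ^ g < 2) (θ : ℝ) :
    0 < ∑ i ∈ Finset.range g, a i * t ^ i * Real.cos (i * θ)
      + a g / 2 * t ^ g * Real.cos (g * θ) := by
  have h1 : (2 : ℝ) ≤ ∑ i ∈ Finset.range g, a i * t ^ i * (1 + Real.cos (i * θ)) := by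
    have h2 : a 0 * t ^ 0 * (1 + Real.cos ((0 : ℕ) * θ)) ≤
        ∑ i ∈ Finset.range g, a i * t ^ i * (1 + Real.cos (i * θ)) := by
      refine Finset.single_le_sum (f := fun i : ℕ => a i * t ^ i * (1 + Real.cos (i * θ)))
        (fun i _ => ?_) (Finset.mem_range.2 (by omega))
      refine mul_nonneg (mul_nonneg (ha i) (pow_pos ht i).le) ?_
      have := Real.neg_one_le_cos (i * θ)
      linarith
    rw [h0] at h2
    simp only [pow_zero, Nat.cast_zero, zero_mul, Real.cos_zero] at h2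
    linarith
  have h3 : 0 ≤ a g / 2 * t ^ g * (1 + Real.cos (g * θ)) := by
    refine mul_nonneg (mul_nonneg (by have := ha g; linarith) (pow_pos ht g).le) ?_
    have := Real.neg_one_le_cos (g * θ)
    linarith
  have h4 : ∑ i ∈ Finset.range g, a i * t ^ i * (1 + Real.cos (i * θ)) =
      ∑ i ∈ Finset.range g, a i * t ^ i + ∑ i ∈ Finset.range g, a i * t ^ i * Real.cos (i * θ) := by
    rw [← Finset.sum_add_distrib]
    exact Finset.sum_congr rfl fun i _ => by ring
  rw [h4] at h1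
  nlinarith

theorem p3b_t : 0 < (Real.sqrt ((3 : ℕ) : ℝ))⁻¹ ∧ (Real.sqrt ((3 : ℕ) : ℝ))⁻¹ ^ 2 = 1 / 3 := by
  constructor
  · positivity
  · rw [inv_pow, Real.sq_sqrt (by positivity)]
    norm_num

/-- nonnegativity of the coefficients -/
theorem aa_nonneg (g f : ℕ) (u w : ℤ) (hu : 0 ≤ u) (hw : 0 ≤ w) (i : ℕ) :
    0 ≤ aa 3 g f u w i := by
  have hpar := par_cases g i
  unfold aa
  split_ifs <;> first | positivity | (rcases hpar with h | h <;> rw [h] <;> norm_num)

theorem pos_of_sum_b (g f : ℕ) (u w : ℤ) (hg : 1 ≤ g) (hu : 0 ≤ u) (hw : 0 ≤ w)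
    (hs : ∀ t : ℝ, 0 < t → t < 0.5774 → t ^ 2 = 1 / 3 → t ^ 3 = t / 3 → t ^ 4 = 1 / 9 →
      t ^ 5 = t / 9 → t ^ 6 = 1 / 27 →
      ∑ i ∈ Finset.range g, (aa 3 g f u w i : ℝ) * t ^ i + (aa 3 g f u w g : ℝ) / 2 * t ^ g < 2) :
    Pos 3 g f u w := by
  intro θ
  obtain ⟨ht, ht2⟩ := p3b_t
  refine p3b_lemma _ ht (fun i => (aa 3 g f u w i : ℝ)) g hg ?_ ?_ ?_ θ
  · intro i
    have := aa_nonneg g f u w hu hw i
    exact_mod_cast this
  · simp [aa]
  · refine hs _ ht ?_ ht2 ?_ ?_ ?_ ?_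
    · nlinarith
    · rw [pow_succ, ht2]; ring
    · have : ∀ x : ℝ, x ^ 4 = x ^ 2 * x ^ 2 := fun x => by ring
      rw [this, ht2]; norm_num
    · have : ∀ x : ℝ, x ^ 5 = x ^ 2 * x ^ 2 * x := fun x => by ring
      rw [this, ht2]; ring
    · have : ∀ x : ℝ, x ^ 6 = x ^ 2 * x ^ 2 * x ^ 2 := fun x => by ring
      rw [this, ht2]; norm_num

theorem pos62 : Pos 3 6 2 6 6 := by
  intro θ
  obtain ⟨ht, ht2⟩ := p3b_t
  set t := (Real.sqrt ((3 : ℕ) : ℝ))⁻¹ with htdef
  have ht1 : t < 0.5774 := by nlinarith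
  have ht5 : t ^ 5 = t / 9 := by
    have : t ^ 5 = t ^ 2 * t ^ 2 * t := by ring
    rw [this, ht2]; ring
  have ht4 : t ^ 4 = 1 / 9 := by
    have : t ^ 4 = t ^ 2 * t ^ 2 := by ring
    rw [this, ht2]; norm_num
  have ht6 : t ^ 6 = 1 / 27 := by
    have : t ^ 6 = t ^ 2 * t ^ 2 * t ^ 2 := by ring
    rw [this, ht2]; norm_num
  have e0 : aa 3 6 2 6 6 0 = 1 := by decide
  have e1 : aa 3 6 2 6 6 1 = 0 := by decide
  have e2 : aa 3 6 2 6 6 2 = 2 := by decide
  have e3 : aa 3 6 2 6 6 3 = 0 := by decide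
  have e4 : aa 3 6 2 6 6 4 = 3 := by decide
  have e5 : aa 3 6 2 6 6 5 = 6 := by decide
  have e6 : aa 3 6 2 6 6 6 = 6 := by decide
  simp only [Finset.sum_range_succ, Finset.sum_range_zero, e0, e1, e2, e3, e4, e5, e6, ht2, ht4,
    ht5, ht6]
  have hc4 : Real.cos (((4 : ℕ) : ℝ) * θ) = 2 * Real.cos (((2 : ℕ) : ℝ) * θ) ^ 2 - 1 := by
    rw [← Real.cos_two_mul]
    congr 1
    push_cast
    ring
  rw [hc4]
  have h5 := Real.neg_one_le_cos (((5 : ℕ) : ℝ) * θ)
  have h6 := Real.neg_one_le_cos (((6 : ℕ) : ℝ) * θ)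
  simp only [Nat.cast_zero, zero_mul, Real.cos_zero, Int.cast_zero, Int.cast_one, Int.cast_ofNat]
  generalize Real.cos (((2 : ℕ) : ℝ) * θ) = c at *
  generalize Real.cos (((5 : ℕ) : ℝ) * θ) = x at *
  generalize Real.cos (((6 : ℕ) : ℝ) * θ) = y at *
  have h5' : 0 ≤ t * (x + 1) := mul_nonneg ht.le (by linarith)
  have h8 := sq_nonneg (c + 1 / 2)
  nlinarith

theorem p3b : S_P3B := by
  intro g f hg3 hg6 hf2 hfg hne
  interval_cases g <;> interval_cases f
  · -- (3,2)
    refine ⟨6, 2, ⟨by decide, by decide, by decide, by decide, by decide⟩, ?_, ?_, ?_⟩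
    · rw [ev_PP]; decide
    · left; rfl
    · refine pos_of_sum_b 3 2 6 2 (by decide) (by decide) (by decide) fun t h0 h1 h2 h3 h4 h5 h6 => ?_
      have e0 : aa 3 3 2 6 2 0 = 1 := by decide
      have e1 : aa 3 3 2 6 2 1 = 0 := by decide
      have e2 : aa 3 3 2 6 2 2 = 1 := by decide
      have e3 : aa 3 3 2 6 2 3 = 6 := by decide
      simp only [Finset.sum_range_succ, Finset.sum_range_zero, e0, e1, e2, e3, h2, h3, h4, h5, h6]
      norm_num
      try linarith
  · -- (3,3)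
    refine ⟨2, 0, ⟨by decide, by decide, by decide, by decide, by decide⟩, ?_, ?_, ?_⟩
    · rw [ev_PP]; decide
    · left; rfl
    · refine pos_of_sum_b 3 3 2 0 (by decide) (by decide) (by decide) fun t h0 h1 h2 h3 h4 h5 h6 => ?_
      have e0 : aa 3 3 3 2 0 0 = 1 := by decide
      have e1 : aa 3 3 3 2 0 1 = 0 := by decide
      have e2 : aa 3 3 3 2 0 2 = 1 := by decide
      have e3 : aa 3 3 3 2 0 3 = 2 := by decide
      simp only [Finset.sum_range_succ, Finset.sum_range_zero, e0, e1, e2, e3, h2, h3, h4, h5, h6]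
      norm_num
      try linarith
  · exact absurd ⟨rfl, rfl⟩ hne
  · -- (4,3)
    refine ⟨0, 2, ⟨by decide, by decide, by decide, by decide, by decide⟩, ?_, ?_, ?_⟩
    · rw [ev_PP]; decide
    · right; rw [ev_PP]; decide
    · refine pos_of_sum_b 4 3 0 2 (by decide) (by decide) (by decide) fun t h0 h1 h2 h3 h4 h5 h6 => ?_
      have e0 : aa 3 4 3 0 2 0 = 1 := by decide
      have e1 : aa 3 4 3 0 2 1 = 0 := by decide
      have e2 : aa 3 4 3 0 2 2 = 0 := by decide
      have e3 : aa 3 4 3 0 2 3 = 2 := by decide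
      have e4 : aa 3 4 3 0 2 4 = 0 := by decide
      simp only [Finset.sum_range_succ, Finset.sum_range_zero, e0, e1, e2, e3, e4, h2, h3, h4, h5, h6]
      norm_num
      try linarith
  · -- (4,4)
    refine ⟨4, 2, ⟨by decide, by decide, by decide, by decide, by decide⟩, ?_, ?_, ?_⟩
    · rw [ev_PP]; decide
    · right; rw [ev_PP]; decide
    · refine pos_of_sum_b 4 4 4 2 (by decide) (by decide) (by decide) fun t h0 h1 h2 h3 h4 h5 h6 => ?_
      have e0 : aa 3 4 4 4 2 0 = 1 := by decide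
      have e1 : aa 3 4 4 4 2 1 = 0 := by decide
      have e2 : aa 3 4 4 4 2 2 = 0 := by decide
      have e3 : aa 3 4 4 4 2 3 = 2 := by decide
      have e4 : aa 3 4 4 4 2 4 = 4 := by decide
      simp only [Finset.sum_range_succ, Finset.sum_range_zero, e0, e1, e2, e3, e4, h2, h3, h4, h5, h6]
      norm_num
      try linarith
  · -- (5,2)
    refine ⟨6, 0, ⟨by decide, by decide, by decide, by decide, by decide⟩, ?_, ?_, ?_⟩
    · rw [ev_PP]; decide
    · left; rfl
    · refine pos_of_sum_b 5 2 6 0 (by decide) (by decide) (by decide) fun t h0 h1 h2 h3 h4 h5 h6 => ?_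
      have e0 : aa 3 5 2 6 0 0 = 1 := by decide
      have e1 : aa 3 5 2 6 0 1 = 0 := by decide
      have e2 : aa 3 5 2 6 0 2 = 1 := by decide
      have e3 : aa 3 5 2 6 0 3 = 0 := by decide
      have e4 : aa 3 5 2 6 0 4 = 0 := by decide
      have e5 : aa 3 5 2 6 0 5 = 6 := by decide
      simp only [Finset.sum_range_succ, Finset.sum_range_zero, e0, e1, e2, e3, e4, e5, h2, h3, h4, h5, h6]
      norm_num
      try linarith
  · -- (5,3)
    refine ⟨6, 0, ⟨by decide, by decide, by decide, by decide, by decide⟩, ?_, ?_, ?_⟩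
    · rw [ev_PP]; decide
    · left; rfl
    · refine pos_of_sum_b 5 3 6 0 (by decide) (by decide) (by decide) fun t h0 h1 h2 h3 h4 h5 h6 => ?_
      have e0 : aa 3 5 3 6 0 0 = 1 := by decide
      have e1 : aa 3 5 3 6 0 1 = 0 := by decide
      have e2 : aa 3 5 3 6 0 2 = 1 := by decide
      have e3 : aa 3 5 3 6 0 3 = 2 := by decide
      have e4 : aa 3 5 3 6 0 4 = 0 := by decide
      have e5 : aa 3 5 3 6 0 5 = 6 := by decide
      simp only [Finset.sum_range_succ, Finset.sum_range_zero, e0, e1, e2, e3, e4, e5, h2, h3, h4, h5, h6]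
      norm_num
      try linarith
  · -- (5,4)
    refine ⟨6, 2, ⟨by decide, by decide, by decide, by decide, by decide⟩, ?_, ?_, ?_⟩
    · rw [ev_PP]; decide
    · left; rfl
    · refine pos_of_sum_b 5 4 6 2 (by decide) (by decide) (by decide) fun t h0 h1 h2 h3 h4 h5 h6 => ?_
      have e0 : aa 3 5 4 6 2 0 = 1 := by decide
      have e1 : aa 3 5 4 6 2 1 = 0 := by decide
      have e2 : aa 3 5 4 6 2 2 = 1 := by decide
      have e3 : aa 3 5 4 6 2 3 = 0 := by decide
      have e4 : aa 3 5 4 6 2 4 = 2 := by decide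
      have e5 : aa 3 5 4 6 2 5 = 6 := by decide
      simp only [Finset.sum_range_succ, Finset.sum_range_zero, e0, e1, e2, e3, e4, e5, h2, h3, h4, h5, h6]
      norm_num
      try linarith
  · -- (5,5)
    refine ⟨2, 0, ⟨by decide, by decide, by decide, by decide, by decide⟩, ?_, ?_, ?_⟩
    · rw [ev_PP]; decide
    · left; rfl
    · refine pos_of_sum_b 5 5 2 0 (by decide) (by decide) (by decide) fun t h0 h1 h2 h3 h4 h5 h6 => ?_
      have e0 : aa 3 5 5 2 0 0 = 1 := by decide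
      have e1 : aa 3 5 5 2 0 1 = 0 := by decide
      have e2 : aa 3 5 5 2 0 2 = 1 := by decide
      have e3 : aa 3 5 5 2 0 3 = 0 := by decide
      have e4 : aa 3 5 5 2 0 4 = 0 := by decide
      have e5 : aa 3 5 5 2 0 5 = 2 := by decide
      simp only [Finset.sum_range_succ, Finset.sum_range_zero, e0, e1, e2, e3, e4, e5, h2, h3, h4, h5, h6]
      norm_num
      try linarith
  · -- (6,2)
    refine ⟨6, 6, ⟨by decide, by decide, by decide, by decide, by decide⟩, ?_, ?_, ?_⟩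
    · rw [ev_PP]; decide
    · right; rw [ev_PP]; decide
    · exact pos62
  · -- (6,3)
    refine ⟨6, 0, ⟨by decide, by decide, by decide, by decide, by decide⟩, ?_, ?_, ?_⟩
    · rw [ev_PP]; decide
    · right; rw [ev_PP]; decide
    · refine pos_of_sum_b 6 3 6 0 (by decide) (by decide) (by decide) fun t h0 h1 h2 h3 h4 h5 h6 => ?_
      have e0 : aa 3 6 3 6 0 0 = 1 := by decide
      have e1 : aa 3 6 3 6 0 1 = 0 := by decide
      have e2 : aa 3 6 3 6 0 2 = 0 := by decide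
      have e3 : aa 3 6 3 6 0 3 = 2 := by decide
      have e4 : aa 3 6 3 6 0 4 = 3 := by decide
      have e5 : aa 3 6 3 6 0 5 = 0 := by decide
      have e6 : aa 3 6 3 6 0 6 = 6 := by decide
      simp only [Finset.sum_range_succ, Finset.sum_range_zero, e0, e1, e2, e3, e4, e5, e6, h2, h3, h4, h5, h6]
      norm_num
      try linarith
  · -- (6,4)
    refine ⟨6, 6, ⟨by decide, by decide, by decide, by decide, by decide⟩, ?_, ?_, ?_⟩
    · rw [ev_PP]; decide
    · right; rw [ev_PP]; decide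
    · refine pos_of_sum_b 6 4 6 6 (by decide) (by decide) (by decide) fun t h0 h1 h2 h3 h4 h5 h6 => ?_
      have e0 : aa 3 6 4 6 6 0 = 1 := by decide
      have e1 : aa 3 6 4 6 6 1 = 0 := by decide
      have e2 : aa 3 6 4 6 6 2 = 0 := by decide
      have e3 : aa 3 6 4 6 6 3 = 0 := by decide
      have e4 : aa 3 6 4 6 6 4 = 1 := by decide
      have e5 : aa 3 6 4 6 6 5 = 6 := by decide
      have e6 : aa 3 6 4 6 6 6 = 6 := by decide
      simp only [Finset.sum_range_succ, Finset.sum_range_zero, e0, e1, e2, e3, e4, e5, e6, h2, h3, h4, h5, h6]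
      norm_num
      try linarith
  · -- (6,5)
    refine ⟨6, 2, ⟨by decide, by decide, by decide, by decide, by decide⟩, ?_, ?_, ?_⟩
    · rw [ev_PP]; decide
    · right; rw [ev_PP]; decide
    · refine pos_of_sum_b 6 5 6 2 (by decide) (by decide) (by decide) fun t h0 h1 h2 h3 h4 h5 h6 => ?_
      have e0 : aa 3 6 5 6 2 0 = 1 := by decide
      have e1 : aa 3 6 5 6 2 1 = 0 := by decide
      have e2 : aa 3 6 5 6 2 2 = 0 := by decide
      have e3 : aa 3 6 5 6 2 3 = 0 := by decide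
      have e4 : aa 3 6 5 6 2 4 = 1 := by decide
      have e5 : aa 3 6 5 6 2 5 = 2 := by decide
      have e6 : aa 3 6 5 6 2 6 = 6 := by decide
      simp only [Finset.sum_range_succ, Finset.sum_range_zero, e0, e1, e2, e3, e4, e5, e6, h2, h3, h4, h5, h6]
      norm_num
      try linarith
  · -- (6,6)
    refine ⟨2, 2, ⟨by decide, by decide, by decide, by decide, by decide⟩, ?_, ?_, ?_⟩
    · rw [ev_PP]; decide
    · right; rw [ev_PP]; decide
    · refine pos_of_sum_b 6 6 2 2 (by decide) (by decide) (by decide) fun t h0 h1 h2 h3 h4 h5 h6 => ?_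
      have e0 : aa 3 6 6 2 2 0 = 1 := by decide
      have e1 : aa 3 6 6 2 2 1 = 0 := by decide
      have e2 : aa 3 6 6 2 2 2 = 0 := by decide
      have e3 : aa 3 6 6 2 2 3 = 0 := by decide
      have e4 : aa 3 6 6 2 2 4 = 1 := by decide
      have e5 : aa 3 6 6 2 2 5 = 2 := by decide
      have e6 : aa 3 6 6 2 2 6 = 2 := by decide
      simp only [Finset.sum_range_succ, Finset.sum_range_zero, e0, e1, e2, e3, e4, e5, e6, h2, h3, h4, h5, h6]
      norm_num
      try linarith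

end Pool.Agent.R80.WF
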