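import Pool.Agent.R80.WF.Seq

set_option autoImplicit false

namespace Pool.Agent.R80.WF

open Polynomial

/-- bound of the cosine polynomial by the sum of the absolute values -/
theorem pos_of_sum {g : ℕ} {a : ℕ → ℤ} {t : ℝ} (ht : 0 ≤ t) (hg : 1 ≤ g) (ha0 : a 0 = 1)
    (h : ∑ i ∈ Finset.Ico 1 g, |(a i : ℝ)| * t ^ i + |(a g : ℝ)| / 2 * t ^ g < 1) (θ : ℝ) :
    0 < ∑ i ∈ Finset.range g, (a i : ℝ) * t ^ i * Real.cos (i * θ)
      + (a g : ℝ) / 2 * t ^ g * Real.cos (g * θ) := by
  have h1 : ∀ (x : ℝ) (n : ℕ) (s : ℝ), -(|x| * t ^ n) ≤ x * t ^ n * Real.cos s := by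
    intro x n s
    have h2 : |x * t ^ n * Real.cos s| ≤ |x| * t ^ n := by
      rw [abs_mul, abs_mul, abs_of_nonneg (pow_nonneg ht n)]
      have := Real.abs_cos_le_one s
      have h3 : 0 ≤ |x| * t ^ n := mul_nonneg (abs_nonneg _) (pow_nonneg ht n)
      nlinarith
    have := neg_abs_le (x * t ^ n * Real.cos s)
    linarith
  have h2 : ∑ i ∈ Finset.range g, (a i : ℝ) * t ^ i * Real.cos (i * θ) =
      1 + ∑ i ∈ Finset.Ico 1 g, (a i : ℝ) * t ^ i * Real.cos (i * θ) := by
    rw [Finset.range_eq_Ico, Finset.sum_eq_sum_Ico_succ_bot (by omega)]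
    simp [ha0]
  have h3 : -∑ i ∈ Finset.Ico 1 g, |(a i : ℝ)| * t ^ i ≤
      ∑ i ∈ Finset.Ico 1 g, (a i : ℝ) * t ^ i * Real.cos (i * θ) := by
    rw [← Finset.sum_neg_distrib]
    exact Finset.sum_le_sum fun i _ => h1 _ _ _
  have h4 := h1 ((a g : ℝ) / 2) g (g * θ)
  rw [abs_div, abs_of_pos (by norm_num : (0 : ℝ) < 2)] at h4
  rw [h2]
  linarith

theorem sum_major {s : Finset ℕ} {F A : ℕ → ℝ} {f g' : ℕ} {β δ : ℝ} (hβ : 0 ≤ β) (hδ : 0 ≤ δ)
    (h : ∀ i ∈ s, F i ≤ A i + (if i = f then β else 0) + (if i = g' then δ else 0)) :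
    ∑ i ∈ s, F i ≤ ∑ i ∈ s, A i + β + δ := by
  have h1 := Finset.sum_le_sum h
  rw [Finset.sum_add_distrib, Finset.sum_add_distrib, Finset.sum_ite_eq', Finset.sum_ite_eq'] at h1
  have h2 : (if f ∈ s then β else 0) ≤ β := by split_ifs <;> linarith
  have h3 : (if g' ∈ s then δ else 0) ≤ δ := by split_ifs <;> linarith
  linarith

/-- the geometric sum -/
theorem geom {t : ℝ} (k : ℕ) (hk : 1 ≤ k) (n : ℕ) (hn : 2 * k + 1 ≤ n) :
    (∑ i ∈ Finset.Ico (2 * k + 1) n, (if i % 2 = 0 then t ^ (i - 2) else 0)) * (1 - t ^ 2) =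
      t ^ (2 * k) - t ^ (2 * ((n - 1) / 2)) := by
  induction n, hn using Nat.le_induction with
  | base =>
    have : (2 * k + 1 - 1) / 2 = k := by omega
    rw [Finset.Ico_self, Finset.sum_empty, this]
    ring
  | succ n hn ih =>
    rw [Finset.sum_Ico_succ_top hn, add_mul, ih]
    by_cases h : n % 2 = 0
    · rw [if_pos h]
      obtain ⟨m, rfl⟩ : ∃ m, n = 2 * m + 2 := ⟨n / 2 - 1, by omega⟩
      have e1 : (2 * m + 2 - 1) / 2 = m := by omega
      have e2 : (2 * m + 2 + 1 - 1) / 2 = m + 1 := by omega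
      have e3 : 2 * m + 2 - 2 = 2 * m := by omega
      rw [e1, e2, e3]
      ring
    · rw [if_neg h]
      have e1 : (n - 1) / 2 = (n + 1 - 1) / 2 := by omega
      rw [e1]
      ring

theorem geom_le {t : ℝ} (ht : 0 ≤ t) (ht1 : t ^ 2 < 1) (k : ℕ) (hk : 1 ≤ k) (n : ℕ)
    (hn : 2 * k + 1 ≤ n) :
    ∑ i ∈ Finset.Ico (2 * k + 1) n, (if i % 2 = 0 then t ^ (i - 2) else 0) ≤
      t ^ (2 * k) / (1 - t ^ 2) := by
  rw [le_div_iff₀ (by linarith), geom k hk n hn]
  have : 0 ≤ t ^ (2 * ((n - 1) / 2)) := pow_nonneg ht _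
  linarith

/-- the pointwise bound -/
theorem aa_bound {p g f : ℕ} {u w : ℤ} {t : ℝ} (ht : 0 ≤ t) (htp : t ^ 2 * p = 1)
    (ht2 : 2 * t ^ 2 ≤ 1) (i : ℕ) (hi : 3 ≤ i) (hig : i < g) :
    |(aa p g f u w i : ℝ)| * t ^ i ≤ (if i % 2 = 0 then t ^ (i - 2) else 0)
      + (if i = f then (if f % 2 = 1 then 2 * t ^ f else 0) else 0)
      + (if i = g - 1 then (if g % 2 = 0 then |(w : ℝ)| * t ^ (g - 1) else 0) else 0) := by
  have ht3 : ∀ n, 0 ≤ t ^ n := fun n => pow_nonneg ht n
  have hA : 0 ≤ (if i % 2 = 0 then t ^ (i - 2) else 0) := by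
    split_ifs
    · exact ht3 _
    · exact le_rfl
  have hB : 0 ≤ (if i = f then (if f % 2 = 1 then 2 * t ^ f else 0) else 0) := by
    split_ifs
    · have := ht3 f; linarith
    · exact le_rfl
    · exact le_rfl
  have hD : 0 ≤ (if i = g - 1 then (if g % 2 = 0 then |(w : ℝ)| * t ^ (g - 1) else 0) else 0) := by
    split_ifs
    · exact mul_nonneg (abs_nonneg _) (ht3 _)
    · exact le_rfl
    · exact le_rfl
  obtain ⟨m, rfl⟩ : ∃ m, i = m + 2 := ⟨i - 2, by omega⟩
  have e2 : m + 2 - 2 = m := by omega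
  have htm : t ^ (m + 2) = t ^ m * t ^ 2 := pow_add t m 2
  unfold aa
  rw [if_neg (by omega), if_neg (by omega)]
  by_cases h1 : m + 2 + 1 = g ∧ g % 2 = 0
  · rw [if_pos h1, if_pos (show m + 2 = g - 1 by omega), if_pos h1.2]
    have : g - 1 = m + 2 := by omega
    rw [this]
    linarith
  · rw [if_neg h1]
    by_cases h2 : m + 2 < f
    · rw [if_pos h2]
      by_cases h3 : (m + 2) % 2 = 0
      · rw [if_pos h3, e2] at *
        have h5 : |((par g (m + 2) : ℤ) : ℝ)| ≤ 1 := by
          rcases par_cases g (m + 2) with h | h <;> rw [h] <;> norm_num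
        have h6 : t ^ (m + 2) ≤ t ^ m := by
          rw [htm]
          have := ht3 m
          nlinarith
        have h7 := ht3 (m + 2)
        nlinarith
      · have : par g (m + 2) = 0 := by rw [par, if_neg h3]
        rw [this]
        simp only [Int.cast_zero, abs_zero, zero_mul]
        linarith
    · rw [if_neg h2]
      by_cases h3 : m + 2 = f
      · rw [if_pos h3]
        by_cases h4 : (m + 2) % 2 = 0
        · rw [if_pos h4, e2] at *
          have h5 : |((if par g (m + 2) = 1 then 1 else 2 : ℤ) : ℝ)| ≤ 2 := by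
            split_ifs <;> norm_num
          have h6 : 2 * t ^ (m + 2) ≤ t ^ m := by
            rw [htm]
            have := ht3 m
            nlinarith
          have h7 := ht3 (m + 2)
          nlinarith
        · have h5 : par g (m + 2) = 0 := by rw [par, if_neg h4]
          rw [h5, if_neg (by norm_num), if_pos h3, if_pos (show f % 2 = 1 by omega)]
          have h6 : |((2 : ℤ) : ℝ)| = 2 := by norm_num
          rw [h6, ← h3]
          linarith
      · rw [if_neg h3]
        by_cases h4 : (m + 2) % 2 = 0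
        · rw [if_pos h4, e2] at *
          have h5 : |((p * par g (m + 2) : ℤ) : ℝ)| ≤ p := by
            rcases par_cases g (m + 2) with h | h <;> rw [h] <;> simp
          have h6 : (p : ℝ) * t ^ (m + 2) = t ^ m := by
            rw [htm]
            linear_combination (t ^ m) * htp
          have h7 := ht3 (m + 2)
          have h8 := mul_le_mul_of_nonneg_right h5 h7
          linarith
        · have h5 : par g (m + 2) = 0 := by rw [par, if_neg h4]
          rw [h5]
          simp only [mul_zero, Int.cast_zero, abs_zero, zero_mul]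
          linarith

/-- bound of the terms `u` and `w` -/
theorem u_bound {p g f : ℕ} {u w : ℤ} {t : ℝ} (ht : 0 ≤ t) (htp : t ^ 2 * p = 1)
    (ht2 : 2 * t ^ 2 ≤ 1) (ho : Opt p g f u w) (hg : 3 ≤ g) (hfg : f ≤ g) :
    |(aa p g f u w g : ℝ)| / 2 * t ^ g ≤ t ^ (g - 2) := by
  have e : aa p g f u w g = u := by
    unfold aa
    rw [if_neg (by omega), if_pos rfl]
  rw [e]
  obtain ⟨m, rfl⟩ : ∃ m, g = m + 2 := ⟨g - 2, by omega⟩
  have e2 : m + 2 - 2 = m := by omega
  rw [e2, pow_add]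
  have hm := pow_nonneg ht m
  rcases lt_or_eq_of_le hfg with h1 | h1
  · rcases ho.u1 h1 with h2 | h2 <;> rw [h2]
    · simp only [Int.cast_zero, abs_zero, zero_div, zero_mul]
      exact hm
    · have h3 : |((2 * p : ℤ) : ℝ)| = 2 * p := by
        push_cast
        rw [abs_of_nonneg (by positivity)]
      rw [h3]
      have : (2 * (p : ℝ)) / 2 * (t ^ m * t ^ 2) = t ^ m := by
        linear_combination (t ^ m) * htp
      linarith
  · rcases ho.u2 h1 with h2 | h2 <;> rw [h2]
    · have h3 : |((2 : ℤ) : ℝ)| = 2 := by norm_num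
      rw [h3]
      nlinarith
    · have h3 : |((4 : ℤ) : ℝ)| = 4 := by norm_num
      rw [h3]
      nlinarith

theorem w_bound {p g f : ℕ} {u w : ℤ} {t : ℝ} (ht : 0 ≤ t) (htp : t ^ 2 * p = 1)
    (ht2 : 2 * t ^ 2 ≤ 1) (ho : Opt p g f u w) (hg : 3 ≤ g) (hfg : f ≤ g) :
    |(w : ℝ)| * t ^ (g - 1) ≤ 2 * t ^ (g - 3) := by
  obtain ⟨m, rfl⟩ : ∃ m, g = m + 3 := ⟨g - 3, by omega⟩
  have e2 : m + 3 - 3 = m := by omega
  have e3 : m + 3 - 1 = m + 2 := by omega
  rw [e2, e3, pow_add]
  have hm := pow_nonneg ht m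
  rcases lt_or_eq_of_le hfg with h1 | h1
  · rcases lt_or_eq_of_le (Nat.succ_le_of_lt h1) with h4 | h4
    · rcases ho.w1 h4 with h2 | h2 <;> rw [h2]
      · simp only [Int.cast_zero, abs_zero, zero_mul]
        linarith
      · have h3 : |((2 * p : ℤ) : ℝ)| = 2 * p := by
          push_cast
          rw [abs_of_nonneg (by positivity)]
        rw [h3]
        have : (2 * (p : ℝ)) * (t ^ m * t ^ 2) = 2 * t ^ m := by
          linear_combination (2 * t ^ m) * htp
        linarith
    · rcases ho.w2 h4 with h2 | h2 <;> rw [h2]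
      · have h3 : |((2 : ℤ) : ℝ)| = 2 := by norm_num
        rw [h3]
        nlinarith
      · have h3 : |((4 : ℤ) : ℝ)| = 4 := by norm_num
        rw [h3]
        nlinarith
  · rcases ho.w3 h1 with h2 | h2 <;> rw [h2]
    · simp only [Int.cast_zero, abs_zero, zero_mul]
      linarith
    · have h3 : |((2 : ℤ) : ℝ)| = 2 := by norm_num
      rw [h3]
      nlinarith

theorem aa_one {p g f : ℕ} {u w : ℤ} (hg : 3 ≤ g) (hf : 2 ≤ f) : aa p g f u w 1 = 0 := by
  unfold aa
  rw [if_neg (by omega), if_neg (by omega), if_neg (by omega), if_pos (by omega)]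
  simp [par]

theorem aa_two_abs {p g f : ℕ} {u w : ℤ} (hg : 3 ≤ g) (hf : 2 ≤ f) :
    |(aa p g f u w 2 : ℝ)| ≤ if f = 2 then 2 else 1 := by
  unfold aa
  rw [if_neg (by omega), if_neg (by omega), if_neg (by omega)]
  by_cases h : f = 2
  · rw [if_neg (by omega), if_pos h.symm, if_pos h]
    split_ifs <;> norm_num
  · rw [if_pos (by omega), if_neg h]
    rcases par_cases g 2 with h | h <;> rw [h] <;> norm_num

/-- positivity for `p ≥ 5` -/
theorem pos5 {p g f : ℕ} {u w : ℤ} (hp : 5 ≤ p) (hg : 3 ≤ g) (hf : 2 ≤ f) (hfg : f ≤ g)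
    (hex : ¬ (g = 4 ∧ f = 2)) (ho : Opt p g f u w) : Pos p g f u w := by
  have hpr : (5 : ℝ) ≤ p := by exact_mod_cast hp
  have hsq : 0 < Real.sqrt p := Real.sqrt_pos.2 (by linarith)
  set t : ℝ := (Real.sqrt p)⁻¹ with ht
  have ht0 : 0 < t := inv_pos.2 hsq
  have htp : t ^ 2 * p = 1 := by
    rw [ht, inv_pow, Real.sq_sqrt (by linarith)]
    field_simp
  have ht5 : t ^ 2 ≤ 1 / 5 := by
    have : t ^ 2 = 1 / p := by
      field_simp
      exact htp
    rw [this]
    exact one_div_le_one_div_of_le (by norm_num) hpr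
  have ht2 : 2 * t ^ 2 ≤ 1 := by linarith
  have htu : t ≤ 0.4473 := by
    by_contra h
    push Not at h
    nlinarith
  have ht1 : t ≤ 1 := by linarith
  have ht3 : t ^ 3 ≤ 0.08946 := by
    have : t ^ 3 = t ^ 2 * t := by ring
    rw [this]
    nlinarith
  have hmono : ∀ {m n : ℕ}, m ≤ n → t ^ n ≤ t ^ m := fun h => pow_le_pow_of_le_one ht0.le ht1 h
  intro θ
  refine pos_of_sum ht0.le (by omega) (by simp [aa]) ?_ θ
  have hu := u_bound ht0.le htp ht2 ho hg hfg
  have hw := w_bound ht0.le htp ht2 ho hg hfg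
  have h1 : |(aa p g f u w 1 : ℝ)| * t ^ 1 = 0 := by rw [aa_one hg hf]; simp
  have h2 := aa_two_abs (p := p) (u := u) (w := w) hg hf
  have ht2' : 0 ≤ t ^ 2 := by positivity
  by_cases hg5 : 5 ≤ g
  · rw [Finset.sum_eq_sum_Ico_succ_bot (by omega), Finset.sum_eq_sum_Ico_succ_bot (by omega), h1]
    set β : ℝ := if f % 2 = 1 then 2 * t ^ f else 0 with hβ
    set δ : ℝ := if g % 2 = 0 then |(w : ℝ)| * t ^ (g - 1) else 0 with hδ
    have hβ0 : 0 ≤ β := by
      rw [hβ]
      split_ifs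
      · positivity
      · exact le_rfl
    have hδ0 : 0 ≤ δ := by
      rw [hδ]
      split_ifs
      · positivity
      · exact le_rfl
    have hβ1 : β ≤ if f = 2 then 0 else 2 * t ^ 3 := by
      rw [hβ]
      split_ifs with h3 h4 h4
      · omega
      · have := hmono (show 3 ≤ f by omega)
        linarith
      · exact le_rfl
      · positivity
    have hδ1 : δ ≤ 2 * t ^ 3 := by
      rw [hδ]
      split_ifs with h3
      · have := hmono (show 3 ≤ g - 3 by omega)
        linarith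
      · positivity
    have hS := sum_major (s := Finset.Ico (1 + 1 + 1) g) (F := fun i => |(aa p g f u w i : ℝ)| * t ^ i)
      (A := fun i => if i % 2 = 0 then t ^ (i - 2) else 0) (f := f) (g' := g - 1) hβ0 hδ0
      (fun i hi => by
        have := Finset.mem_Ico.1 hi
        exact aa_bound ht0.le htp ht2 i (by omega) (by omega))
    have hG := geom_le ht0.le (by linarith : t ^ 2 < 1) 1 le_rfl g (by omega)
    have hG2 : t ^ (2 * 1) / (1 - t ^ 2) ≤ 1 / 4 := by
      rw [div_le_iff₀ (by linarith)]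
      norm_num
      linarith
    have e3 : (1 + 1 + 1 : ℕ) = 2 * 1 + 1 := by norm_num
    rw [e3] at hS
    have hu3 : t ^ (g - 2) ≤ t ^ 3 := hmono (by omega)
    have e4 : (1 + 1 : ℕ) = 2 := by norm_num
    rw [e4] at *
    have e5 : (2 + 1 : ℕ) = 2 * 1 + 1 := by norm_num
    rw [e5]
    by_cases hf2 : f = 2
    · rw [if_pos hf2] at h2 hβ1
      have := mul_le_mul_of_nonneg_right h2 ht2'
      linarith
    · rw [if_neg hf2] at h2 hβ1
      have := mul_le_mul_of_nonneg_right h2 ht2'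
      linarith
  · have hcase : g = 3 ∨ g = 4 := by omega
    rcases hcase with rfl | rfl
    · have e : Finset.Ico 1 3 = {1, 2} := by decide
      rw [e, Finset.sum_insert (by decide), Finset.sum_singleton, h1]
      have h3 : |(aa p 3 f u w 2 : ℝ)| * t ^ 2 ≤ 2 * t ^ 2 := by
        refine mul_le_mul_of_nonneg_right (h2.trans ?_) ht2'
        split_ifs <;> norm_num
      have e4 : (3 - 2 : ℕ) = 1 := by norm_num
      rw [e4, pow_one] at hu
      linarith
    · have e : Finset.Ico 1 4 = {1, 2, 3} := by decide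
      rw [e, Finset.sum_insert (by decide), Finset.sum_insert (by decide), Finset.sum_singleton, h1]
      have hf2 : f ≠ 2 := fun h => hex ⟨rfl, h⟩
      rw [if_neg hf2] at h2
      have h3 := mul_le_mul_of_nonneg_right h2 ht2'
      have e4 : (4 - 2 : ℕ) = 2 := by norm_num
      rw [e4] at hu
      have h5 : aa p 4 f u w 3 = w := by
        unfold aa
        rw [if_neg (by omega), if_neg (by omega), if_pos ⟨rfl, rfl⟩]
      rw [h5]
      have h6 : |(w : ℝ)| ≤ 4 := by
        rcases (show f = 3 ∨ f = 4 by omega) with h | h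
        · rcases ho.w2 (by omega) with h2 | h2 <;> rw [h2] <;> norm_num
        · rcases ho.w3 (by omega) with h2 | h2 <;> rw [h2] <;> norm_num
      have h7 : |(w : ℝ)| * t ^ 3 ≤ 4 * t ^ 3 := mul_le_mul_of_nonneg_right h6 (by positivity)
      linarith

end Pool.Agent.R80.WF
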