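import Pool.Agent.R80.WF.Asm

set_option autoImplicit false

namespace Pool.Agent.R80.WF

open Polynomial

/-- the coefficients -/
def aa (p g f : ℕ) (u w : ℤ) (i : ℕ) : ℤ :=
  if i = 0 then 1 else if i = g then u else if i + 1 = g ∧ g % 2 = 0 then w else
    if i < f then par g i else if i = f then (if par g i = 1 then 1 else 2) else p * par g i

/-- the two possible values of `u` and `w` -/
structure Opt (p g f : ℕ) (u w : ℤ) : Prop where
  u1 : f < g → u = 0 ∨ u = 2 * p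
  u2 : f = g → u = 2 ∨ u = 4
  w1 : f + 1 < g → w = 0 ∨ w = 2 * p
  w2 : f + 1 = g → w = 2 ∨ w = 4
  w3 : f = g → w = 0 ∨ w = 2

/-- positivity of the cosine polynomial -/
def Pos (p g f : ℕ) (u w : ℤ) : Prop :=
  ∀ θ : ℝ, 0 < ∑ i ∈ Finset.range g, (aa p g f u w i : ℝ) * (Real.sqrt p)⁻¹ ^ i * Real.cos (i * θ)
    + (aa p g f u w g : ℝ) / 2 * (Real.sqrt p)⁻¹ ^ g * Real.cos (g * θ)

/-- WF-G4: `g = 4`, `f = 2` -/
def S_G4 : Prop := ∀ p : ℕ, 3 ≤ p → ∀ x : ℂ, aeval x (PP p 4 (aa p 4 2 0 (2 * p))) = 0 →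
  ‖x‖ = Real.sqrt p

/-- WF-P3A: `p = 3`, `f = 2, 3`, `g ≥ 7` -/
def S_P3A : Prop := ∀ (g f : ℕ) (u w : ℤ), 7 ≤ g → 2 ≤ f → f ≤ 3 → Opt 3 g f u w → Pos 3 g f u w

/-- WF-P3B: `p = 3`, `g ≤ 6` -/
def S_P3B : Prop := ∀ (g f : ℕ), 3 ≤ g → g ≤ 6 → 2 ≤ f → f ≤ g → ¬ (g = 4 ∧ f = 2) →
  ∃ u w : ℤ, Opt 3 g f u w ∧ ev 0 (PP 3 g (aa 3 g f u w)) % 4 = 2 ∧
    (g % 2 = 1 ∨ ev 3 (PP 3 g (aa 3 g f u w)) % 4 = 2) ∧ Pos 3 g f u w

theorem par_cases (g i : ℕ) : par g i = 0 ∨ par g i = 1 := by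
  unfold par
  split_ifs
  · omega
  · simp

theorem par_self {g : ℕ} (hg : 1 ≤ g) : par g g = 0 := by
  unfold par
  split_ifs with h
  · obtain ⟨k, rfl⟩ : ∃ k, g = 2 * k := ⟨g / 2, by omega⟩
    have h1 : 2 ∣ (2 * k).choose k := Nat.two_dvd_centralBinom_of_one_le (by omega)
    have h2 : 2 * k / 2 = k := by omega
    rw [h2]
    omega
  · rfl

theorem Opt.even_u {p g f : ℕ} {u w : ℤ} (h : Opt p g f u w) (hfg : f ≤ g) : u % 2 = 0 := by
  rcases lt_or_eq_of_le hfg with h1 | h1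
  · rcases h.u1 h1 with h2 | h2 <;> omega
  · rcases h.u2 h1 with h2 | h2 <;> omega

theorem Opt.even_w {p g f : ℕ} {u w : ℤ} (h : Opt p g f u w) (hfg : f ≤ g) : w % 2 = 0 := by
  rcases lt_or_eq_of_le hfg with h1 | h1
  · rcases lt_or_eq_of_le (Nat.succ_le_of_lt h1) with h2 | h2
    · rcases h.w1 h2 with h2 | h2 <;> omega
    · rcases h.w2 h2 with h2 | h2 <;> omega
  · rcases h.w3 h1 with h2 | h2 <;> omega

theorem aa_par {p g f : ℕ} {u w : ℤ} (hp : p % 2 = 1) (hu : u % 2 = 0) (hw : w % 2 = 0)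
    (i : ℕ) (hi : 1 ≤ i) (hig : i ≤ g) : aa p g f u w i % 2 = par g i := by
  unfold aa
  rw [if_neg (by omega)]
  have hpar := par_cases g i
  split_ifs with h1 h2 h3 h4 h5
  · rw [h1, par_self (by omega), hu]
  · rw [hw, par, if_neg (by omega)]
  · rcases hpar with h | h <;> rw [h] <;> norm_num
  · rw [h5]; norm_num
  · rcases hpar with h | h
    · rw [h]; norm_num
    · exact absurd h h5
  · rcases hpar with h | h
    · rw [h]; norm_num
    · rw [h]; omega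

theorem aa_div {p g f : ℕ} {u w : ℤ} (h : Opt p g f u w) (i : ℕ) (hi : f < i) (hig : i ≤ g) :
    (p : ℤ) ∣ aa p g f u w i := by
  unfold aa
  rw [if_neg (by omega)]
  split_ifs with h1 h2 h3 h4 h5
  · rcases h.u1 (by omega) with h2 | h2 <;> rw [h2]
    · exact dvd_zero _
    · exact Dvd.intro_left _ rfl
  · rcases h.w1 (by omega) with h2 | h2 <;> rw [h2]
    · exact dvd_zero _
    · exact Dvd.intro_left _ rfl
  · omega
  · omega
  · omega
  · exact Dvd.intro _ rfl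

theorem aa_nd {p g f : ℕ} {u w : ℤ} (hp3 : 3 ≤ p) (hp : p.Prime) (h : Opt p g f u w) (hf : 2 ≤ f) :
    ¬ (p : ℤ) ∣ aa p g f u w f := by
  have h2 : ¬ (p : ℤ) ∣ 2 := by
    intro hd
    have := Int.le_of_dvd (by norm_num) hd
    omega
  have h4 : ¬ (p : ℤ) ∣ 4 := by
    intro hd
    have h5 : (p : ℤ) ∣ 2 * 2 := by simpa using hd
    rcases (Nat.prime_iff_prime_int.1 hp).dvd_or_dvd h5 with h | h <;> exact h2 h
  have h1' : ¬ (p : ℤ) ∣ 1 := by
    intro hd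
    have := Int.le_of_dvd (by norm_num) hd
    omega
  unfold aa
  rw [if_neg (by omega)]
  split_ifs with h1 h3 h5 h6 h7
  · rcases h.u2 h1 with h3 | h3 <;> rw [h3] <;> assumption
  · rcases h.w2 h3.1 with h5 | h5 <;> rw [h5] <;> assumption
  · omega
  · exact h1'
  · exact h2
  · omega

theorem ev_even {p g : ℕ} {a : ℕ → ℤ} (hp : p % 2 = 1) (ha0 : a 0 = 1)
    (ha : ∀ i, 1 ≤ i → i ≤ g → a i % 2 = par g i) (m : ℕ) (hm : m < 2 * g) :
    ev m (PP p g a) % 2 = 0 := by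
  have hmod := map_PP hp ha0 ha
  have hE2 : ((PP p g a).comp (X + 1)).map (Int.castRingHom (ZMod 2)) = X ^ (2 * g) := by
    rw [Polynomial.map_comp, hmod]
    simp only [Polynomial.map_add, map_X, Polynomial.map_one, pow_comp, add_comp, X_comp,
      one_comp]
    congr 1
    have h2 : (1 : (ZMod 2)[X]) + 1 = 0 := by
      have : (C (1 + 1 : ZMod 2) : (ZMod 2)[X]) = 0 := by
        have h3 : (1 + 1 : ZMod 2) = 0 := by decide
        rw [h3, C_0]
      simpa using this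
    rw [add_assoc, h2, add_zero]
  have h1 := congrArg (fun q => q.coeff m) hE2
  simp only [coeff_map, coeff_X_pow] at h1
  rw [if_neg (by omega)] at h1
  have := (ZMod.intCast_zmod_eq_zero_iff_dvd _ 2).1 (by simpa using h1)
  unfold ev
  omega

theorem ev_u (m p g f : ℕ) (u u' w : ℤ) : ev m (PP p g (aa p g f u' w)) -
    ev m (PP p g (aa p g f u w)) = (if g = 0 then 0 else (u' - u) * g.choose m) := by
  rw [ev_PP, ev_PP]
  have h1 : ∀ i ∈ Finset.range g, aa p g f u' w i * ((2 * g - i).choose m + (p : ℤ) ^ (g - i) * (i.choose m))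
      = aa p g f u w i * ((2 * g - i).choose m + (p : ℤ) ^ (g - i) * (i.choose m)) := by
    intro i hi
    have := Finset.mem_range.1 hi
    have h2 : aa p g f u' w i = aa p g f u w i := by
      unfold aa
      split_ifs <;> first | rfl | omega
    rw [h2]
  rw [Finset.sum_congr rfl h1]
  split_ifs with h0
  · subst h0
    simp [aa]
  · have e1 : aa p g f u' w g = u' := by
      unfold aa
      rw [if_neg h0, if_pos rfl]
    have e2 : aa p g f u w g = u := by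
      unfold aa
      rw [if_neg h0, if_pos rfl]
    rw [e1, e2]
    ring

theorem ev_w (m p g f : ℕ) (hg : 3 ≤ g) (hg2 : g % 2 = 0) (u w w' : ℤ) :
    ev m (PP p g (aa p g f u w')) - ev m (PP p g (aa p g f u w)) =
      (w' - w) * ((g + 1).choose m + (p : ℤ) * (g - 1).choose m) := by
  rw [ev_PP, ev_PP]
  obtain ⟨k, rfl⟩ : ∃ k, g = k + 1 := ⟨g - 1, by omega⟩
  rw [Finset.sum_range_succ, Finset.sum_range_succ]
  have h1 : ∀ i ∈ Finset.range k, aa p (k + 1) f u w' i * ((2 * (k + 1) - i).choose m + (p : ℤ) ^ (k + 1 - i) * (i.choose m))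
      = aa p (k + 1) f u w i * ((2 * (k + 1) - i).choose m + (p : ℤ) ^ (k + 1 - i) * (i.choose m)) := by
    intro i hi
    have := Finset.mem_range.1 hi
    have h2 : aa p (k + 1) f u w' i = aa p (k + 1) f u w i := by
      unfold aa
      split_ifs <;> first | rfl | omega
    rw [h2]
  rw [Finset.sum_congr rfl h1]
  have e1 : aa p (k + 1) f u w' k = w' := by
    unfold aa
    rw [if_neg (by omega), if_neg (by omega), if_pos ⟨rfl, hg2⟩]
  have e2 : aa p (k + 1) f u w k = w := by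
    unfold aa
    rw [if_neg (by omega), if_neg (by omega), if_pos ⟨rfl, hg2⟩]
  have e3 : aa p (k + 1) f u w' (k + 1) = aa p (k + 1) f u w (k + 1) := by
    unfold aa
    rw [if_neg (by omega), if_pos rfl, if_neg (by omega), if_pos rfl]
  rw [e1, e2, e3]
  have e4 : 2 * (k + 1) - k = k + 1 + 1 := by omega
  have e5 : k + 1 - k = 1 := by omega
  have e6 : k + 1 - 1 = k := by omega
  rw [e4, e5, e6]
  ring

theorem odd_coef {p g : ℕ} (hp : p % 2 = 1) (hg : 3 ≤ g) (hg2 : g % 2 = 0) :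
    (((g + 1).choose 3 : ℕ) + (p : ℤ) * ((g - 1).choose 3 : ℕ)) % 2 = 1 := by
  obtain ⟨k, rfl⟩ : ∃ k, g = k + 1 := ⟨g - 1, by omega⟩
  have e : (k + 1 + 1).choose 3 = k.choose 3 + 2 * k.choose 2 + k := by
    rw [Nat.choose_succ_succ (k + 1) 2, Nat.choose_succ_succ k 2, Nat.choose_succ_succ k 1,
      Nat.choose_one_right]
    ring_nf
  rw [e]
  have e6 : k + 1 - 1 = k := by omega
  rw [e6]
  obtain ⟨q, hq⟩ : ∃ q : ℤ, (p : ℤ) = 2 * q + 1 := ⟨(p : ℤ) / 2, by omega⟩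
  rw [hq]
  push_cast
  have : ((k.choose 3 : ℤ) + 2 * k.choose 2 + k + (2 * q + 1) * k.choose 3) =
    2 * ((k.choose 3 : ℤ) + k.choose 2 + q * k.choose 3) + k := by ring
  rw [this]
  omega

theorem mul_mod4 {x y : ℤ} (hx : x % 4 = 2) (hy : y % 2 = 1) : x * y % 4 = 2 := by
  obtain ⟨a, rfl⟩ : ∃ a, x = 4 * a + 2 := ⟨x / 4, by omega⟩
  obtain ⟨b, rfl⟩ : ∃ b, y = 2 * b + 1 := ⟨y / 2, by omega⟩
  have : (4 * a + 2) * (2 * b + 1) = 4 * (2 * a * b + a + b) + 2 := by ring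
  rw [this]
  omega

/-- the choice of `u` and `w` -/
theorem choose_uw {p g f : ℕ} (hp : p % 2 = 1) (hg : 3 ≤ g) {u0 u1 w0 w1 : ℤ} (hu0 : u0 % 2 = 0)
    (hu : (u1 - u0) % 4 = 2) (hw0 : w0 % 2 = 0) (hw : (w1 - w0) % 4 = 2) :
    ∃ u w, (u = u0 ∨ u = u1) ∧ (w = w0 ∨ w = w1) ∧
      ev 0 (PP p g (aa p g f u w)) % 4 = 2 ∧
      (g % 2 = 1 ∨ ev 3 (PP p g (aa p g f u w)) % 4 = 2) := by
  have hev : ∀ u w : ℤ, u % 2 = 0 → w % 2 = 0 → ∀ m < 2 * g,
      ev m (PP p g (aa p g f u w)) % 2 = 0 := by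
    intro u w hu hw m hm
    exact ev_even hp (by simp [aa]) (fun i h1 h2 => aa_par hp hu hw i h1 h2) m hm
  obtain ⟨u, hu', hue, h0⟩ : ∃ u, (u = u0 ∨ u = u1) ∧ u % 2 = 0 ∧
      ev 0 (PP p g (aa p g f u w0)) % 4 = 2 := by
    have h1 := hev u0 w0 hu0 hw0 0 (by omega)
    have h2 := ev_u 0 p g f u0 u1 w0
    rw [if_neg (by omega), Nat.choose_zero_right] at h2
    by_cases h3 : ev 0 (PP p g (aa p g f u0 w0)) % 4 = 2
    · exact ⟨u0, Or.inl rfl, hu0, h3⟩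
    · refine ⟨u1, Or.inr rfl, by omega, ?_⟩
      push_cast at h2
      omega
  by_cases hg2 : g % 2 = 1
  · exact ⟨u, w0, hu', Or.inl rfl, h0, Or.inl hg2⟩
  · have hg2' : g % 2 = 0 := by omega
    have h1 := hev u w0 hue hw0 3 (by omega)
    by_cases h3 : ev 3 (PP p g (aa p g f u w0)) % 4 = 2
    · exact ⟨u, w0, hu', Or.inl rfl, h0, Or.inr h3⟩
    · refine ⟨u, w1, hu', Or.inr rfl, ?_, Or.inr ?_⟩
      · have h2 := ev_w 0 p g f hg hg2' u w0 w1
        simp only [Nat.choose_zero_right] at h2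
        have h4 : (4 : ℤ) ∣ (w1 - w0) * ((1 : ℕ) + (p : ℤ) * (1 : ℕ)) :=
          dvd4_of_even (by omega) (by push_cast; omega)
        omega
      · have h2 := ev_w 3 p g f hg hg2' u w0 w1
        have h4 := mul_mod4 hw (odd_coef hp hg hg2')
        omega

/-- assembly for the sequence `aa` -/
theorem good_aa (hROOT : S_ROOT) (hNOI : S_NOI) (hND : S_ND) {p g f : ℕ} (hp : p.Prime)
    (hp3 : 3 ≤ p) (hg : 3 ≤ g) (hf2 : 2 ≤ f) (hfg : f ≤ g) {u w : ℤ} (ho : Opt p g f u w)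
    (h0 : ev 0 (PP p g (aa p g f u w)) % 4 = 2)
    (h3 : g % 2 = 1 ∨ ev 3 (PP p g (aa p g f u w)) % 4 = 2) (hpos : Pos p g f u w) :
    Good p g f := by
  have hp2 : p % 2 = 1 := by
    rcases hp.eq_two_or_odd with h | h
    · omega
    · exact h
  refine good_of hNOI hND hp hp2 hg hfg (a := aa p g f u w) (by simp [aa])
    (fun i h1 h2 => aa_par hp2 (ho.even_u hfg) (ho.even_w hfg) i h1 h2) h0 h3
    (fun i h1 h2 => aa_div ho i h1 h2) (aa_nd hp3 hp ho hf2) ?_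
  exact hROOT p g (aa p g f u w) (by omega) (by omega) (by simp [aa]) hpos

/-- if all options are positive -/
theorem good_all (hROOT : S_ROOT) (hNOI : S_NOI) (hND : S_ND) {p g f : ℕ} (hp : p.Prime)
    (hp3 : 3 ≤ p) (hg : 3 ≤ g) (hf2 : 2 ≤ f) (hfg : f ≤ g)
    (hpos : ∀ u w : ℤ, Opt p g f u w → Pos p g f u w) : Good p g f := by
  have hp2 : p % 2 = 1 := by
    rcases hp.eq_two_or_odd with h | h
    · omega
    · exact h
  obtain ⟨u0, u1, hu0, hu, hou⟩ : ∃ u0 u1 : ℤ, u0 % 2 = 0 ∧ (u1 - u0) % 4 = 2 ∧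
      ∀ u, (u = u0 ∨ u = u1) → (f < g → u = 0 ∨ u = 2 * p) ∧ (f = g → u = 2 ∨ u = 4) := by
    rcases lt_or_eq_of_le hfg with h | h
    · refine ⟨0, 2 * p, by norm_num, by omega, fun u hu => ⟨fun _ => hu, fun h2 => by omega⟩⟩
    · exact ⟨2, 4, by norm_num, by norm_num, fun u hu => ⟨fun h2 => by omega, fun _ => hu⟩⟩
  obtain ⟨w0, w1, hw0, hw, how⟩ : ∃ w0 w1 : ℤ, w0 % 2 = 0 ∧ (w1 - w0) % 4 = 2 ∧
      ∀ w, (w = w0 ∨ w = w1) → (f + 1 < g → w = 0 ∨ w = 2 * p) ∧ (f + 1 = g → w = 2 ∨ w = 4) ∧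
        (f = g → w = 0 ∨ w = 2) := by
    rcases lt_trichotomy (f + 1) g with h | h | h
    · exact ⟨0, 2 * p, by norm_num, by omega,
        fun w hw => ⟨fun _ => hw, fun h2 => by omega, fun h2 => by omega⟩⟩
    · exact ⟨2, 4, by norm_num, by norm_num,
        fun w hw => ⟨fun h2 => by omega, fun _ => hw, fun h2 => by omega⟩⟩
    · exact ⟨0, 2, by norm_num, by norm_num,
        fun w hw => ⟨fun h2 => by omega, fun h2 => by omega, fun _ => hw⟩⟩
  obtain ⟨u, w, hu', hw', h0, h3⟩ := choose_uw (f := f) hp2 hg hu0 hu hw0 hw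
  have ho : Opt p g f u w := by
    obtain ⟨a1, a2⟩ := hou u hu'
    obtain ⟨b1, b2, b3⟩ := how w hw'
    exact ⟨a1, a2, b1, b2, b3⟩
  exact good_aa hROOT hNOI hND hp hp3 hg hf2 hfg ho h0 h3 (hpos u w ho)

end Pool.Agent.R80.WF
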