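import Pool.Agent.R80.WF.F0N
import Pool.Agent.R80.WF.F0I
import Pool.Agent.R80.WF.Asm

/-!
# Project WF, piece WF-F0X33 (helper801): the triple `(3, 3, 0)`, by an explicit sextic
-/

set_option autoImplicit false

namespace Pool.Agent.R80.WF

open Polynomial IntermediateField

namespace X33aux

/-- the sextic -/
noncomputable def P : ℤ[X] :=
  X ^ 6 + C 3 * X ^ 5 + C 9 * X ^ 4 + C 15 * X ^ 3 + C 27 * X ^ 2 + C 27 * X + C 27

/-- the trace polynomial -/
noncomputable def H : ℤ[X] := X ^ 3 + C 3 * X ^ 2 - C 3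

theorem P_monic : P.Monic := by
  unfold P; monicity!

theorem P_deg : P.natDegree = 6 := by
  unfold P; compute_degree!

theorem H_monic : H.Monic := by
  unfold H; monicity!

theorem H_deg : H.natDegree = 3 := by
  unfold H; compute_degree!

theorem aeval_P {K : Type} [Field K] (x : K) : aeval x P =
    x ^ 6 + 3 * x ^ 5 + 9 * x ^ 4 + 15 * x ^ 3 + 27 * x ^ 2 + 27 * x + 27 := by
  have e : ∀ n : ℤ, aeval x (C n : ℤ[X]) = (n : K) := fun n => by rw [aeval_C]; simp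
  simp only [P, map_add, map_mul, map_pow, aeval_X, e, Int.cast_ofNat]

theorem aeval_H {K : Type} [Field K] (x : K) : aeval x H = x ^ 3 + 3 * x ^ 2 - 3 := by
  have e : ∀ n : ℤ, aeval x (C n : ℤ[X]) = (n : K) := fun n => by rw [aeval_C]; simp
  simp only [H, map_add, map_sub, map_mul, map_pow, aeval_X, e, Int.cast_ofNat]

/-- the equation -/
theorem eq_star {K : Type} [Field K] {x x' : K} (hxx : x * x' = 3) (hx0 : x ≠ 0)
    (h : aeval x P = 0) : x ^ 3 + x' ^ 3 + 3 * (x ^ 2 + x' ^ 2) + 9 * (x + x') + 15 = 0 := by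
  rw [aeval_P] at h
  refine mul_left_cancel₀ (pow_ne_zero 3 hx0) ?_
  rw [mul_zero]
  linear_combination h + ((x * x') ^ 2 + 3 * (x * x') + 9 + 3 * x * (x * x' + 3) + 9 * x ^ 2) * hxx

theorem H_of_P {K : Type} [Field K] {x x' : K} (hxx : x * x' = 3) (hx0 : x ≠ 0)
    (h : aeval x P = 0) : aeval (x + x') H = 0 := by
  have h1 := eq_star hxx hx0 h
  rw [aeval_H]
  linear_combination h1 + (3 * (x + x') + 6) * hxx

theorem H_irr : Irreducible H := by
  have hpz : Prime (3 : ℤ) := Int.prime_three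
  have hE : H.IsEisensteinAt (Ideal.span {(3 : ℤ)}) := by
    refine ⟨?_, ?_, ?_⟩
    · rw [H_monic.leadingCoeff, Ideal.mem_span_singleton]
      norm_num
    · intro n hn
      rw [H_deg] at hn
      rw [Ideal.mem_span_singleton]
      interval_cases n <;> simp [H]
    · rw [Ideal.span_singleton_pow, Ideal.mem_span_singleton]
      simp [H]
  have hprime : (Ideal.span {(3 : ℤ)}).IsPrime := by
    rw [Ideal.span_singleton_prime hpz.ne_zero]
    exact hpz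
  exact hE.irreducible hprime H_monic.isPrimitive (by rw [H_deg]; norm_num)

/-- real roots of the trace polynomial -/
theorem three : ∃ t1 t2 t3 : ℝ, t1 < t2 ∧ t2 < t3 ∧ -3 < t1 ∧ t3 < 1 ∧
      ∀ t ∈ ({t1, t2, t3} : Finset ℝ), t ^ 3 + 3 * t ^ 2 - 3 = 0 := by
  set F : ℝ → ℝ := fun t => t ^ 3 + 3 * t ^ 2 - 3 with hF
  have hc : Continuous F := by
    rw [hF]
    fun_prop
  have h1 : F (-3) < 0 := by simp only [hF]; norm_num
  have h2 : 0 < F (-2) := by simp only [hF]; norm_num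
  have h3 : F 0 < 0 := by simp only [hF]; norm_num
  have h4 : 0 < F 1 := by simp only [hF]; norm_num
  obtain ⟨t1, ⟨a1, b1⟩, c1⟩ := intermediate_value_Ioo (by norm_num : (-3 : ℝ) ≤ -2)
    hc.continuousOn ⟨h1, h2⟩
  obtain ⟨t2, ⟨a2, b2⟩, c2⟩ := intermediate_value_Ioo' (by norm_num : (-2 : ℝ) ≤ 0)
    hc.continuousOn ⟨h3, h2⟩
  obtain ⟨t3, ⟨a3, b3⟩, c3⟩ := intermediate_value_Ioo (by norm_num : (0 : ℝ) ≤ 1)
    hc.continuousOn ⟨h3, h4⟩
  refine ⟨t1, t2, t3, by linarith, by linarith, a1, b3, ?_⟩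
  intro t ht
  simp only [Finset.mem_insert, Finset.mem_singleton] at ht
  rcases ht with rfl | rfl | rfl
  · exact c1
  · exact c2
  · exact c3

/-- location of the roots -/
theorem root {x : ℂ} (hx : aeval x P = 0) : ‖x‖ = Real.sqrt 3 ∧ x.im ≠ 0 := by
  have hx0 : x ≠ 0 := by
    rintro rfl
    rw [aeval_P] at hx
    norm_num at hx
  have hxx : x * (3 / x) = 3 := mul_div_cancel₀ _ hx0
  set T : ℂ := x + 3 / x with hT
  have hHT : T ^ 3 + 3 * T ^ 2 - 3 = 0 := by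
    have := H_of_P hxx hx0 hx
    rwa [aeval_H] at this
  obtain ⟨t1, t2, t3, h12, h23, hl, hu, hr⟩ := three
  have hTt : ∃ t ∈ ({t1, t2, t3} : Finset ℝ), T = (t : ℂ) := by
    by_contra hcon
    push Not at hcon
    set Hp : ℂ[X] := X ^ 3 + C 3 * X ^ 2 - C 3 with hHp
    have hdeg : Hp.natDegree ≤ 3 := by
      rw [hHp]
      compute_degree
    have hcard4 : ({t1, t2, t3} : Finset ℝ).card = 3 := by
      rw [Finset.card_insert_of_notMem, Finset.card_insert_of_notMem, Finset.card_singleton]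
      · simp only [Finset.mem_singleton]
        exact h23.ne
      · simp only [Finset.mem_insert, Finset.mem_singleton, not_or]
        exact ⟨h12.ne, (h12.trans h23).ne⟩
    set S : Finset ℂ := insert T (({t1, t2, t3} : Finset ℝ).image (fun t : ℝ => (t : ℂ)))
      with hS
    have hScard : S.card = 4 := by
      rw [hS, Finset.card_insert_of_notMem, Finset.card_image_of_injective _
        Complex.ofReal_injective, hcard4]
      intro hmem
      obtain ⟨t, ht, hte⟩ := Finset.mem_image.1 hmem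
      exact hcon t ht hte.symm
    have hev : ∀ z ∈ S, Hp.eval z = 0 := by
      intro z hz
      have hz2 : z ^ 3 + 3 * z ^ 2 - 3 = 0 := by
        rcases Finset.mem_insert.1 hz with rfl | hz
        · exact hHT
        · obtain ⟨t, ht, rfl⟩ := Finset.mem_image.1 hz
          have := hr t ht
          exact_mod_cast this
      rw [hHp]
      simp only [eval_add, eval_sub, eval_mul, eval_pow, eval_X, eval_C]
      exact hz2
    have h0 := Polynomial.eq_zero_of_natDegree_lt_card_of_eval_eq_zero' Hp S hev (by omega)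
    have h4 : Hp.coeff 3 = 1 := by
      rw [hHp]
      simp only [coeff_add, coeff_sub, coeff_C_mul, coeff_X_pow, coeff_C]
      norm_num
    rw [h0] at h4
    simp at h4
  obtain ⟨t, ht, hTt⟩ := hTt
  have htb : -3 < t ∧ t < 3 := by
    simp only [Finset.mem_insert, Finset.mem_singleton] at ht
    rcases ht with rfl | rfl | rfl <;> constructor <;> linarith
  have htt : t ^ 2 < 12 := by nlinarith
  have hq : x ^ 2 - t * x + 3 = 0 := by
    have h3 : x * (x + 3 / x) = t * x := by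
      rw [← hT, hTt]
      ring
    have h4 : x * (x + 3 / x) = x ^ 2 + 3 := by
      field_simp
    rw [h4] at h3
    linear_combination h3
  have hre := congrArg Complex.re hq
  have him := congrArg Complex.im hq
  simp only [pow_two, Complex.add_re, Complex.sub_re, Complex.mul_re, Complex.ofReal_re,
    Complex.ofReal_im, Complex.re_ofNat, Complex.zero_re, zero_mul, sub_zero] at hre
  simp only [pow_two, Complex.add_im, Complex.sub_im, Complex.mul_im, Complex.ofReal_re,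
    Complex.ofReal_im, Complex.im_ofNat, Complex.zero_im, zero_mul, add_zero] at him
  have him2 : x.im * (2 * x.re - t) = 0 := by linarith
  have himn : x.im ≠ 0 := by
    intro h
    rw [h] at hre
    nlinarith [sq_nonneg (x.re - t / 2)]
  have hn : x.re ^ 2 + x.im ^ 2 = 3 := by
    rcases mul_eq_zero.1 him2 with h | h
    · exact absurd h himn
    · have ht : t = 2 * x.re := by linarith
      rw [ht] at hre
      nlinarith
  have hns : ‖x‖ ^ 2 = 3 := by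
    rw [← Complex.normSq_eq_norm_sq, Complex.normSq_apply, ← hn]
    ring
  exact ⟨by rw [← hns, Real.sqrt_sq (norm_nonneg _)], himn⟩

/-- irreducibility -/
theorem P_irr : Irreducible (P.map (Int.castRingHom ℚ)) := by
  obtain ⟨x, hx⟩ : ∃ x : ℂ, aeval x P = 0 := by
    obtain ⟨x, hx⟩ := IsAlgClosed.exists_aeval_eq_zero_of_injective ℂ
      (RingHom.injective_int (algebraMap ℤ ℂ)) P (by
        rw [degree_eq_natDegree P_monic.ne_zero, P_deg]
        norm_num)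
    exact ⟨x, hx⟩
  obtain ⟨hnorm, him⟩ := root hx
  have hx0 : x ≠ 0 := by
    rintro rfl
    simp at him
  obtain ⟨y, hy⟩ : ∃ y : ℂ, y = (starRingEnd ℂ) x := ⟨_, rfl⟩
  have hxy : x * y = 3 := by
    rw [hy, Complex.mul_conj, Complex.normSq_eq_norm_sq, hnorm, Real.sq_sqrt (by norm_num)]
    simp
  have hT : aeval (x + y) H = 0 := H_of_P hxy hx0 hx
  have hHirr : Irreducible (H.map (Int.castRingHom ℚ)) :=
    (Polynomial.IsPrimitive.Int.irreducible_iff_irreducible_map_cast H_monic.isPrimitive).1 H_irr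
  have hHm' : (H.map (Int.castRingHom ℚ)).Monic := H_monic.map _
  have hT' : aeval (x + y) (H.map (Int.castRingHom ℚ)) = 0 := by
    rw [← hT]
    exact aeval_map_algebraMap ℚ (x + y) H
  have hminT : H.map (Int.castRingHom ℚ) = minpoly ℚ (x + y) :=
    minpoly.eq_of_irreducible_of_monic hHirr hT' hHm'
  have hintT : IsIntegral ℚ (x + y) := ⟨_, hHm', by simpa [aeval_def] using hT'⟩
  have hfT : Module.finrank ℚ ℚ⟮x + y⟯ = 3 := by
    rw [IntermediateField.adjoin.finrank hintT, ← hminT, H_monic.natDegree_map, H_deg]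
  have hPm' : (P.map (Int.castRingHom ℚ)).Monic := P_monic.map _
  have hx' : aeval x (P.map (Int.castRingHom ℚ)) = 0 := by
    rw [← hx]
    exact aeval_map_algebraMap ℚ x P
  have hintx : IsIntegral ℚ x := ⟨_, hPm', by simpa [aeval_def] using hx'⟩
  have hxmem : x ∈ ℚ⟮x⟯ := IntermediateField.mem_adjoin_simple_self ℚ x
  have hyx : y = ((3 : ℕ) : ℂ) / x := by
    rw [eq_div_iff hx0, mul_comm, hxy]
    norm_num
  have hle : ℚ⟮x + y⟯ ≤ ℚ⟮x⟯ := by
    rw [IntermediateField.adjoin_simple_le_iff]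
    refine add_mem hxmem ?_
    rw [hyx]
    exact div_mem (IntermediateField.natCast_mem _ 3) hxmem
  have hfd : FiniteDimensional ℚ ℚ⟮x⟯ := IntermediateField.adjoin.finiteDimensional hintx
  have hfdT : FiniteDimensional ℚ ℚ⟮x + y⟯ := IntermediateField.adjoin.finiteDimensional hintT
  have hreal : ℚ⟮x + y⟯ ≤ F0Iaux.RR := by
    rw [IntermediateField.adjoin_simple_le_iff]
    exact ⟨2 * x.re, by
      rw [hy, Complex.add_conj]
      simp⟩
  have hxT : x ∉ ℚ⟮x + y⟯ := fun hmem => him (F0Iaux.mem_RR (hreal hmem))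
  have hdvd : Module.finrank ℚ ℚ⟮x + y⟯ ∣ Module.finrank ℚ ℚ⟮x⟯ :=
    IntermediateField.finrank_dvd_of_le_right hle
  have hne : Module.finrank ℚ ℚ⟮x + y⟯ ≠ Module.finrank ℚ ℚ⟮x⟯ := by
    intro he
    have := IntermediateField.eq_of_le_of_finrank_eq hle he
    rw [this] at hxT
    exact hxT hxmem
  have hpos : 0 < Module.finrank ℚ ℚ⟮x⟯ := Module.finrank_pos
  have h2g : 6 ≤ (minpoly ℚ x).natDegree := by
    rw [← IntermediateField.adjoin.finrank hintx]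
    rw [hfT] at hdvd hne
    omega
  have hdvd2 : minpoly ℚ x ∣ P.map (Int.castRingHom ℚ) := minpoly.dvd ℚ x hx'
  have heq : P.map (Int.castRingHom ℚ) = minpoly ℚ x :=
    Polynomial.eq_of_monic_of_dvd_of_natDegree_le (minpoly.monic hintx) hPm' hdvd2 (by
      rw [P_monic.natDegree_map, P_deg]
      exact h2g)
  rw [heq]
  exact minpoly.irreducible hintx

section abs

variable {K : Type} [NormedField K]

/-- the valuations of the roots -/
theorem val (hna : ∀ x y : K, ‖x + y‖ ≤ max ‖x‖ ‖y‖) {x x' : K}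
    (hp0 : (3 : K) ≠ 0) (hq : ‖(3 : K)‖ < 1) (h5 : ‖(5 : K)‖ = 1) (hxx : x * x' = 3)
    (h1 : x ^ 3 + x' ^ 3 + 3 * (x ^ 2 + x' ^ 2) + 9 * (x + x') + 15 = 0) (hle : ‖x'‖ ≤ ‖x‖) :
    ‖x‖ ^ 3 = ‖(3 : K)‖ ∧ ‖x'‖ < ‖x‖ ∧ ‖x‖ < 1 := by
  have hq0 : 0 < ‖(3 : K)‖ := norm_pos_iff.2 hp0
  have hXX : ‖x‖ * ‖x'‖ = ‖(3 : K)‖ := by rw [← norm_mul, hxx]
  have hX0 : 0 < ‖x‖ := by
    rcases (norm_nonneg x).eq_or_lt with h | h
    · rw [← h, zero_mul] at hXX
      exact absurd hXX hq0.ne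
    · exact h
  have hX'0 : 0 < ‖x'‖ := by
    rcases (norm_nonneg x').eq_or_lt with h | h
    · rw [← h, mul_zero] at hXX
      exact absurd hXX hq0.ne
    · exact h
  have h15 : ‖(15 : K)‖ = ‖(3 : K)‖ := by
    rw [show (15 : K) = 3 * 5 by norm_num, norm_mul, h5, mul_one]
  have h9 : ‖(9 : K)‖ = ‖(3 : K)‖ ^ 2 := by
    rw [show (9 : K) = 3 ^ 2 by norm_num, norm_pow]
  have hb : ‖3 * (x ^ 2 + x' ^ 2)‖ ≤ ‖(3 : K)‖ * ‖x‖ ^ 2 := by
    rw [norm_mul]
    refine mul_le_mul_of_nonneg_left ((hna _ _).trans (max_le (norm_pow _ _).le ?_)) hq0.le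
    rw [norm_pow]
    exact pow_le_pow_left₀ (norm_nonneg _) hle 2
  have hc : ‖9 * (x + x')‖ ≤ ‖(3 : K)‖ ^ 2 * ‖x‖ := by
    rw [norm_mul, h9]
    exact mul_le_mul_of_nonneg_left ((hna _ _).trans (max_le le_rfl hle)) (by positivity)
  -- `‖x‖ < 1`
  have hX1 : ‖x‖ < 1 := by
    by_contra hcon
    push Not at hcon
    have h2 : ‖x‖ ^ 2 ≤ ‖x‖ ^ 3 := pow_le_pow_right₀ hcon (by norm_num)
    have h2' : ‖x‖ ≤ ‖x‖ ^ 2 := le_self_pow₀ hcon (by norm_num)
    have h3 : ‖x'‖ < 1 := by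
      have : ‖x'‖ ≤ ‖x‖ * ‖x'‖ := le_mul_of_one_le_left hX'0.le hcon
      linarith
    have h4 : ‖x'‖ ^ 3 < 1 := pow_lt_one₀ hX'0.le h3 (by norm_num)
    have h5 : x ^ 3 = -(x' ^ 3 + 3 * (x ^ 2 + x' ^ 2) + 9 * (x + x') + 15) := by
      linear_combination h1
    have h6 : ‖x ^ 3‖ < ‖x‖ ^ 3 := by
      rw [h5, norm_neg]
      refine (hna _ _).trans_lt (max_lt ((hna _ _).trans_lt (max_lt ((hna _ _).trans_lt
        (max_lt ?_ ?_)) ?_)) ?_)
      · rw [norm_pow]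
        linarith
      · refine hb.trans_lt ?_
        nlinarith
      · refine hc.trans_lt ?_
        nlinarith
      · rw [h15]
        linarith
    rw [norm_pow] at h6
    exact lt_irrefl _ h6
  have hb' : ‖3 * (x ^ 2 + x' ^ 2)‖ < ‖(3 : K)‖ := by
    refine hb.trans_lt (mul_lt_of_lt_one_right hq0 (pow_lt_one₀ hX0.le hX1 (by norm_num)))
  have hc' : ‖9 * (x + x')‖ < ‖(3 : K)‖ := by
    refine hc.trans_lt ?_
    have : ‖(3 : K)‖ * ‖x‖ < 1 := by nlinarith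
    nlinarith
  have hlt : ‖x'‖ < ‖x‖ := by
    refine lt_of_le_of_ne hle fun heq => ?_
    have h2 : ‖x‖ ^ 3 < ‖(3 : K)‖ := by
      have h3 : ‖x‖ ^ 3 = ‖(3 : K)‖ * ‖x‖ := by
        rw [← hXX, heq]
        ring
      rw [h3]
      exact mul_lt_of_lt_one_right hq0 hX1
    have h5 : (15 : K) = -(x ^ 3 + x' ^ 3 + 3 * (x ^ 2 + x' ^ 2) + 9 * (x + x')) := by
      linear_combination h1
    have h6 : ‖(3 : K)‖ < ‖(3 : K)‖ := by
      nth_rewrite 1 [← h15]
      rw [h5, norm_neg]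
      refine (hna _ _).trans_lt (max_lt ((hna _ _).trans_lt (max_lt ((hna _ _).trans_lt
        (max_lt ?_ ?_)) ?_)) ?_)
      · rw [norm_pow]
        exact h2
      · rw [norm_pow, heq]
        exact h2
      · exact hb'
      · exact hc'
    exact lt_irrefl _ h6
  have hX'g : ‖x'‖ ^ 3 < ‖(3 : K)‖ := by
    have h3 : ‖x'‖ ^ 2 < ‖(3 : K)‖ := by
      rw [← hXX]
      nlinarith
    have h4 : ‖x'‖ < 1 := hlt.trans hX1
    nlinarith
  refine ⟨?_, hlt, hX1⟩
  have h6 : x ^ 3 = -(15 + (x' ^ 3 + 3 * (x ^ 2 + x' ^ 2) + 9 * (x + x'))) := by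
    linear_combination h1
  rw [← norm_pow, h6, norm_neg, ← h15]
  refine f0n_add_eq hna ?_
  rw [h15]
  refine (hna _ _).trans_lt (max_lt ((hna _ _).trans_lt (max_lt ?_ ?_)) ?_)
  · rw [norm_pow]
    exact hX'g
  · exact hb'
  · exact hc'

theorem key (hna : ∀ x y : K, ‖x + y‖ ≤ max ‖x‖ ‖y‖)
    (hp0 : (3 : K) ≠ 0) (hq : ‖(3 : K)‖ < 1) (h5 : ‖(5 : K)‖ = 1) {x x' z : K}
    {n : ℕ} (hn : 1 ≤ n) (hz : z ^ n = 1) (hxx : x * x' = 3)
    (h1 : x ^ 3 + x' ^ 3 + 3 * (x ^ 2 + x' ^ 2) + 9 * (x + x') + 15 = 0)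
    (h2 : (z * x) ^ 3 + (z⁻¹ * x') ^ 3 + 3 * ((z * x) ^ 2 + (z⁻¹ * x') ^ 2) +
      9 * (z * x + z⁻¹ * x') + 15 = 0)
    (hle : ‖x'‖ ≤ ‖x‖) : z = 1 := by
  by_contra hz1
  have hzn : ‖z‖ = 1 := f0n_norm_one (by omega) hz
  have hz0 : z ≠ 0 := by
    rintro rfl
    rw [norm_zero] at hzn
    exact zero_ne_one hzn
  have hq0 : 0 < ‖(3 : K)‖ := norm_pos_iff.2 hp0
  obtain ⟨hX, hlt, hX1⟩ := val hna hp0 hq h5 hxx h1 hle
  have hX0 : 0 < ‖x‖ := (norm_nonneg _).trans_lt hlt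
  have hd0 : 0 < ‖z - 1‖ := norm_pos_iff.2 (sub_ne_zero.2 hz1)
  have hd1 : ‖z - 1‖ ≤ 1 := f0n_sub_le hna hzn
  have hlead : ∀ i : ℕ, i ≠ 0 → ‖x ^ i + -(z⁻¹ ^ i * x' ^ i)‖ = ‖x‖ ^ i := by
    intro i hi
    rw [f0n_add_eq hna, norm_pow]
    rw [norm_neg, norm_mul, norm_pow, norm_inv, hzn, inv_one, one_pow, one_mul, norm_pow, norm_pow]
    exact pow_lt_pow_left₀ hlt (norm_nonneg _) hi
  have hid : (z ^ 3 - 1) * (x ^ 3 + -(z⁻¹ ^ 3 * x' ^ 3)) =
      -(3 * (z ^ 2 - 1) * (x ^ 2 + -(z⁻¹ ^ 2 * x' ^ 2)) +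
        9 * (z - 1) * (x ^ 1 + -(z⁻¹ ^ 1 * x' ^ 1))) := by
    have h3 : z * z⁻¹ = 1 := mul_inv_cancel₀ hz0
    have h4 : z ^ 3 * z⁻¹ ^ 3 = 1 := by rw [← mul_pow, h3, one_pow]
    have h4' : z ^ 2 * z⁻¹ ^ 2 = 1 := by rw [← mul_pow, h3, one_pow]
    linear_combination h2 - h1 - x' ^ 3 * h4 - 3 * x' ^ 2 * h4' - 9 * x' * h3
  have h9 : ‖(9 : K)‖ = ‖(3 : K)‖ ^ 2 := by
    rw [show (9 : K) = 3 ^ 2 by norm_num, norm_pow]
  have hA : ‖(z ^ 3 - 1) * (x ^ 3 + -(z⁻¹ ^ 3 * x' ^ 3))‖ = ‖z ^ 3 - 1‖ * ‖x‖ ^ 3 := by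
    rw [norm_mul, hlead 3 (by norm_num)]
  have hB : ‖3 * (z ^ 2 - 1) * (x ^ 2 + -(z⁻¹ ^ 2 * x' ^ 2))‖ = ‖x‖ ^ 3 * ‖z ^ 2 - 1‖ * ‖x‖ ^ 2 := by
    rw [norm_mul, hlead 2 (by norm_num), norm_mul, hX]
  have hC : ‖9 * (z - 1) * (x ^ 1 + -(z⁻¹ ^ 1 * x' ^ 1))‖ = (‖x‖ ^ 3) ^ 2 * ‖z - 1‖ * ‖x‖ ^ 1 := by
    rw [norm_mul, hlead 1 (by norm_num), norm_mul, h9, hX]
  have hX3 : 0 < ‖x‖ ^ 3 := by positivity
  have hX2 : 0 < ‖x‖ ^ 2 := by positivity
  by_cases hz3 : z ^ 3 = 1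
  · -- a cube root of unity
    rw [hz3, sub_self, zero_mul] at hid
    have h6 : ‖z ^ 2 - 1‖ = ‖z - 1‖ := by
      have h7 : z ^ 2 - 1 = -(z ^ 2 * (z - 1)) := by linear_combination hz3
      rw [h7, norm_neg, norm_mul, norm_pow, hzn, one_pow, one_mul]
    have h7 : 3 * (z ^ 2 - 1) * (x ^ 2 + -(z⁻¹ ^ 2 * x' ^ 2)) =
        -(9 * (z - 1) * (x ^ 1 + -(z⁻¹ ^ 1 * x' ^ 1))) := by linear_combination hid
    have h8 := congrArg norm h7
    rw [norm_neg, hB, hC, h6] at h8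
    have h10 : (‖x‖ ^ 5 * ‖z - 1‖) * 1 = (‖x‖ ^ 5 * ‖z - 1‖) * ‖x‖ ^ 2 := by
      linear_combination h8
    have h11 := mul_left_cancel₀ (by positivity) h10
    have h12 : ‖x‖ ^ 2 < 1 := pow_lt_one₀ hX0.le hX1 (by norm_num)
    linarith
  · -- otherwise
    have hz3n : (z ^ 3) ^ n = 1 := by rw [← pow_mul, mul_comm, pow_mul, hz, one_pow]
    have hw1 : ‖z ^ 3 - 1‖ ≤ 1 := f0n_sub_le hna (by rw [norm_pow, hzn, one_pow])
    have hgt : ‖x‖ ^ 2 < ‖z ^ 3 - 1‖ := by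
      have hq' : ‖((3 : ℕ) : K)‖ < 1 := by exact_mod_cast hq
      rcases f0n_ru hna Nat.prime_three hq' hn hz3n hz3 with ⟨k, -, hk⟩ | ⟨h, -⟩
      · by_contra hcon
        push Not at hcon
        have h6 : ‖z ^ 3 - 1‖ ^ (3 ^ k * (3 - 1)) ≤ ‖z ^ 3 - 1‖ ^ 2 := by
          apply pow_le_pow_of_le_one (norm_nonneg _) hw1
          have : 0 < 3 ^ k := pow_pos (by norm_num) k
          omega
        have h7 : ‖z ^ 3 - 1‖ ^ 2 ≤ (‖x‖ ^ 2) ^ 2 := pow_le_pow_left₀ (norm_nonneg _) hcon 2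
        have h8 : ((3 : ℕ) : K) = 3 := by norm_num
        rw [hk, h8, ← hX] at h6
        have h9 : ‖x‖ ^ 3 * ‖x‖ < ‖x‖ ^ 3 := mul_lt_of_lt_one_right hX3 hX1
        nlinarith
      · rw [h]
        exact pow_lt_one₀ hX0.le hX1 (by norm_num)
    have h6 := congrArg norm hid
    rw [hA, norm_neg] at h6
    have h7 := hna (3 * (z ^ 2 - 1) * (x ^ 2 + -(z⁻¹ ^ 2 * x' ^ 2)))
      (9 * (z - 1) * (x ^ 1 + -(z⁻¹ ^ 1 * x' ^ 1)))
    rw [← h6, hB, hC] at h7
    have h8 : ‖z ^ 2 - 1‖ ≤ 1 := f0n_sub_le hna (by rw [norm_pow, hzn, one_pow])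
    have h10 : ‖x‖ ^ 3 * ‖z ^ 2 - 1‖ * ‖x‖ ^ 2 ≤ ‖x‖ ^ 3 * ‖x‖ ^ 2 := by
      have : ‖x‖ ^ 3 * ‖z ^ 2 - 1‖ ≤ ‖x‖ ^ 3 := mul_le_of_le_one_right hX3.le h8
      exact mul_le_mul_of_nonneg_right this hX2.le
    have h11 : (‖x‖ ^ 3) ^ 2 * ‖z - 1‖ * ‖x‖ ^ 1 ≤ ‖x‖ ^ 3 * ‖x‖ ^ 2 := by
      have e1 : (‖x‖ ^ 3) ^ 2 * ‖z - 1‖ * ‖x‖ ^ 1 = (‖x‖ ^ 3 * ‖x‖ ^ 2) * (‖x‖ ^ 2 * ‖z - 1‖) := by
        ring
      rw [e1]
      apply mul_le_of_le_one_right (by positivity)
      have : ‖x‖ ^ 2 ≤ 1 := (pow_lt_one₀ hX0.le hX1 (by norm_num)).le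
      nlinarith
    have h12 : ‖x‖ ^ 3 * ‖x‖ ^ 2 < ‖z ^ 3 - 1‖ * ‖x‖ ^ 3 := by
      rw [mul_comm]
      exact mul_lt_mul_of_pos_right hgt hX3
    rcases le_max_iff.1 h7 with h | h <;> linarith

theorem field [CharZero K] (hna : ∀ x y : K, ‖x + y‖ ≤ max ‖x‖ ‖y‖)
    (hq : ‖(3 : K)‖ < 1) (x y : K) (hx : aeval x P = 0)
    (hy : aeval y P = 0) (n : ℕ) (hn : 1 ≤ n) (hxy : x ^ n = y ^ n) : x = y := by
  have hp0 : (3 : K) ≠ 0 := by norm_num
  have h5 : ‖(5 : K)‖ = 1 := by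
    have hq' : ‖((3 : ℕ) : K)‖ < 1 := by exact_mod_cast hq
    have := f0n_coprime hna (l := 5) hq' (by decide)
    exact_mod_cast this
  have hne : ∀ x : K, aeval x P = 0 → x ≠ 0 := by
    rintro x hx rfl
    rw [aeval_P] at hx
    norm_num at hx
  have hx0 := hne x hx
  have hy0 := hne y hy
  have hxx : x * (3 / x) = 3 := mul_div_cancel₀ _ hx0
  have hyy : y * (3 / y) = 3 := mul_div_cancel₀ _ hy0
  have h1 := eq_star hxx hx0 hx
  have h2 := eq_star hyy hy0 hy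
  have hz : (y / x) ^ n = 1 := by
    rw [div_pow, ← hxy, div_self (pow_ne_zero _ hx0)]
  have e1 : y = (y / x) * x := by rw [div_mul_cancel₀ _ hx0]
  have e2 : (3 : K) / y = (y / x)⁻¹ * (3 / x) := by
    field_simp
  have hfin : y / x = 1 := by
    rcases le_total ‖(3 : K) / x‖ ‖x‖ with hle | hle
    · refine key hna hp0 hq h5 hn hz hxx h1 ?_ hle
      rw [← e1, ← e2]
      exact h2
    · have hz' : ((y / x)⁻¹) ^ n = 1 := by rw [inv_pow, hz, inv_one]
      have h3 : (y / x)⁻¹ = 1 := by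
        refine key hna hp0 hq h5 hn hz' (x := (3 : K) / x) (x' := x)
          (by rw [mul_comm]; exact hxx) ?_ ?_ hle
        · rw [← h1]
          ring
        · rw [inv_inv, ← e1, ← e2, ← h2]
          ring
      rw [← inv_inv (y / x), h3, inv_one]
  rw [div_eq_one_iff_eq hx0] at hfin
  exact hfin.symm

end abs

/-- fields generated by powers (the argument of `Pool.Agent.TH343.PR.adjoin_pow_eq`) -/
theorem adjoin_pow_eq {P : ℤ[X]} (hm : P.Monic)
    (h : ∀ x y : ℂ, aeval x P = 0 → aeval y P = 0 → ∀ n : ℕ, 1 ≤ n → x ^ n = y ^ n → x = y)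
    {x : ℂ} (hx : aeval x P = 0) {n : ℕ} (hn : 1 ≤ n) :
    IntermediateField.adjoin ℚ {x ^ n} = IntermediateField.adjoin ℚ {x} := by
  apply le_antisymm
  · rw [IntermediateField.adjoin_le_iff, Set.singleton_subset_iff]
    exact pow_mem (IntermediateField.mem_adjoin_simple_self ℚ x) n
  · rw [IntermediateField.adjoin_le_iff, Set.singleton_subset_iff, SetLike.mem_coe]
    by_contra hcon
    set L := IntermediateField.adjoin ℚ {x ^ n} with hL
    have hxi : IsIntegral ℤ x := ⟨P, hm, hx⟩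
    have hxL : IsIntegral L x := hxi.tower_top
    have hnot : x ∉ (⊥ : Subalgebra L ℂ) := by
      intro hb
      obtain ⟨y, hy⟩ := Algebra.mem_bot.1 hb
      apply hcon
      rw [← hy]
      exact y.2
    have hsep : IsSeparable L x := (minpoly.irreducible hxL).separable
    obtain ⟨y, hy1, hy2⟩ := (notMem_iff_exists_ne_and_isConjRoot hsep (IsAlgClosed.splits _)).1 hnot
    apply hy1
    have hmem : x ^ n ∈ L := IntermediateField.mem_adjoin_simple_self ℚ (x ^ n)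
    have hdvd1 : minpoly L x ∣ X ^ n - C (⟨x ^ n, hmem⟩ : L) := by
      apply minpoly.dvd
      rw [map_sub, map_pow, aeval_X, aeval_C]
      exact sub_self _
    have hdvd2 : minpoly L x ∣ P.map (algebraMap ℤ L) := by
      apply minpoly.dvd
      rw [aeval_map_algebraMap]
      exact hx
    have hy0 : aeval y (minpoly L x) = 0 := hy2.aeval_eq_zero
    have hyn : y ^ n = x ^ n := by
      obtain ⟨Q, hQ⟩ := hdvd1
      have h1 := congrArg (aeval y) hQ
      rw [map_mul, hy0, zero_mul, map_sub, map_pow, aeval_X, aeval_C] at h1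
      exact sub_eq_zero.1 h1
    have hyP : aeval y P = 0 := by
      obtain ⟨Q, hQ⟩ := hdvd2
      have h1 := congrArg (aeval y) hQ
      rw [map_mul, hy0, zero_mul, aeval_map_algebraMap] at h1
      exact h1
    exact h x y hx hyP n hn hyn.symm

end X33aux

open X33aux in
theorem g330 : Good 3 3 0 := by
  have : Fact (Nat.Prime 3) := ⟨Nat.prime_three⟩
  refine ⟨X33aux.P, P_monic, P_deg, P_irr, fun x hx => ?_, ?_, ?_, fun x hx n hn => ?_⟩
  · have := (X33aux.root hx).1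
    exact_mod_cast this
  · intro i hi
    have hi' : i < 6 := by omega
    interval_cases i <;> simp [X33aux.P, coeff_X]
  · simp [X33aux.P, coeff_X]
  · have hq : ‖(3 : PadicAlgCl 3)‖ < 1 := by
      have h1 := PadicAlgCl.valuation_p 3
      have h2 := congrArg (fun t : NNReal => (t : ℝ)) h1
      beta_reduce at h2
      rw [PadicAlgCl.valuation_coe] at h2
      have h3 : ((3 : ℕ) : PadicAlgCl 3) = 3 := by norm_num
      rw [← h3, h2]
      norm_num
    exact adjoin_pow_eq P_monic (fun x y hx hy n hn hxy => f0n_transfer (K := PadicAlgCl 3) P_monic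
      (field (K := PadicAlgCl 3) (PadicAlgCl.isNonarchimedean 3) hq) hx hy hn hxy) hx hn

end Pool.Agent.R80.WF
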