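import Pool.Agent.R80.WF.XG

/-! # The case `(p, g, f) = (5, 4, 0)` -/

set_option autoImplicit false

namespace Pool.Agent.R80.WF

open Polynomial

namespace X54

/-- the coefficients -/
def a4 (i : ℕ) : ℤ :=
  if i = 0 then 1 else if i = 1 then 5 else if i = 2 then 10 else if i = 4 then -30 else 0

theorem aeval_P {R : Type} [CommRing R] (x x' : R) (hxx : x * x' = ((5 : ℕ) : R)) :
    aeval x (PP 5 4 a4) =
      x ^ 4 * (x ^ 4 + x' ^ 4 + 5 * (x ^ 3 + x' ^ 3) + 10 * (x ^ 2 + x' ^ 2) - 30) := by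
  have h5 : ((5 : ℕ) : R) = 5 := by norm_num
  rw [h5] at hxx
  simp only [PP, Finset.sum_range_succ, Finset.sum_range_zero, map_add, map_mul, map_pow,
    aeval_X, aeval_C, map_zero]
  simp only [algebraMap_int_eq, eq_intCast, a4]
  norm_num
  have e4 : (625 : R) = x ^ 4 * x' ^ 4 := by
    rw [← mul_pow, hxx]
    norm_num
  have e3 : (125 : R) = x ^ 3 * x' ^ 3 := by
    rw [← mul_pow, hxx]
    norm_num
  have e2 : (25 : R) = x ^ 2 * x' ^ 2 := by
    rw [← mul_pow, hxx]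
    norm_num
  linear_combination e4 + 5 * x * e3 + 10 * x ^ 2 * e2

/-- the real Weil polynomial -/
noncomputable def h4 : ℤ[X] := X ^ 4 + (C 5 * X ^ 3 + C (-10) * X ^ 2 + C (-75) * X + C (-80))

theorem h4_nd : (C 5 * X ^ 3 + C (-10) * X ^ 2 + C (-75) * X + C (-80) : ℤ[X]).degree < 4 := by
  refine lt_of_le_of_lt (b := (3 : WithBot ℕ)) ?_ (by norm_num)
  compute_degree

theorem h4_monic : h4.Monic := by
  unfold h4
  exact monic_X_pow_add h4_nd

theorem h4_deg : h4.natDegree = 4 := by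
  unfold h4
  compute_degree!

theorem h4_aeval {R : Type} [CommRing R] (t : R) :
    aeval t h4 = t ^ 4 + 5 * t ^ 3 - 10 * t ^ 2 - 75 * t - 80 := by
  unfold h4
  simp only [map_add, map_mul, map_pow, aeval_X, aeval_C]
  simp only [algebraMap_int_eq, eq_intCast]
  push_cast
  ring

theorem key {K : Type} [NormedField K] (hna : ∀ x y : K, ‖x + y‖ ≤ max ‖x‖ ‖y‖)
    (hq : ‖((5 : ℕ) : K)‖ < 1) (hq0 : 0 < ‖((5 : ℕ) : K)‖) (x x' z : K) (n : ℕ) (hn : 1 ≤ n)
    (hz : z ^ n = 1) (hxx : x * x' = ((5 : ℕ) : K))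
    (h1 : x ^ 4 + x' ^ 4 + 5 * (x ^ 3 + x' ^ 3) + 10 * (x ^ 2 + x' ^ 2) - 30 = 0)
    (h2 : (z * x) ^ 4 + (z⁻¹ * x') ^ 4 + 5 * ((z * x) ^ 3 + (z⁻¹ * x') ^ 3) +
      10 * ((z * x) ^ 2 + (z⁻¹ * x') ^ 2) - 30 = 0)
    (hle : ‖x'‖ ≤ ‖x‖) : z = 1 := by
  have hzn : ‖z‖ = 1 := f0n_norm_one (by omega) hz
  have h5 : ((5 : ℕ) : K) = 5 := by norm_num
  have hT : (x + x') ^ 4 = ((5 : ℕ) : K) *
      ((-(x + x') ^ 2 + (2 * (x + x') + 15)) * (x + x') + ((16 : ℕ) : K)) := by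
    rw [h5] at hxx ⊢
    push_cast
    linear_combination h1 + (4 * (x + x') ^ 2 - 2 * (x * x' + 5) + 15 * (x + x') + 20) * hxx
  have hR : ‖-(x + x') ^ 2 + (2 * (x + x') + 15)‖ ≤ max 1 ‖x + x'‖ ^ 2 := by
    have hM : (1 : ℝ) ≤ max 1 ‖x + x'‖ := le_max_left _ _
    have hM2 : (1 : ℝ) ≤ max 1 ‖x + x'‖ ^ 2 := one_le_pow₀ hM
    have hM3 : max 1 ‖x + x'‖ ≤ max 1 ‖x + x'‖ ^ 2 := le_self_pow₀ hM (by norm_num)
    refine (hna _ _).trans (max_le ?_ ?_)
    · rw [norm_neg, norm_pow]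
      exact pow_le_pow_left₀ (norm_nonneg _) (le_max_right _ _) 2
    · refine (hna _ _).trans (max_le ?_ ?_)
      · rw [norm_mul]
        have h6 := f0n_nat hna 2
        push_cast at h6
        exact ((mul_le_of_le_one_left (norm_nonneg _) h6).trans (le_max_right _ _)).trans hM3
      · have h6 := f0n_nat hna 15
        push_cast at h6
        exact h6.trans hM2
  have h9 : ‖((16 : ℕ) : K)‖ = 1 := f0n_coprime hna hq (by norm_num)
  obtain ⟨hT1, hT2⟩ := xg_T hna hq hq0 (by norm_num) h9 hR hT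
  obtain ⟨hlt, hx1, hx0, hx4⟩ := xg_x hna hq0 (by norm_num) hxx hT1 hT2 hle
  have hA4 := xg_A hna hzn hlt (k := 4) (by norm_num)
  have hA3 := xg_A hna hzn hlt (k := 3) (by norm_num)
  have hA2 := xg_A hna hzn hlt (k := 2) (by norm_num)
  have h22 : ‖((2 : ℕ) : K)‖ = 1 := f0n_coprime hna hq (by norm_num)
  set A4 := (z * x) ^ 4 + (z⁻¹ * x') ^ 4 - (x ^ 4 + x' ^ 4) with hA4d
  set A3 := (z * x) ^ 3 + (z⁻¹ * x') ^ 3 - (x ^ 3 + x' ^ 3) with hA3d
  set A2 := (z * x) ^ 2 + (z⁻¹ * x') ^ 2 - (x ^ 2 + x' ^ 2) with hA2d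
  have hid : A4 = -(((5 : ℕ) : K) * A3 + ((5 : ℕ) : K) * ((2 : ℕ) : K) * A2) := by
    rw [h5, hA4d, hA3d, hA2d]
    push_cast
    linear_combination h2 - h1
  have hz3 : ‖z ^ 3 - 1‖ ≤ 1 := f0n_sub_le hna (by rw [norm_pow, hzn, one_pow])
  have hz2 : ‖z ^ 2 - 1‖ ≤ 1 := f0n_sub_le hna (by rw [norm_pow, hzn, one_pow])
  have h56 : ‖x‖ ^ 6 < ‖x‖ ^ 5 := pow_lt_pow_right_of_lt_one₀ hx0 hx1 (by norm_num)
  have h57 : ‖x‖ ^ 7 < ‖x‖ ^ 5 := pow_lt_pow_right_of_lt_one₀ hx0 hx1 (by norm_num)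
  by_cases hz4 : z ^ 4 = 1
  · -- fourth roots of unity
    have hA40 : A4 = 0 := by
      rw [← norm_eq_zero, hA4, hz4, sub_self, norm_zero, zero_mul]
    rw [hA40] at hid
    have h3 : ((5 : ℕ) : K) * A3 = -(((5 : ℕ) : K) * ((2 : ℕ) : K) * A2) := by
      linear_combination hid
    have h4 := congrArg norm h3
    rw [norm_neg, norm_mul, norm_mul, norm_mul, h22, mul_one, hA3, hA2] at h4
    have h6 : ‖z ^ 3 - 1‖ * ‖x‖ = ‖z ^ 2 - 1‖ := by
      have h7 := mul_left_cancel₀ hq0.ne' h4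
      have h8 : 0 < ‖x‖ ^ 2 := by positivity
      apply mul_right_cancel₀ h8.ne'
      rw [← h7]
      ring
    have h7 : (z ^ 2 - 1) * (z ^ 2 + 1) = 0 := by linear_combination hz4
    rcases mul_eq_zero.1 h7 with h8 | h8
    · have h10 : z ^ 2 = 1 := by linear_combination h8
      rw [h8, norm_zero] at h6
      have h11 : ‖z ^ 3 - 1‖ = 0 := (mul_eq_zero.1 h6).resolve_right hx0.ne'
      have h12 : z ^ 3 - 1 = 0 := norm_eq_zero.1 h11
      have h13 : z ^ 3 = z ^ 2 * z := by ring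
      rw [h13, h10, one_mul] at h12
      linear_combination h12
    · exfalso
      have h10 : z ^ 2 - 1 = -((2 : ℕ) : K) := by
        push_cast
        linear_combination h8
      rw [h10, norm_neg, h22] at h6
      have h11 : ‖z ^ 3 - 1‖ * ‖x‖ ≤ ‖x‖ := mul_le_of_le_one_left hx0.le hz3
      linarith
  · exfalso
    have h3 := xg_low hna hq hn (z := z ^ 4) (by rw [← pow_mul, mul_comm, pow_mul, hz, one_pow]) hz4
    rw [← hx4] at h3
    have h4 : ‖x‖ ≤ ‖z ^ 4 - 1‖ := le_of_pow_le_pow_left₀ (by norm_num) (norm_nonneg _) h3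
    have h6 : ‖x‖ ^ 5 ≤ ‖A4‖ := by
      rw [hA4, pow_succ' ‖x‖ 4]
      exact mul_le_mul_of_nonneg_right h4 (by positivity)
    have h7 : ‖A4‖ < ‖x‖ ^ 5 := by
      rw [hid, norm_neg]
      refine (hna _ _).trans_lt (max_lt ?_ ?_)
      · rw [norm_mul, hA3, ← hx4]
        have h8 : ‖x‖ ^ 4 * (‖z ^ 3 - 1‖ * ‖x‖ ^ 3) = ‖z ^ 3 - 1‖ * ‖x‖ ^ 7 := by ring
        rw [h8]
        exact (mul_le_of_le_one_left (by positivity) hz3).trans_lt h57
      · rw [norm_mul, norm_mul, h22, mul_one, hA2, ← hx4]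
        have h8 : ‖x‖ ^ 4 * (‖z ^ 2 - 1‖ * ‖x‖ ^ 2) = ‖z ^ 2 - 1‖ * ‖x‖ ^ 6 := by ring
        rw [h8]
        exact (mul_le_of_le_one_left (by positivity) hz2).trans_lt h56
    linarith

end X54

open X54 in
theorem g540 : Good 5 4 0 := by
  have : Fact (Nat.Prime 5) := ⟨by norm_num⟩
  have hrel : ∀ x x' : ℂ, x * x' = ((5 : ℕ) : ℂ) →
      aeval x (PP 5 4 a4) = x ^ 4 * aeval (x + x') h4 := by
    intro x x' hxx
    rw [aeval_P x x' hxx, h4_aeval]
    push_cast at hxx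
    congr 1
    linear_combination -(4 * (x + x') ^ 2 - 2 * (x * x' + 5) + 15 * (x + x') + 20) * hxx
  have hne : ∀ x : ℂ, aeval x (PP 5 4 a4) = 0 → x ≠ 0 := by
    rintro x hx rfl
    rw [aeval_def, eval₂_at_zero, coeff_PP] at hx
    simp [a4] at hx
  refine xg_good (g := 4) (by norm_num) (a := a4) (by simp [a4]) ?_ (h := h4) h4_monic h4_deg
    ?_ ?_ hrel ?_ ?_ ?_
  · intro i h1 h2
    unfold a4
    split_ifs <;> norm_num
    omega
  · intro i hi
    unfold h4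
    simp only [coeff_add, coeff_X_pow, coeff_C_mul, coeff_X, coeff_C]
    interval_cases i <;> norm_num
  · unfold h4
    simp only [coeff_add, coeff_X_pow, coeff_C_mul, coeff_X, coeff_C]
    norm_num
  · intro x hx h2
    have hx0 := hne x hx
    rw [aeval_P x x (by rw [← h2]; ring)] at hx
    push_cast at h2
    have h3 := (mul_eq_zero.1 hx).resolve_left (pow_ne_zero _ hx0)
    have h4 : 50 * x + 120 = 0 := by
      linear_combination h3 - (2 * (x ^ 2 + 5) + 10 * x + 20) * h2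
    have h5 : x = -(12 / 5) := by linear_combination h4 / 50
    rw [h5] at h2
    norm_num at h2
  · intro x hx
    have hx0 := hne x hx
    have hxx : x * (((5 : ℕ) : ℂ) / x) = ((5 : ℕ) : ℂ) := mul_div_cancel₀ _ hx0
    have hβ : aeval (x + ((5 : ℕ) : ℂ) / x) h4 = 0 := by
      rw [hrel x _ hxx] at hx
      exact (mul_eq_zero.1 hx).resolve_left (pow_ne_zero _ hx0)
    set s : ℝ := Real.sqrt 5 with hs
    have hs2 : s ^ 2 = 5 := Real.sq_sqrt (by norm_num)
    have hs0 : 0 ≤ s := Real.sqrt_nonneg _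
    have hs1 : 2.2 < s := by
      rw [hs, Real.lt_sqrt (by norm_num)]
      norm_num
    have hs3 : s < 2.3 := by
      rw [hs, Real.sqrt_lt' (by norm_num)]
      norm_num
    set f : ℝ → ℝ := fun t => t ^ 4 + 5 * t ^ 3 - 10 * t ^ 2 - 75 * t - 80 with hf
    have hfc : Continuous f := by
      rw [hf]
      fun_prop
    have hev : ∀ t : ℝ, aeval t h4 = f t := fun t => h4_aeval t
    have f0 : 0 < f (-2 * s) := by
      have : f (-2 * s) = 16 * (s ^ 2) ^ 2 - 40 * s ^ 2 * s - 40 * s ^ 2 + 150 * s - 80 := by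
        rw [hf]
        ring
      rw [this, hs2]
      linarith
    have f1 : f (-4) < 0 := by
      rw [hf]
      norm_num
    have f2 : 0 < f (-3) := by
      rw [hf]
      norm_num
    have f3 : 0 < f (-2) := by
      rw [hf]
      norm_num
    have f4 : f (-1) < 0 := by
      rw [hf]
      norm_num
    have f5 : f 0 < 0 := by
      rw [hf]
      norm_num
    have f6 : 0 < f 4 := by
      rw [hf]
      norm_num
    obtain ⟨t1, a1, b1, c1⟩ := Pool.Agent.Y676.WP.exists_zero hfc (by linarith) (Or.inr ⟨f0, f1⟩)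
    obtain ⟨t2, a2, b2, c2⟩ := Pool.Agent.Y676.WP.exists_zero hfc (by norm_num) (Or.inl ⟨f1, f2⟩)
    obtain ⟨t3, a3, b3, c3⟩ := Pool.Agent.Y676.WP.exists_zero hfc (by norm_num) (Or.inr ⟨f3, f4⟩)
    obtain ⟨t4, a4, b4, c4⟩ := Pool.Agent.Y676.WP.exists_zero hfc (by norm_num) (Or.inl ⟨f5, f6⟩)
    have hbd : ∀ t : ℝ, -(2 * s) < t → t < 2 * s → t ^ 2 ≤ 4 * ((5 : ℕ) : ℝ) := by
      intro t h1 h2
      push_cast
      rw [← hs2]
      nlinarith
    refine xg_norm_of_roots (p := 5) (g := 4) (by norm_num) h4_monic h4_deg {t1, t2, t3, t4}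
      ?_ ?_ ?_ x _ hxx hβ
    · rw [Finset.card_insert_of_notMem, Finset.card_insert_of_notMem, Finset.card_insert_of_notMem,
        Finset.card_singleton]
      · simp only [Finset.mem_singleton]
        linarith
      · simp only [Finset.mem_insert, Finset.mem_singleton, not_or]
        constructor <;> linarith
      · simp only [Finset.mem_insert, Finset.mem_singleton, not_or]
        refine ⟨?_, ?_, ?_⟩ <;> linarith
    · intro t ht
      simp only [Finset.mem_insert, Finset.mem_singleton] at ht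
      rw [hev]
      rcases ht with rfl | rfl | rfl | rfl <;> assumption
    · intro t ht
      simp only [Finset.mem_insert, Finset.mem_singleton] at ht
      rcases ht with rfl | rfl | rfl | rfl <;> exact hbd _ (by linarith) (by linarith)
  · obtain ⟨hq, hq0⟩ := xg_five
    refine xg_field
      (fun x x' => x ^ 4 + x' ^ 4 + 5 * (x ^ 3 + x' ^ 3) + 10 * (x ^ 2 + x' ^ 2) - 30)
      (fun x x' => by ring) ?_ ?_
    · intro x hx
      have hx0 : x ≠ 0 := by
        rintro rfl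
        rw [aeval_def, eval₂_at_zero, coeff_PP] at hx
        simp [a4] at hx
      refine ⟨hx0, ?_⟩
      rw [aeval_P x (((5 : ℕ) : PadicAlgCl 5) / x) (mul_div_cancel₀ _ hx0)] at hx
      exact (mul_eq_zero.1 hx).resolve_left (pow_ne_zero _ hx0)
    · intro x x' z n hn hz hxx h1 h2 hle
      exact key (PadicAlgCl.isNonarchimedean 5) hq hq0 x x' z n hn hz hxx h1 h2 hle

end Pool.Agent.R80.WF
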