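import Pool.Agent.R80.WF.XG

/-! # The case `(p, g, f) = (5, 5, 0)` -/

set_option autoImplicit false

namespace Pool.Agent.R80.WF

open Polynomial

namespace X55

/-- the coefficients -/
def a5 (i : ℕ) : ℤ := if i = 0 then 1 else if i = 3 then 5 else if i = 5 then 5 else 0

theorem aeval_P {R : Type} [CommRing R] (x x' : R) (hxx : x * x' = ((5 : ℕ) : R)) :
    aeval x (PP 5 5 a5) = x ^ 5 * (x ^ 5 + x' ^ 5 + 5 * (x ^ 2 + x' ^ 2) + 5) := by
  have h5 : ((5 : ℕ) : R) = 5 := by norm_num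
  rw [h5] at hxx
  simp only [PP, Finset.sum_range_succ, Finset.sum_range_zero, map_add, map_mul, map_pow,
    aeval_X, aeval_C, map_zero]
  simp only [algebraMap_int_eq, eq_intCast, a5]
  norm_num
  have e5 : (3125 : R) = x ^ 5 * x' ^ 5 := by
    rw [← mul_pow, hxx]
    norm_num
  have e2 : (25 : R) = x ^ 2 * x' ^ 2 := by
    rw [← mul_pow, hxx]
    norm_num
  linear_combination e5 + 5 * x ^ 3 * e2

/-- the real Weil polynomial -/
noncomputable def h5 : ℤ[X] := X ^ 5 + (C (-25) * X ^ 3 + C 5 * X ^ 2 + C 125 * X + C (-45))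

theorem h5_nd : (C (-25) * X ^ 3 + C 5 * X ^ 2 + C 125 * X + C (-45) : ℤ[X]).degree < 5 := by
  refine lt_of_le_of_lt (b := (3 : WithBot ℕ)) ?_ (by norm_num)
  compute_degree

theorem h5_monic : h5.Monic := by
  unfold h5
  exact monic_X_pow_add h5_nd

theorem h5_deg : h5.natDegree = 5 := by
  unfold h5
  compute_degree!

theorem h5_aeval {R : Type} [CommRing R] (t : R) :
    aeval t h5 = t ^ 5 - 25 * t ^ 3 + 5 * t ^ 2 + 125 * t - 45 := by
  unfold h5
  simp only [map_add, map_mul, map_pow, aeval_X, aeval_C]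
  simp only [algebraMap_int_eq, eq_intCast]
  push_cast
  ring

theorem key {K : Type} [NormedField K] (hna : ∀ x y : K, ‖x + y‖ ≤ max ‖x‖ ‖y‖)
    (hq : ‖((5 : ℕ) : K)‖ < 1) (hq0 : 0 < ‖((5 : ℕ) : K)‖) (x x' z : K) (n : ℕ) (hn : 1 ≤ n)
    (hz : z ^ n = 1) (hxx : x * x' = ((5 : ℕ) : K))
    (h1 : x ^ 5 + x' ^ 5 + 5 * (x ^ 2 + x' ^ 2) + 5 = 0)
    (h2 : (z * x) ^ 5 + (z⁻¹ * x') ^ 5 + 5 * ((z * x) ^ 2 + (z⁻¹ * x') ^ 2) + 5 = 0)
    (hle : ‖x'‖ ≤ ‖x‖) : z = 1 := by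
  have hzn : ‖z‖ = 1 := f0n_norm_one (by omega) hz
  have h5 : ((5 : ℕ) : K) = 5 := by norm_num
  have hT : (x + x') ^ 5 = ((5 : ℕ) : K) *
      ((5 * (x + x') ^ 2 + -((x + x') + 25)) * (x + x') + ((9 : ℕ) : K)) := by
    rw [h5] at hxx ⊢
    push_cast
    linear_combination h1 + (5 * (x + x') ^ 3 - 5 * (x + x') * (x * x' + 5) + 10) * hxx
  have hR : ‖5 * (x + x') ^ 2 + -((x + x') + 25)‖ ≤ max 1 ‖x + x'‖ ^ 2 := by
    have hM : (1 : ℝ) ≤ max 1 ‖x + x'‖ := le_max_left _ _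
    have hM2 : (1 : ℝ) ≤ max 1 ‖x + x'‖ ^ 2 := one_le_pow₀ hM
    have hM3 : max 1 ‖x + x'‖ ≤ max 1 ‖x + x'‖ ^ 2 := le_self_pow₀ hM (by norm_num)
    refine (hna _ _).trans (max_le ?_ ?_)
    · rw [norm_mul, norm_pow, ← h5]
      refine (mul_le_of_le_one_left (by positivity) hq.le).trans ?_
      exact pow_le_pow_left₀ (norm_nonneg _) (le_max_right _ _) 2
    · rw [norm_neg]
      refine (hna _ _).trans (max_le ((le_max_right _ _).trans hM3) ?_)
      have h6 := f0n_nat hna 25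
      push_cast at h6
      exact h6.trans hM2
  have h9 : ‖((9 : ℕ) : K)‖ = 1 := f0n_coprime hna hq (by norm_num)
  obtain ⟨hT1, hT2⟩ := xg_T hna hq hq0 (by norm_num) h9 hR hT
  obtain ⟨hlt, hx1, hx0, hx5⟩ := xg_x hna hq0 (by norm_num) hxx hT1 hT2 hle
  have hA5 := xg_A hna hzn hlt (k := 5) (by norm_num)
  have hA2 := xg_A hna hzn hlt (k := 2) (by norm_num)
  have hid : (z * x) ^ 5 + (z⁻¹ * x') ^ 5 - (x ^ 5 + x' ^ 5) =
      -(((5 : ℕ) : K) * ((z * x) ^ 2 + (z⁻¹ * x') ^ 2 - (x ^ 2 + x' ^ 2))) := by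
    rw [h5]
    linear_combination h2 - h1
  have heq : ‖z ^ 5 - 1‖ = ‖z ^ 2 - 1‖ * ‖x‖ ^ 2 := by
    have h3 := congrArg norm hid
    rw [norm_neg, norm_mul, hA5, hA2, ← hx5] at h3
    have h4 : 0 < ‖x‖ ^ 5 := by positivity
    apply mul_right_cancel₀ h4.ne'
    rw [h3]
    ring
  by_contra hz1
  by_cases hz5 : z ^ 5 = 1
  · rw [hz5, sub_self, norm_zero] at heq
    have h3 : ‖z ^ 2 - 1‖ = 0 := by
      rcases mul_eq_zero.1 heq.symm with h | h
      · exact h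
      · exact absurd h (by positivity)
    have h4 : z ^ 2 = 1 := sub_eq_zero.1 (norm_eq_zero.1 h3)
    apply hz1
    have h6 : z ^ 5 = z ^ 2 * z ^ 2 * z := by ring
    rw [h4, one_mul, one_mul] at h6
    rw [← h6, hz5]
  · have h3 := xg_low hna hq hn (z := z ^ 5) (by rw [← pow_mul, mul_comm, pow_mul, hz, one_pow]) hz5
    have h4 : ‖z ^ 2 - 1‖ ≤ 1 := f0n_sub_le hna (by rw [norm_pow, hzn, one_pow])
    have h6 : ‖z ^ 5 - 1‖ ≤ ‖x‖ ^ 2 := by
      rw [heq]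
      exact mul_le_of_le_one_left (by positivity) h4
    have h7 : ‖z ^ 5 - 1‖ ^ 4 ≤ ‖x‖ ^ 8 := by
      refine (pow_le_pow_left₀ (norm_nonneg _) h6 4).trans ?_
      rw [← pow_mul]
    have h8 : ‖x‖ ^ 8 < ‖x‖ ^ 5 := pow_lt_pow_right_of_lt_one₀ hx0 hx1 (by norm_num)
    linarith

end X55

open X55 in
theorem g550 : Good 5 5 0 := by
  have : Fact (Nat.Prime 5) := ⟨by norm_num⟩
  refine xg_good (g := 5) (by norm_num) (a := a5) (by simp [a5]) ?_ (h := h5) h5_monic h5_deg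
    ?_ ?_ ?_ ?_ ?_ ?_
  · intro i h1 h2
    unfold a5
    split_ifs <;> norm_num
    omega
  · intro i hi
    unfold h5
    simp only [coeff_add, coeff_X_pow, coeff_C_mul, coeff_X, coeff_C]
    interval_cases i <;> norm_num
  · unfold h5
    simp only [coeff_add, coeff_X_pow, coeff_C_mul, coeff_X, coeff_C]
    norm_num
  · intro x x' hxx
    rw [aeval_P x x' hxx, h5_aeval]
    push_cast at hxx
    congr 1
    linear_combination -(5 * (x + x') ^ 3 - 5 * (x + x') * (x * x' + 5) + 10) * hxx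
  · intro x hx h2
    rw [aeval_P x x (by rw [← h2]; ring)] at hx
    push_cast at h2
    have hx0 : x ≠ 0 := by
      rintro rfl
      norm_num at h2
    have h3 := (mul_eq_zero.1 hx).resolve_left (pow_ne_zero _ hx0)
    have h4 : 50 * x + 55 = 0 := by
      linear_combination h3 - (2 * x ^ 3 + 10 * x + 10) * h2
    have h5 : x = -(11 / 10) := by linear_combination h4 / 50
    rw [h5] at h2
    norm_num at h2
  · refine root 5 5 a5 (by norm_num) (by norm_num) (by simp [a5]) ?_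
    intro θ
    set u : ℝ := (Real.sqrt ((5 : ℕ) : ℝ))⁻¹ with hu
    have hs : Real.sqrt ((5 : ℕ) : ℝ) ^ 2 = 5 := by
      rw [Real.sq_sqrt (by norm_num)]
      norm_num
    have hs0 : 2 < Real.sqrt ((5 : ℕ) : ℝ) := by
      rw [Real.lt_sqrt (by norm_num)]
      norm_num
    have hu2 : u ^ 2 = 1 / 5 := by
      rw [hu, inv_pow, hs]
      norm_num
    have hu0 : 0 < u := by
      rw [hu]
      positivity
    have hu1 : u < 1 / 2 := by
      rw [hu, inv_lt_comm₀ (by linarith) (by norm_num)]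
      norm_num
      push_cast at hs0
      linarith
    have c3 := Real.neg_one_le_cos (((3 : ℕ) : ℝ) * θ)
    have c5 := Real.neg_one_le_cos (((5 : ℕ) : ℝ) * θ)
    have e : ∑ i ∈ Finset.range 5, (a5 i : ℝ) * u ^ i * Real.cos (i * θ)
        + (a5 5 : ℝ) / 2 * u ^ 5 * Real.cos (((5 : ℕ) : ℝ) * θ) =
        1 + 5 * (u ^ 2 * u) * Real.cos (((3 : ℕ) : ℝ) * θ) +
          5 / 2 * (u ^ 2 * u ^ 2 * u) * Real.cos (((5 : ℕ) : ℝ) * θ) := by
      simp only [Finset.sum_range_succ, Finset.sum_range_zero, a5]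
      simp
      ring
    rw [e, hu2]
    generalize Real.cos (((3 : ℕ) : ℝ) * θ) = C3 at c3 ⊢
    generalize Real.cos (((5 : ℕ) : ℝ) * θ) = C5 at c5 ⊢
    have e3 : 0 ≤ u * (C3 + 1) := mul_nonneg hu0.le (by linarith)
    have e5 : 0 ≤ u * (C5 + 1) := mul_nonneg hu0.le (by linarith)
    have e6 : 1 + 5 * (1 / 5 * u) * C3 + 5 / 2 * (1 / 5 * (1 / 5) * u) * C5 =
        u * (C3 + 1) + 1 / 10 * (u * (C5 + 1)) + (1 - 11 / 10 * u) := by ring
    rw [e6]
    linarith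
  · obtain ⟨hq, hq0⟩ := xg_five
    refine xg_field (fun x x' => x ^ 5 + x' ^ 5 + 5 * (x ^ 2 + x' ^ 2) + 5)
      (fun x x' => by ring) ?_ ?_
    · intro x hx
      have hx0 : x ≠ 0 := by
        rintro rfl
        rw [aeval_def, eval₂_at_zero, coeff_PP] at hx
        simp [a5] at hx
      refine ⟨hx0, ?_⟩
      rw [aeval_P x (((5 : ℕ) : PadicAlgCl 5) / x) (mul_div_cancel₀ _ hx0)] at hx
      exact (mul_eq_zero.1 hx).resolve_left (pow_ne_zero _ hx0)
    · intro x x' z n hn hz hxx h1 h2 hle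
      exact key (PadicAlgCl.isNonarchimedean 5) hq hq0 x x' z n hn hz hxx h1 h2 hle

end Pool.Agent.R80.WF
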