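import Pool.Agent.R80.WF.F0Fin
import Pool.Agent.Y676.WP.OneTwo

/-! # Tools for the two exceptional cases `(p, g) = (5, 4), (5, 5)` of `p`-rank 0 -/

set_option autoImplicit false

namespace Pool.Agent.R80.WF

open Polynomial

theorem xg_norm_of_roots {p g : ℕ} (hp : 1 ≤ p) {H : ℤ[X]} (hm : H.Monic) (hd : H.natDegree = g)
    (S : Finset ℝ) (hS : S.card = g) (hr : ∀ s ∈ S, aeval s H = 0) (hb : ∀ s ∈ S, s ^ 2 ≤ 4 * p)
    (x x' : ℂ) (hxx : x * x' = p) (hβ : aeval (x + x') H = 0) : ‖x‖ = Real.sqrt p := by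
  have hp0 : (0 : ℝ) < p := by exact_mod_cast hp
  set q : ℂ[X] := H.map (algebraMap ℤ ℂ) with hq
  have hqm : q.Monic := hm.map _
  have hqd : q.natDegree = g := by
    rw [hq, hm.natDegree_map, hd]
  have hmem : ∃ s ∈ S, x + x' = (s : ℂ) := by
    by_contra hcon
    push Not at hcon
    have hT : (insert (x + x') (S.image (fun s : ℝ => (s : ℂ)))) ⊆ q.roots.toFinset := by
      intro z hz
      rw [Multiset.mem_toFinset, mem_roots hqm.ne_zero, IsRoot.def, hq, eval_map_algebraMap]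
      rcases Finset.mem_insert.1 hz with h | h
      · rw [h]
        exact hβ
      · obtain ⟨s, hs, rfl⟩ := Finset.mem_image.1 h
        have h1 := hr s hs
        have h2 : aeval ((algebraMap ℝ ℂ) s) H = algebraMap ℝ ℂ (aeval s H) :=
          aeval_algebraMap_apply ℂ s H
        rw [h1, map_zero] at h2
        exact h2
    have h1 := Finset.card_le_card hT
    rw [Finset.card_insert_of_notMem, Finset.card_image_of_injective _ Complex.ofReal_injective,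
      hS] at h1
    · have h2 := Multiset.toFinset_card_le q.roots
      have h3 := q.card_roots'
      omega
    · intro h
      obtain ⟨s, hs, hs2⟩ := Finset.mem_image.1 h
      exact hcon s hs hs2.symm
  obtain ⟨s, hs, hs2⟩ := hmem
  apply Pool.Agent.Y676.WP.norm_of_real hp0 (β := s) _ (hb s hs)
  have h1 : x ^ 2 - (x + x') * x + p = 0 := by
    linear_combination (-1 : ℂ) * hxx
  rw [hs2] at h1
  rw [Complex.ofReal_natCast]
  exact h1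

section abs

variable {K : Type} [NormedField K]

/-- a root of unity is not close to `1` -/
theorem xg_low (hna : ∀ x y : K, ‖x + y‖ ≤ max ‖x‖ ‖y‖) (hq : ‖((5 : ℕ) : K)‖ < 1) {z : K} {n : ℕ}
    (hn : 1 ≤ n) (hz : z ^ n = 1) (hz1 : z ≠ 1) : ‖((5 : ℕ) : K)‖ ≤ ‖z - 1‖ ^ 4 := by
  have hzn : ‖z‖ = 1 := f0n_norm_one (by omega) hz
  have h1 : ‖z - 1‖ ≤ 1 := f0n_sub_le hna hzn
  rcases f0n_ru hna (by norm_num : Nat.Prime 5) hq hn hz hz1 with ⟨k, -, hk⟩ | ⟨h, -⟩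
  · rw [← hk, mul_comm, pow_mul]
    exact pow_le_of_le_one (by positivity) (pow_le_one₀ (norm_nonneg _) h1)
      (pow_pos (by norm_num) k).ne'
  · rw [h, one_pow]
    exact hq.le

/-- the trace of the root -/
theorem xg_T (hna : ∀ x y : K, ‖x + y‖ ≤ max ‖x‖ ‖y‖) (hq : ‖((5 : ℕ) : K)‖ < 1)
    (hq0 : 0 < ‖((5 : ℕ) : K)‖) {g : ℕ} (hg : 3 ≤ g) {T R c : K} (hc : ‖c‖ = 1)
    (hR : ‖R‖ ≤ max 1 ‖T‖ ^ 2) (h : T ^ g = ((5 : ℕ) : K) * (R * T + c)) :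
    ‖T‖ < 1 ∧ ‖T‖ ^ g = ‖((5 : ℕ) : K)‖ := by
  have h1 : ‖T‖ ^ g = ‖((5 : ℕ) : K)‖ * ‖R * T + c‖ := by
    rw [← norm_pow, h, norm_mul]
  have hlt : ‖T‖ < 1 := by
    by_contra hcon
    push Not at hcon
    rw [max_eq_right hcon] at hR
    have h2 : ‖R * T + c‖ ≤ ‖T‖ ^ 3 := by
      refine (hna _ _).trans (max_le ?_ ?_)
      · rw [norm_mul, pow_succ ‖T‖ 2]
        exact mul_le_mul_of_nonneg_right hR (norm_nonneg _)
      · rw [hc]
        exact one_le_pow₀ hcon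
    have h3 : ‖T‖ ^ 3 ≤ ‖T‖ ^ g := pow_le_pow_right₀ hcon hg
    have h4 : 0 < ‖T‖ ^ g := by positivity
    have h5 : ‖((5 : ℕ) : K)‖ * ‖R * T + c‖ ≤ ‖((5 : ℕ) : K)‖ * ‖T‖ ^ g :=
      mul_le_mul_of_nonneg_left (h2.trans h3) hq0.le
    have h6 : ‖((5 : ℕ) : K)‖ * ‖T‖ ^ g < ‖T‖ ^ g := mul_lt_of_lt_one_left h4 hq
    linarith
  refine ⟨hlt, ?_⟩
  rw [max_eq_left hlt.le, one_pow] at hR
  have h2 : ‖R * T + c‖ = 1 := by
    rw [add_comm, ← hc]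
    refine f0n_add_eq hna ?_
    rw [norm_mul, hc]
    exact (mul_le_of_le_one_left (norm_nonneg _) hR).trans_lt hlt
  rw [h1, h2, mul_one]

theorem xg_x (hna : ∀ x y : K, ‖x + y‖ ≤ max ‖x‖ ‖y‖)
    (hq0 : 0 < ‖((5 : ℕ) : K)‖) {g : ℕ} (hg : 3 ≤ g) {x x' : K} (hxx : x * x' = ((5 : ℕ) : K))
    (h1 : ‖x + x'‖ < 1) (h2 : ‖x + x'‖ ^ g = ‖((5 : ℕ) : K)‖) (hle : ‖x'‖ ≤ ‖x‖) :
    ‖x'‖ < ‖x‖ ∧ ‖x‖ < 1 ∧ 0 < ‖x‖ ∧ ‖x‖ ^ g = ‖((5 : ℕ) : K)‖ := by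
  have hT0 : 0 < ‖x + x'‖ := by
    rcases (norm_nonneg (x + x')).eq_or_lt with h | h
    · rw [← h, zero_pow (by omega)] at h2
      exact absurd h2 hq0.ne
    · exact h
  have hlt : ‖x'‖ < ‖x‖ := by
    refine lt_of_le_of_ne hle fun heq => ?_
    have h3 : ‖x‖ ^ 2 = ‖((5 : ℕ) : K)‖ := by
      rw [← hxx, norm_mul, heq]
      ring
    have h4 : ‖x + x'‖ ≤ ‖x‖ := (hna _ _).trans (max_le le_rfl hle)
    have h5 : ‖x + x'‖ ^ 2 ≤ ‖x + x'‖ ^ g := by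
      rw [h2, ← h3]
      exact pow_le_pow_left₀ hT0.le h4 2
    have h6 : ‖x + x'‖ ^ g ≤ ‖x + x'‖ ^ 3 := pow_le_pow_of_le_one hT0.le h1.le hg
    have h7 : 0 < ‖x + x'‖ ^ 2 := by positivity
    nlinarith
  have h3 : ‖x + x'‖ = ‖x‖ := f0n_add_eq hna hlt
  rw [h3] at h1 h2 hT0
  exact ⟨hlt, h1, hT0, h2⟩

/-- the difference of two power sums -/
theorem xg_A (hna : ∀ x y : K, ‖x + y‖ ≤ max ‖x‖ ‖y‖) {x x' z : K} (hz : ‖z‖ = 1)
    (hlt : ‖x'‖ < ‖x‖) {k : ℕ} (hk : k ≠ 0) :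
    ‖(z * x) ^ k + (z⁻¹ * x') ^ k - (x ^ k + x' ^ k)‖ = ‖z ^ k - 1‖ * ‖x‖ ^ k := by
  have hz0 : z ≠ 0 := by
    rintro rfl
    rw [norm_zero] at hz
    exact zero_ne_one hz
  have h4 : z ^ k * z⁻¹ ^ k = 1 := by rw [← mul_pow, mul_inv_cancel₀ hz0, one_pow]
  have hid : (z * x) ^ k + (z⁻¹ * x') ^ k - (x ^ k + x' ^ k) =
      (z ^ k - 1) * (x ^ k + -(z⁻¹ ^ k * x' ^ k)) := by
    rw [mul_pow, mul_pow]
    linear_combination x' ^ k * h4
  rw [hid, norm_mul]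
  congr 1
  rw [f0n_add_eq hna, norm_pow]
  rw [norm_neg, norm_mul, norm_pow, norm_inv, hz, inv_one, one_pow, one_mul, norm_pow, norm_pow]
  exact pow_lt_pow_left₀ hlt (norm_nonneg _) hk

/-- from the ordered statement to all pairs of roots -/
theorem xg_field [CharZero K] {P : ℤ[X]} (F : K → K → K)
    (hF : ∀ x x' : K, F x x' = F x' x)
    (hP : ∀ x : K, aeval x P = 0 → x ≠ 0 ∧ F x (((5 : ℕ) : K) / x) = 0)
    (hkey : ∀ (x x' z : K) (n : ℕ), 1 ≤ n → z ^ n = 1 → x * x' = ((5 : ℕ) : K) → F x x' = 0 →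
      F (z * x) (z⁻¹ * x') = 0 → ‖x'‖ ≤ ‖x‖ → z = 1)
    (x y : K) (hx : aeval x P = 0)
    (hy : aeval y P = 0) (n : ℕ) (hn : 1 ≤ n) (hxy : x ^ n = y ^ n) : x = y := by
  obtain ⟨hx0, h1⟩ := hP x hx
  obtain ⟨hy0, h2⟩ := hP y hy
  have hxx : x * (((5 : ℕ) : K) / x) = ((5 : ℕ) : K) := mul_div_cancel₀ _ hx0
  have hz : (y / x) ^ n = 1 := by
    rw [div_pow, ← hxy, div_self (pow_ne_zero _ hx0)]
  have e1 : y = (y / x) * x := by rw [div_mul_cancel₀ _ hx0]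
  have e2 : ((5 : ℕ) : K) / y = (y / x)⁻¹ * (((5 : ℕ) : K) / x) := by
    field_simp
  have hfin : y / x = 1 := by
    rcases le_total ‖((5 : ℕ) : K) / x‖ ‖x‖ with hle | hle
    · refine hkey x (((5 : ℕ) : K) / x) (y / x) n hn hz hxx h1 ?_ hle
      rw [← e1, ← e2]
      exact h2
    · have hz' : ((y / x)⁻¹) ^ n = 1 := by rw [inv_pow, hz, inv_one]
      have h3 : (y / x)⁻¹ = 1 := by
        refine hkey (((5 : ℕ) : K) / x) x ((y / x)⁻¹) n hn hz'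
          (by rw [mul_comm]; exact hxx) ?_ ?_ hle
        · rw [hF, h1]
        · rw [inv_inv, ← e1, ← e2, hF, h2]
      rw [← inv_inv (y / x), h3, inv_one]
  rw [div_eq_one_iff_eq hx0] at hfin
  exact hfin.symm

end abs

/-- assembly -/
theorem xg_good [Fact (Nat.Prime 5)] {g : ℕ} (hg : 1 ≤ g) {a : ℕ → ℤ} (ha0 : a 0 = 1)
    (hdiv : ∀ i, 1 ≤ i → i ≤ g → ((5 : ℕ) : ℤ) ∣ a i) {h : ℤ[X]} (hhm : h.Monic)
    (hhd : h.natDegree = g) (hE1 : ∀ i < g, (5 : ℤ) ∣ h.coeff i) (hE2 : ¬ (25 : ℤ) ∣ h.coeff 0)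
    (hrel : ∀ x x' : ℂ, x * x' = ((5 : ℕ) : ℂ) → aeval x (PP 5 g a) = x ^ g * aeval (x + x') h)
    (hreal : ∀ x : ℂ, aeval x (PP 5 g a) = 0 → x ^ 2 ≠ ((5 : ℕ) : ℂ))
    (hnorm : ∀ x : ℂ, aeval x (PP 5 g a) = 0 → ‖x‖ = Real.sqrt ((5 : ℕ) : ℝ))
    (hnd : ∀ x y : PadicAlgCl 5, aeval x (PP 5 g a) = 0 → aeval y (PP 5 g a) = 0 → ∀ n : ℕ, 1 ≤ n →
      x ^ n = y ^ n → x = y) : Good 5 g 0 := by
  have hm : (PP 5 g a).Monic := monic_PP (by omega) ha0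
  have h5 : Nat.Prime 5 := by norm_num
  have hpz : Prime (5 : ℤ) := by norm_num
  have hirr : Irreducible h := by
    have hE : h.IsEisensteinAt (Ideal.span {(5 : ℤ)}) := by
      refine ⟨?_, ?_, ?_⟩
      · rw [hhm.leadingCoeff, Ideal.mem_span_singleton]
        intro h
        exact hpz.not_isUnit (isUnit_of_dvd_one h)
      · intro n hn
        rw [hhd] at hn
        rw [Ideal.mem_span_singleton]
        exact hE1 n hn
      · rw [Ideal.span_singleton_pow, Ideal.mem_span_singleton]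
        norm_num
        exact hE2
    have hprime : (Ideal.span {(5 : ℤ)}).IsPrime := by
      rw [Ideal.span_singleton_prime hpz.ne_zero]
      exact hpz
    exact hE.irreducible hprime hhm.isPrimitive (by omega)
  refine ⟨PP 5 g a, hm, natDegree_PP (by omega) ha0,
    Pool.Agent.Y676.WP.irreducible_of_real2 h5 hg hm (natDegree_PP (by omega) ha0) hhm hhd hirr
      hrel hreal hnorm, hnorm, ?_, ?_, ?_⟩
  · intro i hi
    rw [coeff_PP]
    split_ifs with h1 h2 h4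
    · exact Dvd.dvd.mul_right (dvd_pow_self _ (by omega)) _
    · exact hdiv g (by omega) le_rfl
    · exact hdiv (2 * g - i) (by omega) (by omega)
    · exact dvd_zero _
  · rw [coeff_PP, if_neg (by omega), if_neg (by omega), if_pos (by omega)]
    have e : 2 * g - (2 * g - 0) = 0 := by omega
    rw [e, ha0]
    norm_num
  · intro x hx n hn
    exact Pool.Agent.TH343.PR.adjoin_pow_eq hm
      (fun x y hx hy n hn hxy => f0n_transfer (K := PadicAlgCl 5) hm hnd hx hy hn hxy) hx hn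

/-- the norm of `5` -/
theorem xg_five [Fact (Nat.Prime 5)] : ‖((5 : ℕ) : PadicAlgCl 5)‖ < 1 ∧ 0 < ‖((5 : ℕ) : PadicAlgCl 5)‖ := by
  have h1 := PadicAlgCl.valuation_p 5
  have h2 := congrArg (fun t : NNReal => (t : ℝ)) h1
  beta_reduce at h2
  rw [PadicAlgCl.valuation_coe] at h2
  rw [h2]
  push_cast
  norm_num

end Pool.Agent.R80.WF
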